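import Pool.Agent.MP_10b04c_gt.Defs

attribute [-instance] AddQuantale.instAddLeftMono NonUnitalNormedRing.toNormedAddCommGroup
  Prod.instMul NumberField.to_charZero AddMonoidWithOne.toNatCast
  ContinuousMonoidHom.instCoeOutOfMonoidHomClassOfContinuousMapClass Valued.toUniformSpace
  TotallyDisconnectedSpace.t1Space instCoeTCOfCoe AlexandrovDiscrete.toLocallyCompactSpace
  T5Space.toT1Space AddQuantale.instAddRightMono NonUnitalNonAssocSemiring.toDistrib
  IdemSemiring.toCanonicallyOrderedAdd instCoeHTCOfCoeHeadOfCoeOTC continuousSub_of_discreteTopology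
  SimplyConnectedSpace.instPathConnectedSpace continuousSub_of_indiscreteTopology
  Quantale.instMulRightMono RKHS.instFunLike AddCommMonoid.toAddCommSemigroup
  CStarAlgebra.instOrderClosedTopology instLocallyCompactPairOfWeaklyLocallyCompactSpaceOfR1Space
  CommRing.toCommSemiring NonUnitalNonAssocRing.toAddCommGroup instCoeTOfCoeDep
  GrpTypeEquivalenceGrp.grpGroup DivisionSemiring.toSemiring NormedRing.toRing Fin.addCommGroup
  TotallySeparatedSpace.t2Space ESeminormedAddMonoid.toAddMonoid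
  ContinuousAddMonoidHom.instCoeOutOfAddMonoidHomClassOfContinuousMapClass
  IsometryClass.instCoeOutIsometryEquiv Nontrivial.to_nonempty TestFunctionClass.toDFunLike
  LinearOrderedCommMonoidWithZero.toPosMulStrictMono

-- part MP_10b04c_gt.Cancel
section

/-!
The cancellation lemma for a tracked stabilisation, and its consequences for `TC`.
-/

set_option autoImplicit false

namespace Pool.Agent.MP_10b04c_gt

open unitInterval ContinuousMap Set Topology Filter

section lift

variable {E Y Z : Type} [TopologicalSpace E] [TopologicalSpace Y] [TopologicalSpace Z]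

theorem lift_homotopic {p : C(E, Y)} (hp : IsCoveringMap p) (f : C(Z, E)) {g : C(Z, Y)}
    (h : (p.comp f).Homotopic g) : ∃ f₁ : C(Z, E), f.Homotopic f₁ ∧ p.comp f₁ = g := by
  obtain ⟨H⟩ := h
  have h0 : ∀ a, (H : C(I × Z, Y)) (0, a) = p (f a) := fun a => H.apply_zero a
  let L := hp.liftHomotopy (H : C(I × Z, Y)) f h0
  refine ⟨L.comp ⟨fun z => (1, z), by fun_prop⟩,
    ⟨⟨L, fun z => hp.liftHomotopy_zero _ _ h0 z, fun _ => rfl⟩⟩, ?_⟩
  ext z
  have := congrFun (hp.liftHomotopy_lifts (H : C(I × Z, Y)) f h0) (1, z)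
  exact this.trans (H.apply_one z)

end lift

/-- spaces `B k` with a stabilisation whose new point can be followed -/
structure Sys where
  B : ℕ → Type
  M : ℕ → Type
  [tB : ∀ k, TopologicalSpace (B k)]
  [tM : ∀ k, TopologicalSpace (M k)]
  π : ∀ k, C(M k, B (k + 1))
  φ : ∀ k, C(M k, B k)
  sh : ∀ k, C(B k, M k)
  τ : ∀ k, C(M k, M (k + 1))
  cov : ∀ k, IsCoveringMap (π k)
  one : ∀ (S : B 0) (q : M 0), π 0 q = π 0 (sh 0 S) → q = sh 0 S
  πτ : ∀ k p, π (k + 1) (τ k p) = π (k + 1) (sh (k + 1) (π k p))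
  inj : ∀ k p p', π k p = π k p' → τ k p = τ k p' → p = p'
  surj : ∀ k S q, π (k + 1) q = π (k + 1) (sh (k + 1) S) →
    q = sh (k + 1) S ∨ ∃ p, π k p = S ∧ τ k p = q
  h1 : ∀ k, ((φ k).comp (sh k)).Homotopic (ContinuousMap.id _)
  h2 : ∀ k, ((φ (k + 1)).comp (τ k)).Homotopic (((π k).comp (sh k)).comp (φ k))

attribute [instance] Sys.tB Sys.tM

namespace Sys

variable (S : Sys) {Z : Type} [TopologicalSpace Z]

/-- the stabilisation -/
def s (k : ℕ) : C(S.B k, S.B (k + 1)) := (S.π k).comp (S.sh k)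

theorem h1' (k : ℕ) (β : C(Z, S.B k)) : ((S.φ k).comp ((S.sh k).comp β)).Homotopic β :=
  (S.h1 k).comp (Homotopic.refl β)

theorem lemP [PreconnectedSpace Z] (k : ℕ) (β : C(Z, S.B (k + 1))) (L : C(Z, S.M (k + 1)))
    (hL : (S.π (k + 1)).comp L = (S.s (k + 1)).comp β) :
    ((S.φ (k + 1)).comp L).Homotopic β ∨ ∃ p : C(Z, S.M k), (S.π k).comp p = β ∧
      ((S.φ (k + 1)).comp L).Homotopic ((S.s k).comp ((S.φ k).comp p)) := by
  have hL' : ∀ z, S.π (k + 1) (L z) = S.π (k + 1) (S.sh (k + 1) (β z)) := fun z =>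
    DFunLike.congr_fun hL z
  by_cases h : ∃ z, L z = S.sh (k + 1) (β z)
  · obtain ⟨z, hz⟩ := h
    have : (L : Z → _) = (S.sh (k + 1)).comp β :=
      (S.cov (k + 1)).eq_of_comp_eq L.continuous ((S.sh (k + 1)).comp β).continuous
        (funext hL') z hz
    left
    rw [DFunLike.ext' this]
    exact S.h1' _ β
  · right
    choose p hp1 hp2 using fun z => (S.surj k (β z) (L z) (hL' z)).resolve_left fun e => h ⟨z, e⟩
    have hc : Continuous p := by
      rw [continuous_iff_continuousAt]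
      intro z
      have hl := (S.cov k).isLocalHomeomorph
      set sg := hl.localInverseAt (p z) with hsg
      have hs : β z ∈ sg.source := by
        rw [← hp1 z]; exact hl.apply_self_mem_localInverseAt_source
      have hsgz : sg (β z) = p z := by
        rw [← hp1 z]; exact hl.localInverseAt_apply_self
      have hsgc : ContinuousAt (fun w => sg (β w)) z :=
        (sg.continuousAt hs).comp β.continuous.continuousAt
      have h1 : ∀ᶠ w in 𝓝 z, β w ∈ sg.source :=
        β.continuous.continuousAt.preimage_mem_nhds (sg.open_source.mem_nhds hs)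
      obtain ⟨U, hU, hzU, hinj⟩ := (S.cov (k + 1)).isLocalHomeomorph.isLocallyInjective (L z)
      have h2 : ∀ᶠ w in 𝓝 z, L w ∈ U :=
        L.continuous.continuousAt.preimage_mem_nhds (hU.mem_nhds hzU)
      have h3 : ∀ᶠ w in 𝓝 z, S.τ k (sg (β w)) ∈ U := by
        refine ((S.τ k).continuous.continuousAt.comp hsgc).preimage_mem_nhds (hU.mem_nhds ?_)
        simpa [hsgz, hp2] using hzU
      refine hsgc.congr ?_
      filter_upwards [h1, h2, h3] with w h1 h2 h3
      have e1 : S.π k (sg (β w)) = β w := hl.apply_localInverseAt_of_mem h1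
      refine S.inj k _ _ (e1.trans (hp1 w).symm) ?_
      rw [hp2]
      exact hinj h3 h2 (by rw [S.πτ, e1, hL'])
    refine ⟨⟨p, hc⟩, ContinuousMap.ext hp1, ?_⟩
    have : L = (S.τ k).comp ⟨p, hc⟩ := ContinuousMap.ext fun z => (hp2 z).symm
    rw [this]
    exact (S.h2 k).comp (Homotopic.refl _)

/-- `j`-fold stabilisations up to homotopy -/
def St : ℕ → (k : ℕ) → C(Z, S.B k) → Prop
  | 0, _, _ => True
  | _ + 1, 0, _ => False
  | j + 1, k + 1, α => ∃ α' : C(Z, S.B k), St j k α' ∧ α.Homotopic ((S.s k).comp α')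

theorem St_congr {j k : ℕ} {α β : C(Z, S.B k)} (h : α.Homotopic β) (hβ : S.St j k β) :
    S.St j k α := by
  rcases j with _ | j
  · trivial
  rcases k with _ | k
  · exact hβ
  obtain ⟨α', h1, h2⟩ := hβ
  exact ⟨α', h1, h.trans h2⟩

theorem St_le : ∀ {j k : ℕ} {α : C(Z, S.B k)}, S.St j k α → j ≤ k
  | 0, _, _, _ => Nat.zero_le _
  | _ + 1, 0, _, h => h.elim
  | _ + 1, _ + 1, _, ⟨_, h, _⟩ => Nat.succ_le_succ (St_le h)

theorem lemE [PreconnectedSpace Z] (j : ℕ) : ∀ (k : ℕ) (β : C(Z, S.B k)) (L : C(Z, S.M k)),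
    S.St j k β → (S.π k).comp L = (S.s k).comp β →
    ((S.φ k).comp L).Homotopic β ∨ S.St (j + 1) k ((S.φ k).comp L) := by
  induction j with
  | zero =>
    intro k β L _ hL
    rcases k with _ | k
    · left
      rw [show L = (S.sh 0).comp β from ContinuousMap.ext fun z =>
        S.one _ _ (DFunLike.congr_fun hL z)]
      exact S.h1' _ β
    · rcases S.lemP k β L hL with h | ⟨p, -, h⟩
      · exact Or.inl h
      · exact Or.inr ⟨_, trivial, h⟩
  | succ j ih =>
    intro k β L hβ hL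
    rcases k with _ | k
    · exact hβ.elim
    obtain ⟨β₁, h1, h2⟩ := hβ
    rcases S.lemP k β L hL with h | ⟨p, hp, h⟩
    · exact Or.inl h
    obtain ⟨p₁, h3, h4⟩ := lift_homotopic (S.cov k) p (hp ▸ h2)
    have h5 := h.trans ((Homotopic.refl (S.s k)).comp ((Homotopic.refl (S.φ k)).comp h3))
    rcases ih k β₁ p₁ h1 h4 with h6 | h6
    · exact Or.inl ((h5.trans ((Homotopic.refl (S.s k)).comp h6)).trans h2.symm)
    · exact Or.inr ⟨_, h6, h5⟩

theorem half [PreconnectedSpace Z] {j k : ℕ} {α β : C(Z, S.B k)} (hβ : S.St j k β)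
    (h : ((S.s k).comp α).Homotopic ((S.s k).comp β)) : α.Homotopic β ∨ S.St (j + 1) k α := by
  obtain ⟨L, h1, h2⟩ := lift_homotopic (S.cov k) ((S.sh k).comp α) h
  have h3 : α.Homotopic ((S.φ k).comp L) :=
    (S.h1' k α).symm.trans ((Homotopic.refl (S.φ k)).comp h1)
  rcases S.lemE j k β L hβ h2 with h4 | h4
  · exact Or.inl (h3.trans h4)
  · exact Or.inr (S.St_congr h3 h4)

/-- cancellation on connected spaces -/
theorem cancel [PreconnectedSpace Z] {k : ℕ} {α β : C(Z, S.B k)}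
    (h : ((S.s k).comp α).Homotopic ((S.s k).comp β)) : α.Homotopic β := by
  have key : ∀ d j, j + d = k + 1 → S.St j k α → S.St j k β → α.Homotopic β := by
    intro d
    induction d with
    | zero => intro j hj h1 _; have := S.St_le h1; omega
    | succ d ih =>
      intro j hj h1 h2
      rcases S.half h2 h with h3 | h3
      · exact h3
      rcases S.half h1 h.symm with h4 | h4
      · exact h4.symm
      exact ih (j + 1) (by omega) h3 h4
  exact key (k + 1) 0 (by omega) trivial trivial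

end Sys

section tc

variable {Y Y' Z : Type} [TopologicalSpace Y] [TopologicalSpace Y'] [TopologicalSpace Z]

theorem homotopic_of_components [LocallyConnectedSpace Z] {f g : C(Z, Y)}
    (h : ∀ z : Z, (f.restrict (connectedComponent z)).Homotopic
      (g.restrict (connectedComponent z))) : f.Homotopic g := by
  have h' : ∀ C : Set Z, (∃ z, C = connectedComponent z) →
      Nonempty ((f.restrict C).Homotopy (g.restrict C)) := by
    rintro _ ⟨z, rfl⟩
    exact h z
  let H := fun C hC => (h' C hC).some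
  let K : I × Z → Y := fun p =>
    H (connectedComponent p.2) ⟨p.2, rfl⟩ (p.1, ⟨p.2, mem_connectedComponent⟩)
  have hK : ∀ (C : Set Z) (hC) (t : I) (z : Z) (hz : z ∈ C), C = connectedComponent z →
      K (t, z) = H C hC (t, ⟨z, hz⟩) := by
    rintro _ hC t z hz rfl
    rfl
  have hc : Continuous K := by
    rw [continuous_iff_continuousAt]
    rintro ⟨t, z⟩
    have ho : IsOpen {p : I × Z | p.2 ∈ connectedComponent z} :=
      isOpen_connectedComponent.preimage continuous_snd
    refine ContinuousOn.continuousAt ?_ (ho.mem_nhds mem_connectedComponent)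
    rw [continuousOn_iff_continuous_domRestrict]
    have : ({p : I × Z | p.2 ∈ connectedComponent z}).domRestrict K =
        fun p => H (connectedComponent z) ⟨z, rfl⟩ (p.1.1, ⟨p.1.2, p.2⟩) := by
      funext p
      exact hK (connectedComponent z) ⟨z, rfl⟩ _ _ p.2 (connectedComponent_eq p.2)
    rw [this]
    exact (H (connectedComponent z) ⟨z, rfl⟩).continuous.comp (by fun_prop)
  exact ⟨⟨⟨K, hc⟩, fun z => (H _ ⟨z, rfl⟩).apply_zero _, fun z => (H _ ⟨z, rfl⟩).apply_one _⟩⟩

theorem exists_family (f : ℕ → C(Z, Y)) (n : ℕ) (h : ∀ j, (f j).Homotopic (f (j + 1))) :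
    ∃ G : C(Z × ℝ, Y), ∀ j ≤ n, ∀ z, G (z, j) = f j z := by
  induction n with
  | zero =>
    refine ⟨(f 0).comp ContinuousMap.fst, fun j hj z => ?_⟩
    obtain rfl : j = 0 := by omega
    rfl
  | succ n ih =>
    obtain ⟨G, hG⟩ := ih
    obtain ⟨H⟩ := h n
    have hc : Continuous fun p : Z × ℝ =>
        if p.2 ≤ n then G p else H (projIcc 0 1 zero_le_one (p.2 - n), p.1) := by
      refine Continuous.if_le G.continuous
        (H.continuous.comp ((continuous_projIcc.comp (by fun_prop)).prodMk continuous_fst))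
        continuous_snd continuous_const ?_
      rintro ⟨z, t⟩ (rfl : t = n)
      simp [hG n le_rfl]
    refine ⟨⟨_, hc⟩, fun j hj z => ?_⟩
    rcases Nat.lt_or_ge n j with h1 | h1
    · obtain rfl : j = n + 1 := by omega
      simp only [Nat.cast_add, Nat.cast_one, coe_mk, add_le_iff_nonpos_right, add_sub_cancel_left, projIcc_right, Icc.mk_one, Homotopy.apply_one, ite_eq_right_iff, isEmpty_Prop, not_le, zero_lt_one, IsEmpty.forall_iff]
    · have : (j : ℝ) ≤ n := by exact_mod_cast h1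
      simp [this, hG j h1]

/-- the `i`-th projection on a set of tuples -/
def pr {r : ℕ} (U : Set (Fin r → Y)) (i : Fin r) : C(U, Y) :=
  ⟨fun x => x.1 i, (continuous_apply i).comp continuous_subtype_val⟩

theorem section_iff {r : ℕ} (h0 : 1 ≤ r) (h1 : r ≠ 1) (U : Set (Fin r → Y)) :
    (∃ s : C(U, C(I, Y)), ∀ (x : U) (j : Fin r) (t : I),
      (t : ℝ) = (j : ℝ) / ((r : ℝ) - 1) → s x t = x.1 j) ↔
    ∀ i j, (pr U i).Homotopic (pr U j) := by
  obtain ⟨n, rfl⟩ : ∃ n, r = n + 1 := ⟨r - 1, by omega⟩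
  have hn : (0 : ℝ) < n := by exact_mod_cast (show 0 < n by omega)
  simp only [Nat.cast_succ, add_sub_cancel_right]
  constructor
  · rintro ⟨s, hs⟩
    have key : ∀ i, (pr U 0).Homotopic (pr U i) := by
      intro i
      have hi : ((i : ℕ) : ℝ) ≤ n := by exact_mod_cast Nat.lt_succ_iff.mp i.2
      let a : I := ⟨(i : ℝ) / n, by positivity, (div_le_one hn).mpr hi⟩
      refine ⟨⟨⟨fun p => s p.2 (p.1 * a), by fun_prop⟩, fun x => ?_, fun x => ?_⟩⟩
      · exact hs x 0 _ (by simp only [zero_mul, Icc.coe_zero, Fin.coe_ofNat_eq_mod, Nat.zero_mod, CharP.cast_eq_zero, zero_div])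
      · exact hs x i _ (by simp [a])
    exact fun i j => (key i).symm.trans (key j)
  · intro h
    obtain ⟨G, hG⟩ := exists_family (fun j => pr U ⟨min j n, by omega⟩) n fun j => h _ _
    refine ⟨ContinuousMap.curry ⟨fun p => G (p.1, (p.2 : ℝ) * n), by fun_prop⟩, ?_⟩
    intro x j t ht
    have hj : (j : ℕ) ≤ n := Nat.lt_succ_iff.mp j.2
    have e : (t : ℝ) * n = (j : ℕ) := by rw [ht]; field_simp
    have := hG j hj x
    simp only [curry_apply, ContinuousMap.coe_mk, e, this, pr, min_eq_left hj]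

theorem TC_le_TC [LocallyConnectedSpace Y] [Nonempty Y] [PathConnectedSpace Y'] (F : C(Y, Y'))
    (hc : ∀ (Z : Type) [TopologicalSpace Z] [PreconnectedSpace Z] (α β : C(Z, Y)),
      (F.comp α).Homotopic (F.comp β) → α.Homotopic β) {r : ℕ} (hr : 1 ≤ r) :
    TC r Y ≤ TC r Y' := by
  have hc' : ∀ (Z : Type) [TopologicalSpace Z] [LocallyConnectedSpace Z] (α β : C(Z, Y)),
      (F.comp α).Homotopic (F.comp β) → α.Homotopic β := by
    intro Z _ _ α β h
    refine homotopic_of_components fun z => ?_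
    have : PreconnectedSpace (connectedComponent z) :=
      Subtype.preconnectedSpace isPreconnected_connectedComponent
    exact hc _ _ _ (h.comp (Homotopic.refl ⟨Subtype.val, continuous_subtype_val⟩))
  unfold TC LSCat
  split_ifs with h1
  · refine iInf_mono fun n => iInf_mono' ?_
    rintro ⟨U, hU, hcov, hn⟩
    refine ⟨⟨fun i => F ⁻¹' U i, fun i => (hU i).preimage F.continuous, ?_, fun i => ?_⟩, le_rfl⟩
    · rw [← preimage_iUnion, hcov, preimage_univ]
    · obtain ⟨y, hy⟩ := hn i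
      have := ((hU i).preimage F.continuous).locallyConnectedSpace
      obtain ⟨y₀⟩ := ‹Nonempty Y›
      refine ⟨y₀, hc' _ _ _ ?_⟩
      have h2 := hy.comp (Homotopic.refl
        (⟨fun x : F ⁻¹' U i => (⟨F x, x.2⟩ : U i), by fun_prop⟩ : C(F ⁻¹' U i, U i)))
      exact h2.trans ⟨(PathConnectedSpace.somePath y (F y₀)).toHomotopyConst⟩
  · refine iInf_mono fun n => iInf_mono' ?_
    rintro ⟨U, hU, hcov, hn⟩
    have hFc : Continuous fun (x : Fin r → Y) j => F (x j) := by fun_prop
    refine ⟨⟨fun i => (fun x j => F (x j)) ⁻¹' U i, fun i => (hU i).preimage hFc, ?_,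
      fun i => ?_⟩, le_rfl⟩
    · rw [← preimage_iUnion, hcov, preimage_univ]
    · have := ((hU i).preimage hFc).locallyConnectedSpace
      refine (section_iff hr h1 _).mpr fun a b => hc' _ _ _ ?_
      exact ((section_iff hr h1 _).mp (hn i) a b).comp (Homotopic.refl
        (⟨fun x => (⟨fun j => F (x.1 j), x.2⟩ : U i),
          (hFc.comp continuous_subtype_val).subtype_mk _⟩ :
            C((fun (x : Fin r → Y) j => F (x j)) ⁻¹' U i, U i)))

theorem TC_le_of_cover [PathConnectedSpace Y] {κ : Type} [Fintype κ] [Nonempty κ]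
    (U : κ → Set Y) (hU : ∀ c, IsOpen (U c)) (hcov : ∀ y, ∃ c, y ∈ U c)
    (hn : ∀ c, ((ContinuousMap.id Y).restrict (U c)).Nullhomotopic) {r : ℕ} (hr : 1 ≤ r) :
    TC r Y ≤ (Fintype.card κ ^ r : ℕ) := by
  classical
  have sur : ∀ (κ' : Type) [Fintype κ'] [Nonempty κ'],
      ∃ e : Fin (Fintype.card κ' + 1) → κ', Function.Surjective e := by
    intro κ' _ _
    refine ⟨Fin.cons (Classical.arbitrary κ') (Fintype.equivFin κ').symm, fun c => ?_⟩
    exact ⟨(Fintype.equivFin κ' c).succ, by simp⟩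
  unfold TC LSCat
  split_ifs with h1
  · obtain ⟨e, he⟩ := sur κ
    rw [h1, pow_one]
    refine iInf₂_le (Fintype.card κ) ⟨fun i => U (e i), fun i => hU _, ?_, fun i => hn _⟩
    refine eq_univ_of_forall fun y => ?_
    obtain ⟨c, hc⟩ := hcov y
    obtain ⟨i, rfl⟩ := he c
    exact mem_iUnion.mpr ⟨i, hc⟩
  · obtain ⟨e, he⟩ := sur (Fin r → κ)
    have hcard : Fintype.card (Fin r → κ) = Fintype.card κ ^ r := by simp only [Fintype.card_pi, Finset.prod_const, Finset.card_univ, Fintype.card_fin]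
    rw [← hcard]
    refine iInf₂_le (Fintype.card (Fin r → κ))
      ⟨fun i => Set.pi univ fun j => U (e i j), fun i => isOpen_set_pi finite_univ fun j _ => hU _,
        ?_, fun i => (section_iff hr h1 _).mpr ?_⟩
    · refine eq_univ_of_forall fun y => ?_
      choose c hc using fun j => hcov (y j)
      obtain ⟨i, rfl⟩ := he c
      exact mem_iUnion.mpr ⟨i, fun j _ => hc j⟩
    · have key : ∀ a, ∃ y, (pr (Set.pi univ fun j => U (e i j)) a).Homotopic (const _ y) := by
        intro a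
        obtain ⟨y, hy⟩ := hn (e i a)
        exact ⟨y, hy.comp (Homotopic.refl
          (⟨fun x : Set.pi univ fun j => U (e i j) => (⟨x.1 a, x.2 a trivial⟩ : U (e i a)),
            ((continuous_apply a).comp continuous_subtype_val).subtype_mk _⟩ :
              C(Set.pi univ fun j => U (e i j), U (e i a))))⟩
      intro a b
      obtain ⟨y, hy⟩ := key a
      obtain ⟨y', hy'⟩ := key b
      exact (hy.trans ⟨(PathConnectedSpace.somePath y y').toHomotopyConst⟩).trans hy'.symm

theorem eventually_const {f : ℕ → ℕ∞} (hf : Monotone f) {C : ℕ} (hC : ∀ k, f k ≤ C) :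
    ∃ k₀ N : ℕ, ∀ k, k₀ ≤ k → f k = N := by
  have hfin : ∀ k, ∃ a : ℕ, f k = a := fun k =>
    ⟨(f k).toNat, (ENat.natCast_toNat (ne_top_of_le_ne_top (ENat.natCast_ne_top C) (hC k))).symm⟩
  choose g hg using hfin
  have hb : BddAbove (range g) := ⟨C, by
    rintro _ ⟨k, rfl⟩
    have := hC k
    rw [hg] at this
    exact_mod_cast this⟩
  obtain ⟨k₀, hk₀⟩ := Nat.sSup_mem (range_nonempty g) hb
  refine ⟨k₀, g k₀, fun k hk => le_antisymm ?_ (hg k₀ ▸ hf hk)⟩
  rw [hg, hk₀]
  exact_mod_cast le_csSup hb (mem_range_self k)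

end tc

end Pool.Agent.MP_10b04c_gt

end

-- part MP_10b04c_gt.Conf
section

/-!
Unordered configurations, configurations with a marked point, and the covering between them.
-/

set_option autoImplicit false

namespace Pool.Agent.MP_10b04c_gt

open unitInterval ContinuousMap Set Topology Filter Function

section desc

variable {A Q Y : Type} [TopologicalSpace A] [TopologicalSpace Q] [TopologicalSpace Y]

theorem desc_map {q : A → Q} (hq : IsQuotientMap q) (f : A → Y) (hf : Continuous f)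
    (h : ∀ a a', q a = q a' → f a = f a') : ∃ g : C(Q, Y), ∀ a, g (q a) = f a := by
  have e : ∀ a, f (surjInv hq.surjective (q a)) = f a := fun a => h _ _ (surjInv_eq _ _)
  refine ⟨⟨fun z => f (surjInv hq.surjective z), hq.continuous_iff.mpr ?_⟩, e⟩
  exact hf.congr fun a => (e a).symm

theorem desc_homotopic {q : A → Q} (hq : IsQuotientMap q) {f g : C(Q, Y)} (H : I × A → Y)
    (hH : Continuous H) (h : ∀ t a a', q a = q a' → H (t, a) = H (t, a'))
    (h0 : ∀ a, H (0, a) = f (q a)) (h1 : ∀ a, H (1, a) = g (q a)) : f.Homotopic g := by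
  have e : ∀ t a, H (t, surjInv hq.surjective (q a)) = H (t, a) :=
    fun t a => h _ _ _ (surjInv_eq _ _)
  refine ⟨⟨⟨fun p => H (p.1, surjInv hq.surjective p.2), hq.continuous_lift_prod_right ?_⟩,
    fun z => ?_, fun z => ?_⟩⟩
  · exact hH.congr fun p => (e p.1 p.2).symm
  · obtain ⟨a, rfl⟩ := hq.surjective z
    exact (e 0 a).trans (h0 a)
  · obtain ⟨a, rfl⟩ := hq.surjective z
    exact (e 1 a).trans (h1 a)

end desc

variable {X : Type} {k : ℕ}

/-- ordered configurations -/
abbrev OC (k : ℕ) (X : Type) : Type := {x : Fin k → X // Injective x}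

/-- the class of an ordered configuration -/
def mkU (x : OC k X) : UConf k X := Quot.mk _ x

/-- the underlying set -/
def rng : UConf k X → Set X :=
  Quot.lift (fun x => range x.1) (by
    rintro x y ⟨g, h⟩
    rw [h, g.surjective.range_comp])

@[simp] theorem rng_mkU (x : OC k X) : rng (mkU x) = range x.1 := rfl

theorem mkU_surj : Surjective (mkU : OC k X → UConf k X) := Quot.mk_surjective

theorem exists_perm {x y : OC k X} (h : range x.1 = range y.1) :
    ∃ g : Equiv.Perm (Fin k), y.1 = x.1 ∘ g := by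
  refine ⟨(Equiv.ofInjective _ y.2).trans
    ((Equiv.setCongr h.symm).trans (Equiv.ofInjective _ x.2).symm), funext fun i => ?_⟩
  simp [Equiv.apply_ofInjective_symm]

theorem mkU_eq {x y : OC k X} : mkU x = mkU y ↔ range x.1 = range y.1 :=
  ⟨fun h => congrArg rng h, fun h => Quot.sound (exists_perm h)⟩

/-- permuting the points -/
def act (g : Equiv.Perm (Fin k)) (x : OC k X) : OC k X := ⟨x.1 ∘ g, x.2.comp g.injective⟩

theorem mkU_act (g : Equiv.Perm (Fin k)) (x : OC k X) : mkU (act g x) = mkU x :=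
  mkU_eq.mpr (g.surjective.range_comp _)

theorem mkU_eq' {x y : OC k X} : mkU x = mkU y ↔ ∃ g, y = act g x :=
  ⟨fun h => let ⟨g, hg⟩ := exists_perm (mkU_eq.mp h); ⟨g, Subtype.ext hg⟩,
    fun ⟨g, hg⟩ => hg ▸ (mkU_act g x).symm⟩

/-- configurations with a marked point -/
abbrev MC (k : ℕ) (X : Type) : Type := {p : UConf (k + 1) X × X // p.2 ∈ rng p.1}

/-- mark the first point -/
def mkM (x : OC (k + 1) X) : MC k X := ⟨(mkU x, x.1 0), mem_range_self _⟩

theorem mkM_swap (x : OC (k + 1) X) (i : Fin (k + 1)) :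
    (mkM (act (Equiv.swap 0 i) x)).1 = (mkU x, x.1 i) :=
  Prod.ext (mkU_act _ x) (by simp only [mkM, act, Function.comp_apply, Equiv.swap_apply_left])

theorem mkM_surj : Surjective (mkM : OC (k + 1) X → MC k X) := by
  rintro ⟨⟨S, y⟩, h⟩
  obtain ⟨x, rfl⟩ := mkU_surj S
  obtain ⟨i, hi⟩ := id h
  exact ⟨act (Equiv.swap 0 i) x, Subtype.ext ((mkM_swap x i).trans (Prod.ext rfl hi))⟩

theorem mkM_eq {x y : OC (k + 1) X} : mkM x = mkM y ↔ ∃ g, y = act g x ∧ g 0 = 0 := by
  constructor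
  · intro h
    have h' := congrArg Subtype.val h
    obtain ⟨g, rfl⟩ := mkU_eq'.mp (congrArg Prod.fst h')
    exact ⟨g, rfl, (x.2 (congrArg Prod.snd h')).symm⟩
  · rintro ⟨g, rfl, hg⟩
    exact Subtype.ext (Prod.ext (mkU_act g x).symm (by simp [mkM, act, hg]))

/-- forget the first point -/
def tl (x : OC (k + 1) X) : OC k X := ⟨fun i => x.1 i.succ, x.2.comp (Fin.succ_injective k)⟩

theorem range_tl (x : OC (k + 1) X) : range (tl x).1 = range x.1 \ {x.1 0} := by
  ext y
  constructor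
  · rintro ⟨i, rfl⟩
    exact ⟨mem_range_self _, fun h => Fin.succ_ne_zero i (x.2 h)⟩
  · rintro ⟨⟨i, rfl⟩, h⟩
    rcases Fin.eq_zero_or_eq_succ i with rfl | ⟨j, rfl⟩
    · exact (h rfl).elim
    · exact ⟨j, rfl⟩

theorem mkU_tl {x y : OC (k + 1) X} (h : mkM x = mkM y) : mkU (tl x) = mkU (tl y) := by
  have h' := congrArg Subtype.val h
  rw [mkU_eq, range_tl, range_tl, mkU_eq.mp (congrArg Prod.fst h'),
    show x.1 0 = y.1 0 from congrArg Prod.snd h']

variable [TopologicalSpace X]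

theorem continuous_ev (i : Fin k) : Continuous fun x : OC k X => x.1 i :=
  (continuous_apply i).comp continuous_subtype_val

theorem continuous_mkU : Continuous (mkU : OC k X → UConf k X) := continuous_quot_mk

theorem quot_mkU : IsQuotientMap (mkU : OC k X → UConf k X) := isQuotientMap_quot_mk

theorem continuous_act (g : Equiv.Perm (Fin k)) : Continuous (act g : OC k X → OC k X) :=
  (continuous_pi fun i => continuous_ev (g i)).subtype_mk _

theorem continuous_tl : Continuous (tl : OC (k + 1) X → OC k X) :=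
  (continuous_pi fun i => continuous_ev (Fin.succ i)).subtype_mk _

theorem continuous_mkM : Continuous (mkM : OC (k + 1) X → MC k X) :=
  (continuous_mkU.prodMk (continuous_ev 0)).subtype_mk _

omit [TopologicalSpace X] in
theorem preimage_image_mkU (U : Set (OC k X)) : mkU ⁻¹' (mkU '' U) = ⋃ g, act g ⁻¹' U := by
  ext x
  simp only [mem_preimage, mem_image, mem_iUnion]
  constructor
  · rintro ⟨y, hy, h⟩
    obtain ⟨g, rfl⟩ := mkU_eq'.mp h.symm
    exact ⟨g, hy⟩
  · rintro ⟨g, hg⟩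
    exact ⟨_, hg, mkU_act g x⟩

theorem open_mkU : IsOpenMap (mkU : OC k X → UConf k X) := fun U hU => by
  rw [← quot_mkU.isOpen_preimage, preimage_image_mkU]
  exact isOpen_iUnion fun g => hU.preimage (continuous_act g)

theorem closed_mkU : IsClosedMap (mkU : OC k X → UConf k X) := fun U hU => by
  rw [← quot_mkU.isClosed_preimage, preimage_image_mkU]
  exact isClosed_iUnion_of_finite fun g => hU.preimage (continuous_act g)

theorem openQuot_mkU : IsOpenQuotientMap (mkU : OC k X → UConf k X) :=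
  ⟨mkU_surj, continuous_mkU, open_mkU⟩

variable [T2Space X]

theorem t2_UConf : T2Space (UConf k X) := by
  rw [t2Space_iff_of_isOpenQuotientMap openQuot_mkU]
  simp only [mkU_eq', ofPred_exists]
  exact isClosed_iUnion_of_finite fun g =>
    isClosed_eq continuous_snd ((continuous_act g).comp continuous_fst)

theorem quot_mkM : IsQuotientMap (mkM : OC (k + 1) X → MC k X) := by
  refine IsClosedMap.isQuotientMap (fun C hC => ?_) continuous_mkM mkM_surj
  have hq := (openQuot_mkU (k := k + 1) (X := X)).prodMap (IsOpenQuotientMap.id (X := X))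
  have h1 : IsClosed ((fun x => (mkM x).1) '' C) := by
    rw [← hq.isQuotientMap.isClosed_preimage]
    have : Prod.map mkU id ⁻¹' ((fun x => (mkM x).1) '' C) =
        ⋃ g, {p : OC (k + 1) X × X | act g p.1 ∈ C ∧ p.1.1 (g 0) = p.2} := by
      ext ⟨x, y⟩
      simp only [mem_preimage, mem_image, mem_iUnion, mem_ofPred_eq, Prod.map, id]
      constructor
      · rintro ⟨z, hz, h⟩
        obtain ⟨g, rfl⟩ := mkU_eq'.mp (congrArg Prod.fst h).symm
        exact ⟨g, hz, congrArg Prod.snd h⟩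
      · rintro ⟨g, hg, h⟩
        exact ⟨_, hg, Prod.ext (mkU_act g x) h⟩
    rw [this]
    exact isClosed_iUnion_of_finite fun g =>
      (hC.preimage ((continuous_act g).comp continuous_fst)).inter
        (isClosed_eq ((continuous_ev _).comp continuous_fst) continuous_snd)
  convert h1.preimage continuous_subtype_val using 1
  ext p
  simp only [mem_image, mem_preimage, Subtype.ext_iff]

/-- forget the marking -/
def piM (k : ℕ) (X : Type) [TopologicalSpace X] : C(MC k X, UConf (k + 1) X) :=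
  ⟨fun p => p.1.1, by fun_prop⟩

omit [T2Space X] in
theorem piM_image (O : Set (MC k X)) : piM k X '' O = mkU '' (mkM ⁻¹' O) := by
  ext S
  constructor
  · rintro ⟨p, hp, rfl⟩
    obtain ⟨x, rfl⟩ := mkM_surj p
    exact ⟨x, hp, rfl⟩
  · rintro ⟨x, hx, rfl⟩
    exact ⟨_, hx, rfl⟩

theorem cov_piM : IsCoveringMap (piM k X) := by
  classical
  have := t2_UConf (k := k + 1) (X := X)
  have ho : IsOpenMap (piM k X) := fun O hO => by
    rw [piM_image]; exact open_mkU _ (hO.preimage continuous_mkM)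
  have hc : IsClosedMap (piM k X) := fun O hO => by
    rw [piM_image]; exact closed_mkU _ (hO.preimage continuous_mkM)
  rw [isCoveringMap_iff_isCoveringMapOn_univ]
  refine hc.isCoveringMapOn_of_isLocalHomeomorphOn (fun S _ => ?_)
    (IsLocalHomeomorph.isLocalHomeomorphOn ?_)
  · obtain ⟨x, rfl⟩ := mkU_surj S
    refine Finite.of_finite_image (f := fun p => p.1.2) ((finite_range x.1).subset ?_) ?_
    · rintro _ ⟨p, hp, rfl⟩
      have h := p.2
      rwa [show p.1.1 = mkU x from hp] at h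
    · intro p hp p' hp' h
      exact Subtype.ext (Prod.ext (Eq.trans hp (Eq.symm hp')) h)
  · rw [isLocalHomeomorph_iff_isOpenEmbedding_restrict]
    intro p
    obtain ⟨x, rfl⟩ := mkM_surj p
    have hx : x.1 0 ∉ Finset.univ.image (tl x).1 := by
      rw [← Finset.mem_coe, Finset.coe_image, Finset.coe_univ, image_univ, range_tl]
      exact fun h => h.2 rfl
    obtain ⟨U, V, hU, hV, h0, h1, hd⟩ := SeparatedNhds.of_singleton_finset hx
    have hO : IsOpen (mkU '' {y : OC (k + 1) X | ∀ i : Fin k, y.1 i.succ ∈ V}) := by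
      refine open_mkU _ ?_
      rw [ofPred_forall]
      exact isOpen_iInter_of_finite fun i => hV.preimage (continuous_ev _)
    have hW : IsOpen {p : MC k X | p.1.2 ∈ U ∧
        p.1.1 ∈ mkU '' {y : OC (k + 1) X | ∀ i : Fin k, y.1 i.succ ∈ V}} :=
      (hU.preimage (by fun_prop)).inter (hO.preimage (by fun_prop))
    refine ⟨_, hW.mem_nhds ⟨h0 rfl, x, fun i => h1 (by simp only [tl, Finset.coe_image, Finset.coe_univ, image_univ, mem_range, exists_apply_eq_apply]), rfl⟩,
      .of_continuous_injective_isOpenMap ((piM k X).continuous.comp continuous_subtype_val) ?_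
        (ho.domRestrict hW)⟩
    have key : ∀ (p : MC k X) (y : OC (k + 1) X), p.1.2 ∈ U → (∀ i : Fin k, y.1 i.succ ∈ V) →
        mkU y = p.1.1 → p.1.2 = y.1 0 := by
      intro p y h2 h3 h4
      have h5 := p.2
      rw [← h4] at h5
      obtain ⟨i, hi⟩ := h5
      rcases Fin.eq_zero_or_eq_succ i with rfl | ⟨j, rfl⟩
      · exact hi.symm
      · exact (disjoint_left.mp hd h2 (hi ▸ h3 j)).elim
    rintro ⟨p, hp, y, hy, e⟩ ⟨p', hp', -⟩ (h : p.1.1 = p'.1.1)
    exact Subtype.ext (Subtype.ext (Prod.ext h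
      ((key p y hp hy e).trans (key p' y hp' hy (e.trans h)).symm)))

theorem exists_phi (k : ℕ) : ∃ φ : C(MC k X, UConf k X), ∀ x, φ (mkM x) = mkU (tl x) :=
  desc_map quot_mkM _ (continuous_mkU.comp continuous_tl) fun _ _ => mkU_tl

theorem lpc_UConf [LocallyPathConnectedSpace X] : LocallyPathConnectedSpace (UConf k X) := by
  have h : IsOpen {x : Fin k → X | Injective x} := by
    have : {x : Fin k → X | Injective x} = ⋂ i, ⋂ j, {x | i = j ∨ x i ≠ x j} := by
      ext x
      simp only [mem_ofPred_eq, mem_iInter]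
      exact ⟨fun h i j => (em (x i = x j)).imp_left fun e => h e,
        fun h i j e => (h i j).resolve_right fun e' => e' e⟩
    rw [this]
    refine isOpen_iInter_of_finite fun i => isOpen_iInter_of_finite fun j => ?_
    by_cases e : i = j
    · simp only [e, ne_eq, not_true_eq_false, or_false, ofPred_true, isOpen_univ]
    · simp only [e, false_or]
      exact isOpen_ne_fun (continuous_apply i) (continuous_apply j)
  have : LocallyPathConnectedSpace (OC k X) := h.locallyPathConnectedSpace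
  infer_instance

end Pool.Agent.MP_10b04c_gt

end

-- part MP_10b04c_gt.Star
section

/-!
The stabilisation at a point with three legs.
-/

set_option autoImplicit false

namespace Pool.Agent.MP_10b04c_gt

open unitInterval ContinuousMap Set Topology Filter Function

/-- a point `v` with three legs, the distance `ρ` to `v` and the coordinate `γ` on the third leg -/
structure Star (X : Type) [TopologicalSpace X] where
  v : X
  ρ : X → ℝ
  γ : X → ℝ
  la : ℝ → X
  lb : ℝ → X
  lc : ℝ → X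
  cρ : Continuous ρ
  cγ : Continuous γ
  ca : Continuous la
  cb : Continuous lb
  cc : Continuous lc
  ρ0 : ∀ x, 0 ≤ ρ x
  γ0 : ∀ x, 0 ≤ γ x
  ρv : ∀ x, ρ x = 0 → x = v
  ρa : ∀ t, 0 ≤ t → t ≤ 1 → ρ (la t) = t
  ρb : ∀ t, 0 ≤ t → t ≤ 1 → ρ (lb t) = t
  ρc : ∀ t, 0 ≤ t → t ≤ 1 → ρ (lc t) = t
  γa : ∀ t, 0 ≤ t → t ≤ 1 → γ (la t) = 0
  γb : ∀ t, 0 ≤ t → t ≤ 1 → γ (lb t) = 0
  γc : ∀ t, 0 ≤ t → t ≤ 1 → γ (lc t) = t
  ab : ∀ t, 0 < t → t ≤ 1 → la t ≠ lb t
  dich : ∀ x, ρ x < 1 → γ x = 0 ∨ x = lc (ρ x)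

namespace Star

variable {X : Type} [TopologicalSpace X] (T : Star X) {k : ℕ}

theorem la0 : T.la 0 = T.v := T.ρv _ (T.ρa 0 le_rfl zero_le_one)
theorem lb0 : T.lb 0 = T.v := T.ρv _ (T.ρb 0 le_rfl zero_le_one)
theorem lc0 : T.lc 0 = T.v := T.ρv _ (T.ρc 0 le_rfl zero_le_one)
theorem ρ_v : T.ρ T.v = 0 := by rw [← T.lc0]; exact T.ρc 0 le_rfl zero_le_one

/-- the line through the legs `a` and `c` -/
noncomputable def A (ξ : ℝ) : X := if 0 ≤ ξ then T.lc ξ else T.la (-ξ)

/-- the line through the legs `b` and `c` -/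
noncomputable def Bm (η : ℝ) : X := if 0 ≤ η then T.lc η else T.lb (-η)

theorem cA : Continuous T.A :=
  Continuous.if_le T.cc (T.ca.comp continuous_neg) continuous_const continuous_id
    (by rintro _ rfl; simp [la0, lc0])

theorem cB : Continuous T.Bm :=
  Continuous.if_le T.cc (T.cb.comp continuous_neg) continuous_const continuous_id
    (by rintro _ rfl; simp [lb0, lc0])

theorem ρA {ξ : ℝ} (h : |ξ| ≤ 1) : T.ρ (T.A ξ) = |ξ| := by
  have := abs_le.mp h
  unfold A
  split_ifs with h0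
  · rw [T.ρc _ h0 this.2, abs_of_nonneg h0]
  · rw [T.ρa _ (by linarith) (by linarith), abs_of_neg (not_le.mp h0)]

theorem ρB {η : ℝ} (h : |η| ≤ 1) : T.ρ (T.Bm η) = |η| := by
  have := abs_le.mp h
  unfold Bm
  split_ifs with h0
  · rw [T.ρc _ h0 this.2, abs_of_nonneg h0]
  · rw [T.ρb _ (by linarith) (by linarith), abs_of_neg (not_le.mp h0)]

theorem A_eq_B {ξ η : ℝ} (h1 : |ξ| ≤ 1) (h2 : |η| ≤ 1) (h : T.A ξ = T.Bm η) :
    0 ≤ ξ ∧ 0 ≤ η := by
  have h3 : |ξ| = |η| := by rw [← T.ρA h1, ← T.ρB h2, h]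
  have h4 := abs_le.mp h1
  have h5 := abs_le.mp h2
  unfold A Bm at h
  split_ifs at h with a b b
  · exact ⟨a, b⟩
  · have := congrArg T.γ h
    rw [T.γc _ a h4.2, T.γb _ (by linarith) (by linarith only [h5])] at this
    rw [this, abs_zero, eq_comm, abs_eq_zero] at h3
    exact (b h3.ge).elim
  · have := congrArg T.γ h
    rw [T.γc _ b h5.2, T.γa _ (by linarith) (by linarith)] at this
    rw [← this, abs_zero, abs_eq_zero] at h3
    exact (a h3.ge).elim
  · rw [abs_of_neg (not_le.mp a), abs_of_neg (not_le.mp b)] at h3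
    rw [← h3] at h
    exact (T.ab _ (by linarith) (by linarith) h).elim

/-- position of the new point caused by a point `q` at scale `m` -/
noncomputable def η (q : X) (m : ℝ) : ℝ := max (m - T.ρ q - 2 * T.γ q) (min (T.ρ q - m) 0)

theorem η_zero {q : X} {m : ℝ} (h : m ≤ T.ρ q) : T.η q m = 0 := by
  have := T.γ0 q
  unfold η
  rw [min_eq_right (by linarith), max_eq_right (by linarith)]

theorem abs_η {q : X} {m : ℝ} (h : T.ρ q < m) : |T.η q m| ≤ m := by
  have := T.γ0 q
  have := T.ρ0 q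
  unfold η
  rw [min_eq_left (by linarith), abs_le]
  exact ⟨le_max_of_le_right (by linarith), max_le (by linarith) (by linarith)⟩

/-- coordinate of the moved point -/
noncomputable def ξ (t w m : ℝ) : ℝ := (1 - t) * max (-w) (3 * w - 2 * m) + t * w

theorem abs_ξ {t w m : ℝ} (h0 : 0 ≤ t) (h1 : t ≤ 1) (hw : 0 ≤ w) (h : w < m) : |ξ t w m| ≤ m := by
  have a : -w ≤ max (-w) (3 * w - 2 * m) := le_max_left _ _
  have b : max (-w) (3 * w - 2 * m) ≤ m := max_le (by linarith) (by linarith)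
  unfold ξ
  rw [abs_le]
  constructor <;> nlinarith only [h0, h1, h, a, b]

open Classical in
/-- the moved point -/
noncomputable def P (t : ℝ) (q : X) (m : ℝ) : X :=
  if 0 < T.γ q ∧ T.ρ q < m then T.A (ξ t (T.ρ q) m) else q

theorem P_of_le (t : ℝ) {q : X} {m : ℝ} (h : m ≤ T.ρ q) : T.P t q m = q :=
  if_neg fun h' => absurd h'.2 (not_lt.mpr h)

theorem P_one (q : X) {m : ℝ} (hm : m ≤ 1) : T.P 1 q m = q := by
  unfold P
  split_ifs with h
  · have : ξ 1 (T.ρ q) m = T.ρ q := by simp only [ξ, sub_self, zero_mul, one_mul, zero_add]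
    rw [this, A, if_pos (T.ρ0 q)]
    exact ((T.dich q (by linarith [h.2])).resolve_left h.1.ne').symm
  · rfl

theorem ρP {t : ℝ} (h0 : 0 ≤ t) (h1 : t ≤ 1) {q : X} {m : ℝ} (hm : m ≤ 1) (h : T.ρ q < m) :
    T.ρ (T.P t q m) ≤ m := by
  unfold P
  have := abs_ξ h0 h1 (T.ρ0 q) h
  split_ifs
  · rw [T.ρA (this.trans hm)]; exact this
  · exact h.le

theorem B_ne_P {q : X} {m : ℝ} (hm : m ≤ 1) (h : T.ρ q < m) : T.Bm (T.η q m) ≠ T.P 0 q m := by
  have h0 := T.ρ0 q
  unfold P
  split_ifs with hq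
  · intro e
    have e1 := (T.dich q (by linarith)).resolve_left hq.1.ne'
    have e2 : T.γ q = T.ρ q := by
      conv_lhs => rw [e1]
      exact T.γc _ h0 (by linarith)
    obtain ⟨a, b⟩ := T.A_eq_B ((abs_ξ le_rfl zero_le_one h0 h).trans hm) ((T.abs_η h).trans hm)
      e.symm
    have h2 := hq.1
    simp only [ξ, sub_zero, one_mul, zero_mul, add_zero, le_max_iff] at a
    rw [η, min_eq_left (by linarith only [h]), le_max_iff] at b
    rcases a with a | a <;> rcases b with b | b <;> linarith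
  · have e1 : T.γ q = 0 := le_antisymm (not_lt.mp fun h' => hq ⟨h', h⟩) (T.γ0 q)
    have e2 : T.η q m = m - T.ρ q := by
      rw [η, e1, min_eq_left (by linarith), max_eq_left (by linarith)]; ring
    intro e
    have := congrArg T.γ e
    rw [e2, Bm, if_pos (by linarith only [h]), T.γc _ (by linarith) (by linarith)] at this
    linarith

theorem cP [T2Space X] {Z : Type} [TopologicalSpace Z] {t m : Z → ℝ} {q : Z → X}
    (ht : Continuous t) (hq : Continuous q) (hm : Continuous m) (h1 : ∀ z, m z < 1) :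
    Continuous fun z => T.P (t z) (q z) (m z) := by
  have hρ : Continuous fun z => T.ρ (q z) := T.cρ.comp hq
  have hγ : Continuous fun z => T.γ (q z) := T.cγ.comp hq
  unfold P
  refine Continuous.if (fun z hz => ?_) (T.cA.comp (by unfold ξ; fun_prop)) hq
  have hO : IsOpen {z | 0 < T.γ (q z) ∧ T.ρ (q z) < m z} :=
    (isOpen_lt continuous_const hγ).inter (isOpen_lt hρ hm)
  rw [hO.frontier_eq] at hz
  have hC : IsClosed {z | q z = T.lc (T.ρ (q z)) ∧ T.ρ (q z) ≤ m z} :=
    (isClosed_eq hq (T.cc.comp hρ)).inter (isClosed_le hρ hm)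
  obtain ⟨e, hle⟩ := closure_minimal (fun z hz =>
    (⟨(T.dich _ (hz.2.trans (h1 z))).resolve_left hz.1.ne', hz.2.le⟩ :
      z ∈ {z | q z = T.lc (T.ρ (q z)) ∧ T.ρ (q z) ≤ m z})) hC hz.1
  have h0 := T.ρ0 (q z)
  have e2 : T.γ (q z) = T.ρ (q z) := by
    conv_lhs => rw [e]
    exact T.γc _ h0 (by linarith [h1 z])
  have e3 : max (-T.ρ (q z)) (3 * T.ρ (q z) - 2 * m z) = T.ρ (q z) := by
    rcases not_and_or.mp hz.2 with h | h
    · have : T.ρ (q z) = 0 := by linarith only [h0, e2, h]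
      rw [max_eq_left (by linarith)]; linarith
    · rw [max_eq_right (by linarith [not_lt.mp h])]; linarith [not_lt.mp h]
  have e4 : ξ (t z) (T.ρ (q z)) (m z) = T.ρ (q z) := by rw [ξ, e3]; ring
  rw [e4, A, if_pos h0]
  exact e.symm

/-- distance of the other points, capped by `μ` -/
noncomputable def lam (x : Fin k → X) (μ : ℝ) (i : Fin k) : ℝ :=
  (Finset.univ.erase i).fold min μ fun j => T.ρ (x j)

theorem le_lam {x : Fin k → X} {μ c : ℝ} {i : Fin k} :
    c ≤ T.lam x μ i ↔ c ≤ μ ∧ ∀ j, j ≠ i → c ≤ T.ρ (x j) := by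
  simp only [lam, Finset.le_fold_min, Finset.mem_erase, ne_eq, Finset.mem_univ, and_true]

theorem lt_lam {x : Fin k → X} {μ c : ℝ} {i : Fin k} :
    c < T.lam x μ i ↔ c < μ ∧ ∀ j, j ≠ i → c < T.ρ (x j) := by
  simp only [lam, Finset.lt_fold_min, Finset.mem_erase, ne_eq, Finset.mem_univ, and_true]

theorem lam_le (x : Fin k → X) (μ : ℝ) (i : Fin k) : T.lam x μ i ≤ μ := (T.le_lam.mp le_rfl).1

theorem lam_le_ρ (x : Fin k → X) (μ : ℝ) {i j : Fin k} (h : j ≠ i) : T.lam x μ i ≤ T.ρ (x j) :=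
  (T.le_lam.mp le_rfl).2 j h

theorem lam_perm (x : Fin k → X) (μ : ℝ) (g : Equiv.Perm (Fin k)) (i : Fin k) :
    T.lam (x ∘ g) μ i = T.lam x μ (g i) := by
  refine eq_of_forall_le_iff fun c => ?_
  simp only [le_lam, Function.comp_apply]
  refine and_congr_right fun _ => ⟨fun h j hj => ?_, fun h j hj => h _ (g.injective.ne hj)⟩
  simpa using h (g.symm j) fun e => hj (by rw [← e]; simp)

theorem lam_succ (x : Fin (k + 1) → X) (μ : ℝ) (i : Fin k) :
    T.lam x μ i.succ = T.lam (fun j => x j.succ) (min μ (T.ρ (x 0))) i := by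
  refine eq_of_forall_le_iff fun c => ?_
  simp only [le_lam, Fin.forall_fin_succ, le_min_iff, ne_eq, Fin.succ_inj, and_assoc]
  simp only [(Fin.succ_ne_zero i).symm, not_false_eq_true, forall_const]

theorem c_lam {Z : Type} [TopologicalSpace Z] {x : Z → Fin k → X} {μ : Z → ℝ}
    (hx : Continuous x) (hμ : Continuous μ) (i : Fin k) :
    Continuous fun z => T.lam (x z) (μ z) i := by
  unfold lam
  induction Finset.univ.erase i using Finset.induction_on with
  | empty => simpa using hμ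
  | insert a s ha ih =>
    simp only [Finset.fold_insert ha]
    exact (T.cρ.comp ((continuous_apply a).comp hx)).min ih

/-- the moved points -/
noncomputable def mv (t : ℝ) (x : Fin k → X) (μ : ℝ) (i : Fin k) : X :=
  T.P t (x i) (T.lam x μ i / 2)

/-- the new point -/
noncomputable def nw (x : Fin k → X) (μ e : ℝ) : X :=
  T.Bm (∑ i, T.η (x i) (T.lam x μ i / 2) + e)

/-- new point and moved points -/
noncomputable def Sh (x : Fin k → X) (μ e : ℝ) : Fin (k + 1) → X :=
  Fin.cons (T.nw x μ e) (T.mv 0 x μ)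

theorem inactive {x : Fin k → X} {μ : ℝ} {i j : Fin k} (h : T.ρ (x i) < T.lam x μ i / 2)
    (hj : j ≠ i) : T.lam x μ j / 2 ≤ T.ρ (x j) := by
  linarith [T.lam_le_ρ x μ hj, T.lam_le_ρ x μ hj.symm, T.ρ0 (x i), T.ρ0 (x j)]

theorem mv_inj {t : ℝ} (h0 : 0 ≤ t) (h1 : t ≤ 1) {x : Fin k → X} (hx : Injective x) {μ : ℝ}
    (hμ : μ ≤ 1) : Injective (T.mv t x μ) := by
  have key : ∀ i j, j ≠ i → T.ρ (x i) < T.lam x μ i / 2 → T.mv t x μ i ≠ T.mv t x μ j := by
    intro i j hj h e
    have a := T.ρP h0 h1 (by linarith only [T.lam_le x μ i, hμ]) h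
    rw [mv, mv, T.P_of_le t (T.inactive h hj)] at e
    rw [e] at a
    linarith only [T.lam_le_ρ x μ hj, T.ρ0 (x i), h, a]
  intro i j e
  by_contra hne
  rcases lt_or_ge (T.ρ (x i)) (T.lam x μ i / 2) with hi | hi
  · exact key i j (Ne.symm hne) hi e
  rcases lt_or_ge (T.ρ (x j)) (T.lam x μ j / 2) with hj | hj
  · exact key j i hne hj e.symm
  rw [mv, mv, T.P_of_le t hi, T.P_of_le t hj] at e
  exact hne (hx e)

theorem Sh_inj {x : Fin k → X} (hx : Injective x) {μ e : ℝ} (hμ : μ ≤ 1)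
    (h : (e = 0 ∧ (0 < μ ∨ ∀ i, x i ≠ T.v)) ∨
      ((∀ i, T.lam x μ i / 2 ≤ T.ρ (x i)) ∧ |e| ≤ 1 ∧ ∀ i, |e| < T.ρ (x i))) :
    Injective (T.Sh x μ e) := by
  refine Fin.cons_injective_iff.mpr ⟨?_, T.mv_inj le_rfl zero_le_one hx hμ⟩
  rintro ⟨j, hj⟩
  by_cases hact : ∃ i, T.ρ (x i) < T.lam x μ i / 2
  · obtain ⟨i, hi⟩ := hact
    obtain rfl : e = 0 := h.elim (fun h => h.1) fun h => absurd (h.1 i) (not_le.mpr hi)
    have hm : T.lam x μ i / 2 ≤ 1 := by linarith only [T.lam_le x μ i, hμ]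
    rw [nw, add_zero, Finset.sum_eq_single i (fun l _ hl => T.η_zero (T.inactive hi hl))
      (by simp only [Finset.mem_univ, not_true_eq_false, IsEmpty.forall_iff])] at hj
    by_cases hji : j = i
    · subst hji
      exact T.B_ne_P hm hi hj.symm
    · rw [mv, T.P_of_le 0 (T.inactive hi hji)] at hj
      have a := T.ρB ((T.abs_η hi).trans hm)
      rw [← hj] at a
      linarith only [T.abs_η hi, T.lam_le_ρ x μ hji, T.ρ0 (x i), hi, a]
  · have hin : ∀ i, T.lam x μ i / 2 ≤ T.ρ (x i) := fun i => not_lt.mp fun h => hact ⟨i, h⟩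
    rw [nw, Finset.sum_eq_zero fun l _ => T.η_zero (hin l), zero_add, mv,
      T.P_of_le 0 (hin j)] at hj
    rcases h with ⟨rfl, h⟩ | ⟨-, h1, h2⟩
    · rw [Bm, if_pos le_rfl, T.lc0] at hj
      rcases h with h | h
      · have : 0 < T.lam x μ j := T.lt_lam.mpr ⟨h, fun l hl =>
          lt_of_le_of_ne (T.ρ0 _) fun e => hl (hx ((T.ρv _ e.symm).trans hj.symm))⟩
        have a := hin j
        rw [hj, T.ρ_v] at a
        linarith only [this, a]
      · exact h j hj
    · have a := h2 j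
      rw [hj, T.ρB h1] at a
      exact lt_irrefl _ a

theorem mv_perm (t : ℝ) (x : Fin k → X) (μ : ℝ) (g : Equiv.Perm (Fin k)) :
    T.mv t (x ∘ g) μ = T.mv t x μ ∘ g := by
  funext i
  simp [mv, lam_perm]

theorem nw_perm (x : Fin k → X) (μ e : ℝ) (g : Equiv.Perm (Fin k)) :
    T.nw (x ∘ g) μ e = T.nw x μ e := by
  simp only [nw, lam_perm, Function.comp_apply]
  rw [Equiv.sum_comp g fun i => T.η (x i) (T.lam x μ i / 2)]

theorem range_Sh (x : Fin k → X) (μ e : ℝ) :
    range (T.Sh x μ e) = insert (T.nw x μ e) (range (T.mv 0 x μ)) := Fin.range_cons _ _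

theorem range_Sh_perm (x : Fin k → X) (μ e : ℝ) (g : Equiv.Perm (Fin k)) :
    range (T.Sh (x ∘ g) μ e) = range (T.Sh x μ e) := by
  rw [range_Sh, range_Sh, nw_perm, mv_perm, g.surjective.range_comp]

section cont

variable [T2Space X] {Z : Type} [TopologicalSpace Z] {x : Z → Fin k → X} {t μ e : Z → ℝ}

theorem c_mv (ht : Continuous t) (hx : Continuous x) (hμ : Continuous μ) (h1 : ∀ z, μ z ≤ 1) :
    Continuous fun z => T.mv (t z) (x z) (μ z) :=
  continuous_pi fun i => T.cP ht ((continuous_apply i).comp hx) ((T.c_lam hx hμ i).div_const 2)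
    fun z => by linarith [T.lam_le (x z) (μ z) i, h1 z]

omit [T2Space X] in
theorem c_η {q : Z → X} (hq : Continuous q) (hμ : Continuous μ) :
    Continuous fun z => T.η (q z) (μ z) := by
  have hρ : Continuous fun z => T.ρ (q z) := T.cρ.comp hq
  have hγ : Continuous fun z => T.γ (q z) := T.cγ.comp hq
  unfold η
  fun_prop

theorem c_Sh (hx : Continuous x) (hμ : Continuous μ) (he : Continuous e) (h1 : ∀ z, μ z ≤ 1) :
    Continuous fun z => T.Sh (x z) (μ z) (e z) := by
  refine continuous_pi fun i => ?_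
  refine Fin.cases ?_ (fun j => ?_) i
  · exact T.cB.comp ((continuous_finsetSum _ fun i _ => T.c_η ((continuous_apply i).comp hx)
      ((T.c_lam hx hμ i).div_const 2)).add he)
  · exact (continuous_apply j).comp (T.c_mv continuous_const hx hμ h1)

end cont

/-- the stabilisation on ordered configurations -/
noncomputable def S0 (x : OC k X) : OC (k + 1) X :=
  ⟨T.Sh x.1 1 0, T.Sh_inj x.2 le_rfl (Or.inl ⟨rfl, Or.inl one_pos⟩)⟩

theorem mkU_S0 (g : Equiv.Perm (Fin k)) (x : OC k X) : mkU (T.S0 (act g x)) = mkU (T.S0 x) :=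
  mkU_eq.mpr (T.range_Sh_perm x.1 1 0 g)

/-- the cap in the second homotopy -/
noncomputable def hμ (t : ℝ) (x : Fin (k + 1) → X) : ℝ :=
  min 1 (T.ρ (x 0)) + max 0 (2 * t - 1) * (1 - min 1 (T.ρ (x 0)))

/-- the offset in the second homotopy -/
noncomputable def he (t : ℝ) (x : Fin (k + 1) → X) : ℝ :=
  max 0 (1 - 2 * t) * T.η (x 0) (T.lam x 1 0 / 2)

theorem hμ_le {t : ℝ} (h1 : t ≤ 1) (x : Fin (k + 1) → X) : T.hμ t x ≤ 1 := by
  have a : min 1 (T.ρ (x 0)) ≤ 1 := min_le_left _ _
  have b : max 0 (2 * t - 1) ≤ 1 := max_le zero_le_one (by linarith)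
  unfold hμ
  nlinarith only [a, b]

theorem H_inj {t : ℝ} (h0 : 0 ≤ t) (h1 : t ≤ 1) (x : OC (k + 1) X) :
    Injective (T.Sh (tl x).1 (T.hμ t x.1) (T.he t x.1)) := by
  refine T.Sh_inj (tl x).2 (T.hμ_le h1 _) ?_
  have a : min 1 (T.ρ (x.1 0)) ≤ 1 := min_le_left _ _
  have b : 0 ≤ min 1 (T.ρ (x.1 0)) := le_min zero_le_one (T.ρ0 _)
  rcases lt_or_ge (1 / 2) t with ht | ht
  · refine Or.inl ⟨by rw [he, max_eq_left (by linarith), zero_mul], Or.inl ?_⟩
    rw [hμ, max_eq_right (by linarith only [ht])]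
    nlinarith only [h1, b, ht]
  have e : T.hμ t x.1 = min 1 (T.ρ (x.1 0)) := by
    rw [hμ, max_eq_left (by linarith), zero_mul, add_zero]
  rw [e]
  rcases lt_or_ge (T.ρ (x.1 0)) (T.lam x.1 1 0 / 2) with h | h
  · have c : |T.he t x.1| ≤ T.lam x.1 1 0 / 2 := by
      rw [he, max_eq_right (by linarith), abs_mul, abs_of_nonneg (by linarith)]
      nlinarith only [T.abs_η h, abs_nonneg (T.η (x.1 0) (T.lam x.1 1 0 / 2)), h0]
    refine Or.inr ⟨fun i => ?_, by linarith only [T.lam_le x.1 1 0, c], fun i => ?_⟩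
    · have := T.inactive h (Fin.succ_ne_zero i)
      rwa [lam_succ] at this
    · have : T.lam x.1 1 0 ≤ T.ρ ((tl x).1 i) := T.lam_le_ρ x.1 1 (Fin.succ_ne_zero i)
      linarith [T.ρ0 (x.1 0)]
  · refine Or.inl ⟨by rw [he, T.η_zero h, mul_zero], ?_⟩
    rcases (T.ρ0 (x.1 0)).lt_or_eq with c | c
    · exact Or.inl (lt_min one_pos c)
    · exact Or.inr fun i hi => Fin.succ_ne_zero i (x.2 (hi.trans (T.ρv _ c.symm).symm))

variable [T2Space X]

theorem c_S0 : Continuous (T.S0 : OC k X → OC (k + 1) X) :=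
  (T.c_Sh continuous_subtype_val continuous_const continuous_const fun _ => le_rfl).subtype_mk _

theorem exists_sh (k : ℕ) : ∃ sh : C(UConf k X, MC k X), ∀ x, sh (mkU x) = mkM (T.S0 x) := by
  refine desc_map quot_mkU _ (continuous_mkM.comp T.c_S0) fun x y h => ?_
  obtain ⟨g, rfl⟩ := mkU_eq'.mp h
  exact Subtype.ext (Prod.ext (T.mkU_S0 g x).symm (T.nw_perm x.1 1 0 g).symm)

theorem exists_tau (k : ℕ) : ∃ τ : C(MC k X, MC (k + 1) X),
    ∀ x, (τ (mkM x)).1 = (mkU (T.S0 x), T.mv 0 x.1 1 0) := by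
  obtain ⟨τ, h⟩ := desc_map (Y := MC (k + 1) X) quot_mkM
    (fun x : OC (k + 1) X => ⟨(mkU (T.S0 x), T.mv 0 x.1 1 0), ⟨Fin.succ 0, rfl⟩⟩)
    (((continuous_mkU.comp T.c_S0).prodMk ((continuous_apply 0).comp
      (T.c_mv continuous_const continuous_subtype_val continuous_const
        fun _ => le_rfl))).subtype_mk _) (fun x y h => by
      obtain ⟨g, rfl, hg⟩ := mkM_eq.mp h
      refine Subtype.ext (Prod.ext (T.mkU_S0 g x).symm ?_)
      show T.mv 0 x.1 1 0 = T.mv 0 (x.1 ∘ g) 1 0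
      rw [mv_perm, comp_apply, hg])
  exact ⟨τ, fun x => congrArg Subtype.val (h x)⟩

/-- the system of configuration spaces with the stabilisation at the star -/
noncomputable def sys : Sys where
  B k := UConf k X
  M k := MC k X
  π k := piM k X
  φ k := (exists_phi k).choose
  sh k := (T.exists_sh k).choose
  τ k := (T.exists_tau k).choose
  cov _ := cov_piM
  one S q h := by
    obtain ⟨x, rfl⟩ := mkM_surj q
    obtain ⟨y, hy⟩ := mkM_surj ((T.exists_sh 0).choose S)
    rw [← hy] at h ⊢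
    obtain ⟨g, rfl⟩ := mkU_eq'.mp (show mkU x = mkU y from h)
    exact mkM_eq.mpr ⟨g, rfl, Subsingleton.elim (α := Fin 1) _ _⟩
  πτ k p := by
    obtain ⟨x, rfl⟩ := mkM_surj p
    exact (congrArg Prod.fst ((T.exists_tau k).choose_spec x)).trans
      (congrArg (piM _ X) ((T.exists_sh (k + 1)).choose_spec x)).symm
  inj k p p' h h' := by
    obtain ⟨x, rfl⟩ := mkM_surj p
    obtain ⟨y, rfl⟩ := mkM_surj p'
    obtain ⟨g, rfl⟩ := mkU_eq'.mp (show mkU x = mkU y from h)
    have e := congrArg (fun p => p.1.2) h'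
    simp only [(T.exists_tau k).choose_spec] at e
    have e' : T.mv 0 x.1 1 0 = T.mv 0 x.1 1 (g 0) := e.trans (congrFun (T.mv_perm 0 x.1 1 g) 0)
    exact mkM_eq.mpr ⟨g, rfl, (T.mv_inj le_rfl zero_le_one x.2 le_rfl e').symm⟩
  surj k S q h := by
    obtain ⟨x, rfl⟩ := mkU_surj S
    rw [(T.exists_sh (k + 1)).choose_spec] at h ⊢
    have h1 : q.1.1 = mkU (T.S0 x) := h
    have h2 := q.2
    rw [h1] at h2
    obtain ⟨i, hi⟩ := h2
    rcases Fin.eq_zero_or_eq_succ i with rfl | ⟨j, rfl⟩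
    · exact Or.inl (Subtype.ext (Prod.ext h1 hi.symm))
    · refine Or.inr ⟨mkM (act (Equiv.swap 0 j) x), mkU_act _ x, Subtype.ext ?_⟩
      rw [(T.exists_tau k).choose_spec]
      refine Prod.ext ((T.mkU_S0 _ x).trans h1.symm) ?_
      refine (congrFun (T.mv_perm 0 x.1 1 _) 0).trans ?_
      rw [comp_apply, Equiv.swap_apply_left]
      exact hi
  h1 k := by
    refine desc_homotopic quot_mkU
      (fun p => mkU ⟨T.mv p.1 p.2.1 1, T.mv_inj p.1.2.1 p.1.2.2 p.2.2 le_rfl⟩)
      (continuous_mkU.comp ((T.c_mv (by fun_prop) (by fun_prop) continuous_const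
        fun _ => le_rfl).subtype_mk _)) (fun t x y h => ?_) (fun x => ?_) fun x => ?_
    · obtain ⟨g, rfl⟩ := mkU_eq'.mp h
      exact mkU_eq'.mpr ⟨g, Subtype.ext (T.mv_perm _ x.1 1 g)⟩
    · rw [ContinuousMap.comp_apply, (T.exists_sh k).choose_spec, (exists_phi k).choose_spec]
      rfl
    · refine congrArg mkU (Subtype.ext (funext fun i => ?_))
      exact T.P_one _ (by linarith [T.lam_le x.1 1 i])
  h2 k := by
    refine desc_homotopic quot_mkM
      (fun p => mkU ⟨T.Sh (tl p.2).1 (T.hμ p.1 p.2.1) (T.he p.1 p.2.1),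
        T.H_inj p.1.2.1 p.1.2.2 p.2⟩)
      (continuous_mkU.comp ((T.c_Sh
        (continuous_subtype_val.comp (continuous_tl.comp continuous_snd)) ?_ ?_
        fun p => T.hμ_le p.1.2.2 _).subtype_mk _)) (fun t x y h => ?_) (fun x => ?_) fun x => ?_
    · have : Continuous fun p : I × OC (k + 1) X => T.ρ (p.2.1 0) :=
        T.cρ.comp ((continuous_ev 0).comp continuous_snd)
      unfold hμ
      fun_prop
    · have := T.c_η (Z := I × OC (k + 1) X) ((continuous_ev 0).comp continuous_snd)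
        ((T.c_lam (continuous_subtype_val.comp continuous_snd) (continuous_const (y := 1))
          0).div_const 2)
      exact Continuous.mul (by fun_prop) this
    · obtain ⟨g', hg'⟩ := mkU_eq'.mp (mkU_tl h)
      obtain ⟨g, rfl, hg⟩ := mkM_eq.mp h
      have e1 : T.hμ t (act g x).1 = T.hμ t x.1 := by simp only [hμ, act, Function.comp_apply, hg]
      have e2 : T.he t (act g x).1 = T.he t x.1 := by simp only [he, act, Function.comp_apply, hg, lam_perm]
      refine mkU_eq.mpr ?_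
      simp only [e1, e2, hg']
      exact (T.range_Sh_perm _ _ _ g').symm
    · have e : (T.exists_tau k).choose (mkM x) = mkM (act (Equiv.swap 0 1) (T.S0 x)) :=
        Subtype.ext (((T.exists_tau k).choose_spec x).trans (mkM_swap (T.S0 x) 1).symm)
      rw [ContinuousMap.comp_apply, e, (exists_phi (k + 1)).choose_spec]
      refine congrArg mkU (Subtype.ext (funext fun i => ?_))
      refine Fin.cases ?_ (fun j => ?_) i
      · have : (tl (act (Equiv.swap 0 1) (T.S0 x))).1 0 = T.nw x.1 1 0 := by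
          simp [tl, act, S0, Sh]
        rw [this]
        simp only [Sh, nw, tl, hμ, Icc.coe_zero, mul_zero, zero_sub, Left.neg_nonpos_iff, zero_le_one, sup_of_le_left, zero_mul, add_comm, zero_add, he, sub_zero, sup_of_le_right, one_mul, Fin.cons_zero, Fin.sum_univ_succ, lam_succ]
      · have : (tl (act (Equiv.swap 0 1) (T.S0 x))).1 j.succ = T.mv 0 x.1 1 j.succ := by
          have h1 : Equiv.swap (0 : Fin (k + 2)) 1 j.succ.succ = j.succ.succ :=
            Equiv.swap_apply_of_ne_of_ne (Fin.succ_ne_zero _)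
              fun h => Fin.succ_ne_zero j (Fin.succ_injective _ h)
          simp [tl, act, S0, Sh, h1]
        rw [this]
        simp only [Sh, tl, hμ, Icc.coe_zero, mul_zero, zero_sub, Left.neg_nonpos_iff, zero_le_one, sup_of_le_left, zero_mul, add_zero, Fin.cons_succ, mv, lam_succ]
    · simp only [ContinuousMap.comp_apply]
      rw [(exists_phi k).choose_spec, (T.exists_sh k).choose_spec]
      refine congrArg mkU (Subtype.ext ?_)
      have e1 : T.hμ 1 x.1 = 1 := by norm_num only [hμ, sup_of_le_right, one_mul, add_sub_cancel]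
      have e2 : T.he 1 x.1 = 0 := by norm_num [he]
      show T.Sh (tl x).1 (T.hμ 1 x.1) (T.he 1 x.1) = T.Sh (tl x).1 1 0
      rw [e1, e2]

include T in
theorem TC_mono [LocallyPathConnectedSpace X] [Nonempty (UConf k X)]
    [PathConnectedSpace (UConf (k + 1) X)] {r : ℕ} (hr : 1 ≤ r) :
    TC r (UConf k X) ≤ TC r (UConf (k + 1) X) := by
  have := lpc_UConf (k := k) (X := X)
  let F : C(UConf k X, UConf (k + 1) X) := T.sys.s k
  exact TC_le_TC F (fun Z _ _ α β h => T.sys.cancel (k := k) h) hr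

end Star

end Pool.Agent.MP_10b04c_gt

end

-- part MP_10b04c_gt.Bound
section

/-! A cover of the unordered configuration space of a graph by `2^|V|` contractible open sets. -/

set_option autoImplicit false

namespace Pool.Agent.MP_10b04c_gt
open Set Topology unitInterval Function Filter

section graph
variable {n m : ℕ} {src tgt : Fin m → Fin n}

def bdV (src tgt : Fin m → Fin n) (v : Fin n) : GraphSpace src tgt := Quot.mk _ (.inl v)
def bdE (src tgt : Fin m → Fin n) (e : Fin m) (t : I) : GraphSpace src tgt :=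
  Quot.mk _ (.inr (e, t))

lemma bdE_zero (e : Fin m) : bdE src tgt e 0 = bdV src tgt (src e) :=
  Quot.sound ⟨e, .inl ⟨rfl, rfl⟩⟩
lemma bdE_one (e : Fin m) : bdE src tgt e 1 = bdV src tgt (tgt e) :=
  Quot.sound ⟨e, .inr ⟨rfl, rfl⟩⟩

lemma bd_nf (p : GraphSpace src tgt) :
    (∃ v, p = bdV src tgt v) ∨ ∃ e, ∃ t : I, 0 < (t : ℝ) ∧ (t : ℝ) < 1 ∧ p = bdE src tgt e t := by
  obtain ⟨v | ⟨e, t⟩, rfl⟩ := Quot.exists_rep p
  · exact .inl ⟨v, rfl⟩
  · rcases t.2.1.eq_or_lt with h | h
    · obtain rfl : t = 0 := Subtype.ext h.symm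
      exact .inl ⟨_, bdE_zero e⟩
    · rcases t.2.2.eq_or_lt with h' | h'
      · obtain rfl : t = 1 := Subtype.ext h'
        exact .inl ⟨_, bdE_one e⟩
      · exact .inr ⟨e, t, h, h', rfl⟩

def bdLift {Y : Type} (f : Fin n → Y) (g : Fin m → I → Y) (h0 : ∀ e, g e 0 = f (src e))
    (h1 : ∀ e, g e 1 = f (tgt e)) : GraphSpace src tgt → Y :=
  Quot.lift (Sum.elim f fun a => g a.1 a.2) (by
    rintro _ _ ⟨e, ⟨rfl, rfl⟩ | ⟨rfl, rfl⟩⟩
    exacts [h0 e, h1 e])

lemma bdLift_cont {Y : Type} [TopologicalSpace Y] {f : Fin n → Y} {g : Fin m → I → Y} {h0 h1}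
    (h : ∀ e, Continuous (g e)) : Continuous (bdLift (src := src) (tgt := tgt) f g h0 h1) :=
  continuous_quot_lift _ (continuous_of_discreteTopology.sumElim
    (continuous_prod_of_discrete_left.2 h))

lemma bdE_cont (e : Fin m) : Continuous (bdE src tgt e) :=
  continuous_quot_mk.comp (continuous_inr.comp (by fun_prop))

/-- distance to the vertex `w` -/
noncomputable def bdR (w : Fin n) : GraphSpace src tgt → ℝ :=
  bdLift (fun v => if v = w then 0 else 1)
    (fun e t => min (if src e = w then t else 1) (if tgt e = w then 1 - t else 1))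
    (fun e => by split_ifs <;> simp only [Icc.coe_zero, sub_zero, zero_le_one, inf_of_le_left, min_self]) fun e => by split_ifs <;> simp only [Icc.coe_one, sub_self, zero_le_one, inf_of_le_right, min_self]

lemma bdR_V (w v : Fin n) : bdR w (bdV src tgt v) = if v = w then 0 else 1 := rfl
lemma bdR_E (w : Fin n) (e : Fin m) (t : I) : bdR w (bdE src tgt e t) =
    min (if src e = w then (t : ℝ) else 1) (if tgt e = w then 1 - t else 1) := rfl

lemma bdR_cont (w : Fin n) : Continuous (bdR (src := src) (tgt := tgt) w) :=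
  bdLift_cont fun e => by split_ifs <;> fun_prop

lemma bdR_pos {w : Fin n} {p : GraphSpace src tgt} (h : p ≠ bdV src tgt w) : 0 < bdR w p := by
  rcases bd_nf p with ⟨v, rfl⟩ | ⟨e, t, h0, h1, rfl⟩
  · rw [bdR_V, if_neg fun e => h (by rw [e])]
    exact one_pos
  · rw [bdR_E]
    split_ifs <;> simp only [lt_inf_iff, h0, sub_pos, h1, and_self, zero_lt_one, min_self]

lemma bdR_uq {w w' : Fin n} {p : GraphSpace src tgt} (h : bdR w p < 1 / 3)
    (h' : bdR w' p < 1 / 3) : w = w' := by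
  by_contra hne
  rcases bd_nf p with ⟨v, rfl⟩ | ⟨e, t, h0, h1, rfl⟩
  · rw [bdR_V] at h h'
    split_ifs at h h' with a b <;> first | linarith only [h', h] | exact hne (a.symm.trans b)
  · rw [bdR_E, min_lt_iff] at h h'
    rcases h with h | h <;> rcases h' with h' | h' <;> split_ifs at h h' with a b <;>
      first | linarith | exact hne (a.symm.trans b)

noncomputable def bdC : GraphSpace src tgt → ℝ :=
  bdLift (fun _ => 0) (fun _ t => t * (1 - t)) (fun e => by simp only [Icc.coe_zero, sub_zero, mul_one]) fun e => by simp only [Icc.coe_one, sub_self, mul_zero]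
noncomputable def bdU : GraphSpace src tgt → ℝ :=
  bdLift (fun _ => 0) (fun e t => (e + t) * (t * (1 - t))) (fun e => by simp only [Icc.coe_zero, add_zero, sub_zero, mul_one, mul_zero]) fun e => by simp only [Icc.coe_one, sub_self, mul_zero]
noncomputable def bdVal (p : GraphSpace src tgt) : ℝ := bdU p / bdC p

lemma bdC_cont : Continuous (bdC (src := src) (tgt := tgt)) := bdLift_cont fun e => by fun_prop
lemma bdU_cont : Continuous (bdU (src := src) (tgt := tgt)) := bdLift_cont fun e => by fun_prop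

lemma bdC_E (e : Fin m) (t : I) : bdC (bdE src tgt e t) = t * (1 - t) := rfl

lemma bdVal_E (e : Fin m) {t : I} (h0 : 0 < (t : ℝ)) (h1 : (t : ℝ) < 1) :
    bdVal (bdE src tgt e t) = e + t :=
  mul_div_cancel_right₀ _ (mul_pos h0 (sub_pos.2 h1)).ne'

lemma bd_et {e e' : Fin m} {t t' : ℝ} (h0 : 0 < t) (h1 : t < 1) (h0' : 0 < t') (h1' : t' < 1)
    (h : (e : ℝ) + t = e' + t') : e = e' ∧ t = t' := by
  have a : ((e : ℕ) : ℝ) < (e' : ℕ) + 1 := by linarith
  have b : ((e' : ℕ) : ℝ) < (e : ℕ) + 1 := by linarith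
  have : e = e' := Fin.ext (by
    have a' : (e : ℕ) < e' + 1 := by exact_mod_cast a
    have b' : (e' : ℕ) < e + 1 := by exact_mod_cast b
    omega)
  subst this
  exact ⟨rfl, by linarith only [h]⟩

lemma bdc_t2 : T2Space (GraphSpace src tgt) := by
  refine T2Space.of_injective_continuous
    (f := fun p : GraphSpace src tgt => ((fun w => bdR w p), bdC p, bdU p)) (fun p q h => ?_)
    ((continuous_pi bdR_cont).prodMk (bdC_cont.prodMk bdU_cont))
  simp only [Prod.mk.injEq] at h
  obtain ⟨hr, hc, hu⟩ := h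
  have hv : ∀ {p q : GraphSpace src tgt} v, p = bdV src tgt v → bdR v p = bdR v q → p = q := by
    rintro _ q v rfl h
    by_contra hne
    have := bdR_pos (Ne.symm hne)
    rw [← h, bdR_V, if_pos rfl] at this
    exact lt_irrefl _ this
  rcases bd_nf p with ⟨v, hp⟩ | ⟨e, t, h0, h1, rfl⟩
  · exact hv v hp (congr_fun hr v)
  rcases bd_nf q with ⟨v, hq⟩ | ⟨e', t', h0', h1', rfl⟩
  · exact (hv v hq (congr_fun hr v).symm).symm
  have : bdVal (bdE src tgt e t) = bdVal (bdE src tgt e' t') := by rw [bdVal, bdVal, hc, hu]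
  rw [bdVal_E e h0 h1, bdVal_E e' h0' h1'] at this
  obtain ⟨rfl, h⟩ := bd_et h0 h1 h0' h1' this
  rw [Subtype.ext h]

/-- move every point along its edge -/
noncomputable def bdMv (φ : ℝ → ℝ) (h0 : φ 0 ≤ 0) (h1 : 1 ≤ φ 1) :
    GraphSpace src tgt → GraphSpace src tgt :=
  bdLift (bdV src tgt) (fun e t => bdE src tgt e (projIcc 0 1 zero_le_one (φ t)))
    (fun e => by
      rw [← bdE_zero]
      exact congrArg _ (projIcc_of_le_left _ h0)) fun e => by
      rw [← bdE_one]
      exact congrArg _ (projIcc_of_right_le _ h1)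

lemma bdMv_cont {P : Type} [TopologicalSpace P] [LocallyCompactSpace P] (φ : P → ℝ → ℝ)
    (h0 : ∀ p, φ p 0 ≤ 0) (h1 : ∀ p, 1 ≤ φ p 1) (hc : Continuous fun z : P × ℝ => φ z.1 z.2) :
    Continuous fun z : GraphSpace src tgt × P => bdMv (φ z.2) (h0 _) (h1 _) z.1 := by
  refine isQuotientMap_quot_mk.continuous_lift_prod_left ?_
  rw [← (Homeomorph.sumProdDistrib (X := Fin n) (Y := Fin m × I) (Z := P)).symm.comp_continuous_iff',
    continuous_sum_dom]
  constructor
  · exact continuous_prod_of_discrete_left.2 fun v => continuous_const (y := bdV src tgt v)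
  · rw [← (Homeomorph.prodAssoc (Fin m) I P).symm.comp_continuous_iff']
    refine continuous_prod_of_discrete_left.2 fun e => ?_
    exact (bdE_cont e).comp (continuous_projIcc.comp
      (hc.comp (f := fun z : I × P => (z.2, (z.1 : ℝ))) (by fun_prop)))

noncomputable def bdS (τ : I) : GraphSpace src tgt → GraphSpace src tgt :=
  bdMv (fun t => (1 - τ) * t + τ * (3 * t - 1)) (by have := τ.2.1; linarith)
    (by have := τ.2.1; linarith)

noncomputable def bdN (z : I × ℝ × ℝ) : GraphSpace src tgt → GraphSpace src tgt :=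
  bdMv (fun t => (1 - z.1) * t +
      z.1 * max (min z.2.1 (max z.2.2 1 * t)) (1 - max z.2.2 1 * (1 - t)))
    (by
      have := mul_nonpos_of_nonneg_of_nonpos z.1.2.1 (max_le (min_le_right z.2.1 0)
        (sub_nonpos.2 (le_max_right z.2.2 1)))
      simpa only [mul_zero, sub_zero, mul_one, zero_add, ge_iff_le] using this)
    (by
      have := mul_le_mul_of_nonneg_left (le_max_right (min z.2.1 (max z.2.2 1)) 1) z.1.2.1
      simp only [mul_one, sub_self, mul_zero, sub_zero] at this ⊢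
      linarith)

lemma bdS_cont : Continuous fun z : GraphSpace src tgt × I => bdS z.2 z.1 :=
  bdMv_cont (fun (τ : I) t => (1 - τ) * t + τ * (3 * t - 1)) _ _ (by fun_prop)
lemma bdN_cont : Continuous fun z : GraphSpace src tgt × I × ℝ × ℝ => bdN z.2 z.1 :=
  bdMv_cont (fun (z : I × ℝ × ℝ) t => (1 - z.1) * t +
    z.1 * max (min z.2.1 (max z.2.2 1 * t)) (1 - max z.2.2 1 * (1 - t))) _ _ (by fun_prop)

lemma bdS_zero (p : GraphSpace src tgt) : bdS 0 p = p := by
  rcases bd_nf p with ⟨v, rfl⟩ | ⟨e, t, h0, h1, rfl⟩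
  · rfl
  · exact congrArg (bdE src tgt e) (by simp only [Icc.coe_zero, sub_zero, one_mul, zero_mul, add_zero, projIcc_val])

lemma bdS_le {w : Fin n} {p : GraphSpace src tgt} (τ : I) (h : bdR w p < 1 / 3) :
    bdR w (bdS τ p) ≤ (1 - τ) * bdR w p := by
  have a := τ.2.1
  have b := sub_nonneg.2 τ.2.2
  rcases bd_nf p with ⟨v, rfl⟩ | ⟨e, t, h0, h1, rfl⟩
  · show bdR w (bdV src tgt v) ≤ _
    rw [bdR_V] at h ⊢
    split_ifs at h ⊢ <;> linarith only [h]
  · show bdR w (bdE src tgt e _) ≤ _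
    rw [bdR_E] at h
    rw [bdR_E, bdR_E, coe_projIcc]
    rcases min_choice (if src e = w then (t : ℝ) else 1) (if tgt e = w then 1 - t else 1) with
      k | k <;> rw [k] at h ⊢
    · refine (min_le_left _ _).trans ?_
      split_ifs at h ⊢
      · exact max_le (by positivity) ((min_le_right _ _).trans (by nlinarith only [a, h]))
      · linarith
    · refine (min_le_right _ _).trans ?_
      split_ifs at h ⊢
      · have : 1 - (1 - τ) * (1 - t) ≤ min 1 ((1 - τ : ℝ) * t + τ * (3 * t - 1)) :=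
          le_min (by nlinarith only [b, h1]) (by nlinarith only [a, h])
        linarith only [le_max_right 0 (min 1 ((1 - τ : ℝ) * t + τ * (3 * t - 1))), this]
      · linarith

lemma bdN_E (τ : I) {g : ℝ} (g0 : 0 < g) (g1 : g < 1) (e : Fin m) {t : I} (h0 : 0 < (t : ℝ))
    (h1 : (t : ℝ) < 1) : ∃ s : I, (s : ℝ) = (1 - τ) * t + τ * g ∧ 0 < (s : ℝ) ∧ (s : ℝ) < 1 ∧
      bdN (τ, g, (bdC (bdE src tgt e t))⁻¹) (bdE src tgt e t) = bdE src tgt e s := by
  have a := τ.2.1
  have b := sub_nonneg.2 τ.2.2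
  have h1' := sub_pos.2 h1
  have c0 : 0 < (1 - τ) * t + τ * g := by
    rcases a.eq_or_lt with a | a
    · rw [← a]; linarith
    · positivity
  have c1 : (1 - τ) * t + τ * g < 1 := by
    rcases a.eq_or_lt with a | a
    · rw [← a]; linarith
    · nlinarith only [g1, h1, b, a]
  refine ⟨⟨_, c0.le, c1.le⟩, rfl, c0, c1, congrArg (bdE src tgt e) ?_⟩
  rw [← projIcc_of_mem zero_le_one ⟨c0.le, c1.le⟩]
  congr 3
  rw [bdC_E]
  have k : 1 ≤ ((t : ℝ) * (1 - t))⁻¹ * t := by
    rw [← div_eq_inv_mul, one_le_div (by positivity)]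
    nlinarith only [h0]
  have k' : 1 ≤ ((t : ℝ) * (1 - t))⁻¹ * (1 - t) := by
    rw [← div_eq_inv_mul, one_le_div (by positivity)]
    nlinarith only [h1]
  have l := le_max_left ((t : ℝ) * (1 - t))⁻¹ 1
  dsimp only
  rw [min_eq_left (by nlinarith only [g1, h0, k, l]), max_eq_left (by nlinarith only [g0, h1, k', l])]

end graph

section conf
variable {X : Type} {k : ℕ}

abbrev bdF (k : ℕ) (X : Type) : Type := {x : Fin k → X // Injective x}

def bdMk (x : bdF k X) : UConf k X := Quot.mk _ x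

def bdAct (g : Equiv.Perm (Fin k)) (x : bdF k X) : bdF k X := ⟨x.1 ∘ g, x.2.comp g.injective⟩

lemma bdMk_eq {x y : bdF k X} : bdMk x = bdMk y ↔ ∃ g, y = bdAct g x := by
  have : Equivalence fun x y : bdF k X => ∃ g : Equiv.Perm (Fin k), y.1 = x.1 ∘ g :=
    ⟨fun _ => ⟨1, rfl⟩, fun ⟨π, h⟩ => ⟨π⁻¹, by rw [h]; funext i; simp⟩,
      fun ⟨π, h⟩ ⟨ρ, h'⟩ => ⟨π * ρ, by rw [h', h]; rfl⟩⟩
  exact (Quot.eq.trans this.eqvGen_iff).trans
    ⟨fun ⟨π, h⟩ => ⟨π, Subtype.ext h⟩, fun ⟨π, h⟩ => ⟨π, by rw [h]; rfl⟩⟩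

variable [TopologicalSpace X]

lemma bd_ev (i : Fin k) : Continuous fun x : bdF k X => x.1 i :=
  (continuous_apply i).comp continuous_subtype_val

lemma bdMk_oq : IsOpenQuotientMap (bdMk : bdF k X → UConf k X) := by
  refine ⟨Quot.mk_surjective, continuous_quot_mk, fun U hU => ?_⟩
  have hq : IsQuotientMap (bdMk : bdF k X → UConf k X) := isQuotientMap_quot_mk
  rw [← hq.isOpen_preimage]
  have : bdMk ⁻¹' (bdMk '' U) = ⋃ π, bdAct π ⁻¹' U := by
    ext x
    simp only [mem_preimage, mem_image, mem_iUnion]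
    constructor
    · rintro ⟨y, hy, e⟩
      obtain ⟨π, rfl⟩ := bdMk_eq.1 e.symm
      exact ⟨π, hy⟩
    · rintro ⟨π, h⟩
      exact ⟨_, h, (bdMk_eq.2 ⟨π, rfl⟩).symm⟩
  rw [this]
  exact isOpen_iUnion fun π => hU.preimage
    (Continuous.subtype_mk (continuous_pi fun i => bd_ev (π i)) _)

lemma bd_desc {A C Y : Type} [TopologicalSpace A] [TopologicalSpace C] [TopologicalSpace Y]
    {q : A → C} (hq : IsOpenQuotientMap q) {g : A → Y} (hg : Continuous g)
    (h : ∀ a a', q a = q a' → g a = g a') : ∃ G : C(C, Y), ∀ a, G (q a) = g a := by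
  have e : ∀ a, g (surjInv hq.surjective (q a)) = g a := fun a => h _ _ (surjInv_eq _ _)
  refine ⟨⟨fun c => g (surjInv hq.surjective c), hq.continuous_comp_iff.1 ?_⟩, e⟩
  exact hg.congr fun a => (e a).symm

/-- an invariant open set with an equivariant deformation to a locally constant map -/
lemma bd_null [PathConnectedSpace (UConf k X)] {O : Set (bdF k X)} (hO : IsOpen O)
    (H : I × O → bdF k X) (cH : Continuous H) (H0 : ∀ x, H (0, x) = x)
    (H1 : ∀ x : O, ∀ᶠ y in 𝓝 x, H (1, y) = H (1, x))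
    (hact : ∀ τ g (x y : O), y.1 = bdAct g x.1 → H (τ, y) = bdAct g (H (τ, x))) :
    ((ContinuousMap.id _).restrict (bdMk '' O)).Nullhomotopic := by
  let q : O → bdMk '' O := fun x => ⟨bdMk x.1, x.1, x.2, rfl⟩
  have hq : IsOpenQuotientMap q := by
    refine ⟨fun ⟨_, x, hx, rfl⟩ => ⟨⟨x, hx⟩, rfl⟩,
      (bdMk_oq.continuous.comp continuous_subtype_val).subtype_mk _, ?_⟩
    exact (bdMk_oq.isOpenMap.comp hO.isOpenMap_subtype_val).subtype_mk _
  have inv : ∀ τ x y, q x = q y → bdMk (H (τ, x)) = bdMk (H (τ, y)) := fun τ x y h => by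
    obtain ⟨g, hg⟩ := bdMk_eq.1 (congrArg Subtype.val h)
    exact bdMk_eq.2 ⟨g, hact τ g x y hg⟩
  obtain ⟨G, hG⟩ := bd_desc ((IsOpenQuotientMap.id (X := I)).prodMap hq)
    (bdMk_oq.continuous.comp cH) (by
      rintro ⟨τ, x⟩ ⟨τ', y⟩ h
      obtain ⟨rfl, h'⟩ : τ = τ' ∧ q x = q y := Prod.ext_iff.1 h
      exact inv _ _ _ h')
  obtain ⟨b⟩ : Nonempty (UConf k X) := inferInstance
  let γ : ∀ c : UConf k X, Path c b := fun c => PathConnectedSpace.somePath c b
  obtain ⟨G', hG'⟩ := bd_desc ((IsOpenQuotientMap.id (X := I)).prodMap hq)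
    (g := fun z => γ (bdMk (H (1, z.2))) z.1) (continuous_iff_continuousAt.2 fun z =>
      (((γ (bdMk (H (1, z.2)))).continuous.comp continuous_fst).continuousAt).congr (by
        filter_upwards [continuous_snd.continuousAt.eventually (H1 z.2)] with y hy
        rw [hy]
        rfl)) (by
      rintro ⟨τ, x⟩ ⟨τ', y⟩ h
      obtain ⟨rfl, h'⟩ : τ = τ' ∧ q x = q y := Prod.ext_iff.1 h
      dsimp only
      rw [inv 1 _ _ h'])
  refine ⟨b, ContinuousMap.Homotopic.trans (g := G.comp ⟨fun u => (1, u), by fun_prop⟩)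
    ⟨⟨G, fun u => ?_, fun _ => rfl⟩⟩ ⟨⟨G', fun u => ?_, fun u => ?_⟩⟩⟩ <;>
    obtain ⟨x, rfl⟩ := hq.surjective u
  · exact (hG (0, x)).trans (congrArg bdMk (H0 x))
  · exact (hG' (0, x)).trans (((γ _).source).trans (hG (1, x)).symm)
  · exact (hG' (1, x)).trans (γ _).target

end conf

section cover
open Classical
variable {n m k : ℕ} {src tgt : Fin m → Fin n}

def bdSp1 (w : Fin n) (x : bdF k (GraphSpace src tgt)) (i : Fin k) : Prop :=
  bdR w (x.1 i) < 1 / 3 ∧ ∀ j, j ≠ i → bdR w (x.1 i) < bdR w (x.1 j)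

def bdSp (W : Finset (Fin n)) (x : bdF k (GraphSpace src tgt)) (i : Fin k) : Prop :=
  ∃ w ∈ W, bdSp1 w x i

def bdO (W : Finset (Fin n)) : Set (bdF k (GraphSpace src tgt)) :=
  {x | (∀ w ∉ W, ∀ i, 0 < bdR w (x.1 i)) ∧ ∀ w ∈ W, ∃ i, bdSp1 w x i}

noncomputable def bdRk (W : Finset (Fin n)) (x : bdF k (GraphSpace src tgt)) (i : Fin k) : ℕ :=
  (Finset.univ.filter fun j => ¬ bdSp W x j ∧ bdVal (x.1 j) < bdVal (x.1 i)).card

noncomputable def bdH (W : Finset (Fin n)) (τ : I) (x : bdF k (GraphSpace src tgt)) (i : Fin k) :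
    GraphSpace src tgt :=
  if bdSp W x i then bdS τ (x.1 i)
  else bdN (τ, (bdRk W x i + 1) / (k + 2), (bdC (x.1 i))⁻¹) (x.1 i)

variable {W : Finset (Fin n)} {w : Fin n} {x : bdF k (GraphSpace src tgt)} {i j : Fin k}

lemma bdSp1_ev (h : bdSp1 w x i) : ∀ᶠ y in 𝓝 x, bdSp1 w y i := by
  have c := fun i => ((bdR_cont w).comp (bd_ev (X := GraphSpace src tgt) (k := k) i)).continuousAt
    (x := x)
  refine ((c i).eventually_lt continuousAt_const h.1).and (eventually_all.2 fun j => ?_)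
  by_cases e : j = i
  · exact .of_forall fun _ h => absurd e h
  · exact ((c i).eventually_lt (c j) (h.2 j e)).mono fun _ h _ => h

lemma bdSp1_uq (h : bdSp1 w x i) (h' : bdSp1 w x j) : i = j := by
  by_contra e
  exact lt_asymm (h.2 j (Ne.symm e)) (h'.2 i e)

lemma bdO_open : IsOpen (bdO W : Set (bdF k (GraphSpace src tgt))) :=
  isOpen_iff_mem_nhds.2 fun x hx => by
    refine Eventually.and (eventually_all.2 fun w => ?_) (eventually_all.2 fun w => ?_)
    · by_cases h : w ∈ W
      · exact .of_forall fun _ h' => absurd h h'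
      · exact (eventually_all.2 fun i => continuousAt_const.eventually_lt
          ((bdR_cont w).comp (bd_ev i)).continuousAt (hx.1 w h i)).mono fun _ h _ => h
    · by_cases h : w ∈ W
      · obtain ⟨i, hi⟩ := hx.2 w h
        exact (bdSp1_ev hi).mono fun _ h _ => ⟨i, h⟩
      · exact .of_forall fun _ h' => absurd h' h

lemma bdSp_ev (hx : x ∈ bdO W) (i : Fin k) : ∀ᶠ y in 𝓝 x, (bdSp W y i ↔ bdSp W x i) := by
  by_cases h : bdSp W x i
  · obtain ⟨w, hw, h'⟩ := id h
    exact (bdSp1_ev h').mono fun y hy => iff_of_true ⟨w, hw, hy⟩ h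
  · have : ∀ w, ∀ᶠ y in 𝓝 x, w ∈ W → ¬ bdSp1 w y i := fun w => by
      by_cases hw : w ∈ W
      · obtain ⟨j, hj⟩ := hx.2 w hw
        exact (bdSp1_ev hj).mono fun y hy _ hi => h ⟨w, hw, bdSp1_uq hy hi ▸ hj⟩
      · exact .of_forall fun _ h' => absurd h' hw
    exact (eventually_all.2 this).mono fun y hy => iff_of_false (fun ⟨w, hw, h⟩ => hy w hw h) h

lemma bdSp1_V (h : x.1 i = bdV src tgt w) : bdSp1 w x i := by
  have : bdR w (x.1 i) = 0 := by rw [h, bdR_V, if_pos rfl]
  rw [bdSp1, this]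
  exact ⟨by norm_num, fun j hj => bdR_pos fun e => hj (x.2 (e.trans h.symm))⟩

lemma bd_int (hx : x ∈ bdO W) (h : ¬ bdSp W x i) :
    ∃ e, ∃ t : I, 0 < (t : ℝ) ∧ (t : ℝ) < 1 ∧ x.1 i = bdE src tgt e t := by
  refine (bd_nf (x.1 i)).resolve_left fun ⟨v, hv⟩ => ?_
  by_cases hw : v ∈ W
  · exact h ⟨v, hw, bdSp1_V hv⟩
  · have := hx.1 v hw i
    rw [hv, bdR_V, if_pos rfl] at this
    exact lt_irrefl _ this

lemma bdC_ne (hx : x ∈ bdO W) (h : ¬ bdSp W x i) : bdC (x.1 i) ≠ 0 := by
  obtain ⟨e, t, h0, h1, h⟩ := bd_int hx h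
  rw [h, bdC_E]
  exact (mul_pos h0 (sub_pos.2 h1)).ne'

lemma bdVal_ne (hx : x ∈ bdO W) (h : ¬ bdSp W x i) (h' : ¬ bdSp W x j)
    (e : bdVal (x.1 i) = bdVal (x.1 j)) : i = j := by
  obtain ⟨a, t, h0, h1, h⟩ := bd_int hx h
  obtain ⟨a', t', h0', h1', h'⟩ := bd_int hx h'
  rw [h, h', bdVal_E _ h0 h1, bdVal_E _ h0' h1'] at e
  obtain ⟨rfl, e'⟩ := bd_et h0 h1 h0' h1' e
  exact x.2 (by rw [h, h', (Subtype.ext e' : t = t')])

lemma bdRk_ev (hx : x ∈ bdO W) (h : ¬ bdSp W x i) : ∀ᶠ y in 𝓝 x, bdRk W y i = bdRk W x i := by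
  have c : ∀ j, ¬ bdSp W x j → ContinuousAt (fun y : bdF k (GraphSpace src tgt) =>
      bdVal (y.1 j)) x := fun j hj => (bdU_cont.comp (bd_ev j)).continuousAt.div
        (bdC_cont.comp (bd_ev j)).continuousAt (bdC_ne hx hj)
  have : ∀ j, ∀ᶠ y in 𝓝 x, ((¬ bdSp W y j ∧ bdVal (y.1 j) < bdVal (y.1 i)) ↔
      ¬ bdSp W x j ∧ bdVal (x.1 j) < bdVal (x.1 i)) := fun j => by
    by_cases hj : bdSp W x j
    · exact (bdSp_ev hx j).mono fun y hy => by simp [hy, hj]
    · rcases lt_trichotomy (bdVal (x.1 j)) (bdVal (x.1 i)) with l | l | l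
      · filter_upwards [bdSp_ev hx j, (c j hj).eventually_lt (c i h) l] with y a b
        simp [a, b, l]
      · obtain rfl := bdVal_ne hx hj h l
        simp only [lt_self_iff_false, and_false, eventually_true]
      · filter_upwards [(c i h).eventually_lt (c j hj) l] with y b
        simp [b.not_gt, l.not_gt]
  exact (eventually_all.2 this).mono fun y hy =>
    congrArg _ (Finset.filter_congr fun j _ => hy j)

lemma bdRk_lt (h : ¬ bdSp W x i) (l : bdVal (x.1 i) < bdVal (x.1 j)) : bdRk W x i < bdRk W x j :=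
  Finset.card_lt_card ⟨fun a ha => by
    simp only [Finset.mem_filter, Finset.mem_univ, true_and] at ha ⊢
    exact ⟨ha.1, ha.2.trans l⟩, fun hs => by
      simpa only [Finset.mem_filter, Finset.mem_univ, lt_self_iff_false, and_false] using hs (Finset.mem_filter.2 ⟨Finset.mem_univ i, h, l⟩)⟩

lemma bdRk_le : bdRk W x i ≤ k := (Finset.card_le_univ _).trans (Fintype.card_fin k).le

lemma bdH_N (hx : x ∈ bdO W) (h : ¬ bdSp W x i) (τ : I) : ∃ e, ∃ t s : I, 0 < (t : ℝ) ∧
    (t : ℝ) < 1 ∧ x.1 i = bdE src tgt e t ∧ ∃ g : ℝ, g = (bdRk W x i + 1) / (k + 2) ∧ 0 < g ∧ g < 1 ∧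
      (s : ℝ) = (1 - τ) * t + τ * g ∧ 0 < (s : ℝ) ∧ (s : ℝ) < 1 ∧ bdH W τ x i = bdE src tgt e s := by
  obtain ⟨e, t, h0, h1, he⟩ := bd_int hx h
  have g0 : (0 : ℝ) < (bdRk W x i + 1) / (k + 2) := by positivity
  have g1 : ((bdRk W x i + 1) / (k + 2) : ℝ) < 1 := by
    have : (bdRk W x i : ℝ) ≤ k := by exact_mod_cast bdRk_le
    rw [div_lt_one (by positivity)]
    linarith only [h0, h1, this]
  obtain ⟨s, a, b, c, d⟩ := bdN_E (src := src) (tgt := tgt) τ g0 g1 e h0 h1
  exact ⟨e, t, s, h0, h1, he, _, rfl, g0, g1, a, b, c, by rw [bdH, if_neg h, he, d]⟩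

lemma bd_cvx {τ : I} {a b : ℝ} (ha : 0 < a) (hb : 0 < b) : 0 < (1 - τ) * a + τ * b := by
  have := sub_nonneg.2 τ.2.2
  rcases τ.2.1.eq_or_lt with e | e
  · rw [← e]; linarith
  · positivity

lemma bdH_SN (hx : x ∈ bdO W) (h : bdSp W x i) (h' : ¬ bdSp W x j) (τ : I) :
    bdH W τ x i ≠ bdH W τ x j := fun e => by
  obtain ⟨w, hw, hi⟩ := id h
  have l := hi.2 j fun e => h' (e ▸ h)
  have l1 := bdS_le τ hi.1
  obtain ⟨a, t, s, h0, h1, he, g, -, g0, g1, hs, s0, s1, hH⟩ := bdH_N hx h' τ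
  rw [bdH, if_pos h, hH] at e
  rw [he, bdR_E, lt_min_iff] at l
  rw [e, bdR_E] at l1
  have l3 := bd_cvx (τ := τ) (a := 1 - bdR w (x.1 i)) (by linarith only [hi.1, h0, h1]) one_pos
  refine l1.not_gt (lt_min ?_ ?_) <;> split_ifs with u
  · have := bd_cvx (τ := τ) (sub_pos.2 (l.1.trans_eq (if_pos u))) g0
    linarith only [hs, this]
  · linarith
  · have := bd_cvx (τ := τ) (sub_pos.2 (l.2.trans_eq (if_pos u))) (sub_pos.2 g1)
    linarith
  · linarith

lemma bdH_NN (hx : x ∈ bdO W) (h : ¬ bdSp W x i) (h' : ¬ bdSp W x j) (τ : I)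
    (l : bdVal (x.1 i) < bdVal (x.1 j)) : bdH W τ x i ≠ bdH W τ x j := fun e => by
  have r : (bdRk W x i : ℝ) < bdRk W x j := by exact_mod_cast bdRk_lt h l
  obtain ⟨a, t, s, h0, h1, he, g, hg, -, -, hs, s0, s1, hH⟩ := bdH_N hx h τ
  obtain ⟨a', t', s', h0', h1', he', g', hg', -, -, hs', s0', s1', hH'⟩ := bdH_N hx h' τ
  have e' := congrArg bdVal e
  rw [hH, hH', bdVal_E _ s0 s1, bdVal_E _ s0' s1'] at e'
  obtain ⟨rfl, e'⟩ := bd_et s0 s1 s0' s1' e'
  rw [he, he', bdVal_E _ h0 h1, bdVal_E _ h0' h1'] at l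
  have : g < g' := by rw [hg, hg']; gcongr
  have := bd_cvx (τ := τ) (a := t' - t) (by linarith only [l]) (sub_pos.2 this)
  linarith

lemma bdH_inj (hx : x ∈ bdO W) (τ : I) : Injective (bdH W τ x) := fun i j e => by
  by_cases h : bdSp W x i <;> by_cases h' : bdSp W x j
  · obtain ⟨w, -, hi⟩ := id h
    obtain ⟨w', -, hj⟩ := id h'
    rw [bdH, bdH, if_pos h, if_pos h'] at e
    have k : ∀ {w} {p : GraphSpace src tgt}, bdR w p < 1 / 3 → bdR w (bdS τ p) < 1 / 3 :=
      fun {w p} h => (bdS_le τ h).trans_lt (by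
        have := bd_cvx (τ := τ) (sub_pos.2 h) (b := 1 / 3) (by norm_num)
        linarith only [this])
    obtain rfl := bdR_uq (k hi.1) (e ▸ k hj.1)
    exact bdSp1_uq hi hj
  · exact absurd e (bdH_SN hx h h' τ)
  · exact absurd e.symm (bdH_SN hx h' h τ)
  · rcases lt_trichotomy (bdVal (x.1 i)) (bdVal (x.1 j)) with l | l | l
    · exact absurd e (bdH_NN hx h h' τ l)
    · exact bdVal_ne hx h h' l
    · exact absurd e.symm (bdH_NN hx h' h τ l)

lemma bdH_cont (i : Fin k) :
    Continuous fun z : I × (bdO W : Set (bdF k (GraphSpace src tgt))) => bdH W z.1 z.2.1 i := by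
  refine continuous_iff_continuousAt.2 fun z => ?_
  have c : Continuous fun z : I × (bdO W : Set (bdF k (GraphSpace src tgt))) => z.2.1 := by
    fun_prop
  have c' := (bd_ev i).comp c
  have e := c.continuousAt.eventually (bdSp_ev z.2.2 i)
  by_cases h : bdSp W z.2.1 i
  · refine (bdS_cont.comp (c'.prodMk continuous_fst)).continuousAt.congr (e.mono fun y hy => ?_)
    exact (if_pos (hy.2 h)).symm
  · refine (bdN_cont.continuousAt.comp (c'.continuousAt.prodMk (continuousAt_fst.prodMk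
      ((continuousAt_const (y := ((bdRk W z.2.1 i + 1) / (k + 2) : ℝ))).prodMk
        ((bdC_cont.comp c').continuousAt.inv₀ (bdC_ne z.2.2 h)))))).congr ?_
    filter_upwards [e, c.continuousAt.eventually (bdRk_ev z.2.2 h)] with y hy hr
    rw [bdH, if_neg (mt hy.1 h), hr]
    rfl

lemma bdH_act (τ : I) (g : Equiv.Perm (Fin k)) (i : Fin k) :
    bdH W τ (bdAct g x) i = bdH W τ x (g i) := by
  have s : ∀ i, bdSp W (bdAct g x) i ↔ bdSp W x (g i) := fun i =>
    exists_congr fun w => and_congr_right' (and_congr_right' ⟨fun h j hj => by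
      simpa only [bdAct, comp_apply, Equiv.apply_symm_apply] using h (g.symm j) fun e => hj (by rw [← e]; simp),
      fun h j hj => h (g j) (g.injective.ne hj)⟩)
  have r : bdRk W (bdAct g x) i = bdRk W x (g i) :=
    Finset.card_equiv g fun j => by
      simp only [Finset.mem_filter, Finset.mem_univ, true_and, s]
      rfl
  rw [bdH, bdH, r]
  exact if_congr (s i) rfl rfl

lemma bdH_one (hx : x ∈ bdO W) (i : Fin k) : bdH W 1 x i ∈ range (bdV src tgt) ∪
    range fun z : Fin m × Fin (k + 1) =>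
      bdE src tgt z.1 (projIcc 0 1 zero_le_one (((z.2 : ℕ) + 1) / (k + 2))) := by
  by_cases h : bdSp W x i
  · obtain ⟨w, -, hi⟩ := id h
    refine .inl ⟨w, by_contra fun e => ?_⟩
    have := bdS_le 1 hi.1
    rw [bdH, if_pos h] at e
    simpa only [Icc.coe_one, sub_self, zero_mul, lt_self_iff_false] using (bdR_pos (Ne.symm e)).trans_le this
  · obtain ⟨a, t, s, -, -, -, g, hg, -, -, hs, -, -, hH⟩ := bdH_N hx h 1
    refine .inr ⟨(a, ⟨bdRk W x i, Nat.lt_succ_of_le bdRk_le⟩), ?_⟩
    rw [hH, ← projIcc_val zero_le_one s, hs, hg]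
    simp only [Icc.coe_one, sub_self, zero_mul, one_mul, zero_add]

end cover

theorem bd_cover {n m : ℕ} (src tgt : Fin m → Fin n) (k : ℕ)
    [PathConnectedSpace (UConf k (GraphSpace src tgt))] :
    ∃ U : Finset (Fin n) → Set (UConf k (GraphSpace src tgt)), (∀ W, IsOpen (U W)) ∧
      (∀ y, ∃ W, y ∈ U W) ∧ ∀ W, ((ContinuousMap.id _).restrict (U W)).Nullhomotopic := by
  classical
  have := bdc_t2 (src := src) (tgt := tgt)
  refine ⟨fun W => bdMk '' bdO W, fun W => bdMk_oq.isOpenMap _ bdO_open, fun y => ?_, fun W => ?_⟩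
  · obtain ⟨x, rfl⟩ := bdMk_oq.surjective y
    refine ⟨Finset.univ.filter fun w => ∃ i, x.1 i = bdV src tgt w, x, ⟨fun w hw i => ?_,
      fun w hw => ?_⟩, rfl⟩
    · exact bdR_pos fun e => hw (Finset.mem_filter.2 ⟨Finset.mem_univ _, i, e⟩)
    · exact (Finset.mem_filter.1 hw).2.imp fun i => bdSp1_V
  refine bd_null bdO_open (fun z => ⟨bdH W z.1 z.2.1, bdH_inj z.2.2 _⟩)
    ((continuous_pi bdH_cont).subtype_mk _) (fun x => Subtype.ext (funext fun i => ?_))
    (fun x => ?_) fun τ g x y h => Subtype.ext (funext fun i => ?_)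
  · by_cases h : bdSp W x.1 i
    · exact (if_pos h).trans (bdS_zero _)
    · obtain ⟨a, t, s, -, -, he, g, -, -, -, hs, -, -, hH⟩ := bdH_N x.2 h 0
      exact hH.trans (he.trans (congrArg _ (Subtype.ext (by simpa only [Icc.coe_zero, sub_zero, one_mul, zero_mul, add_zero] using hs.symm)))).symm
  · refine (eventually_all.2 fun i => ?_).mono fun y hy => Subtype.ext (funext hy)
    have f := ((finite_range _).union (finite_range _)).subset
      (range_subset_iff.2 fun y : (bdO W : Set (bdF k (GraphSpace src tgt))) => bdH_one y.2 i)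
    have c := ((bdH_cont (W := W) i).comp (Continuous.prodMk_right 1)).continuousAt (x := x)
    filter_upwards [c.eventually ((f.sdiff (t := {bdH W 1 x.1 i})).isClosed.isOpen_compl.mem_nhds
      fun h => h.2 rfl)] with y hy
    exact by_contra fun e => hy ⟨⟨y, rfl⟩, e⟩
  · exact (congrArg (bdH W τ · i) h).trans (bdH_act τ g i)

end Pool.Agent.MP_10b04c_gt

end

-- part MP_10b04c_gt.Graph
section

/-!
The star at a vertex of valence at least three.
-/

set_option autoImplicit false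

namespace Pool.Agent.MP_10b04c_gt

open unitInterval ContinuousMap Set Topology Filter Function

variable {n m : ℕ} (src tgt : Fin m → Fin n)

/-- coordinate along a half-edge -/
def gco (b : Bool) (t : ℝ) : ℝ := if b then 1 - t else t

/-- the point with parameter `t` on the half-edge `h` -/
noncomputable def gleg (h : Fin m × Bool) (t : ℝ) : GraphSpace src tgt :=
  Quot.mk _ (.inr (h.1, projIcc 0 1 zero_le_one (gco h.2 (t / 4))))

/-- a function on the graph from its values on vertices and edges -/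
def glift (a : Fin n → ℝ) (f : Fin m → ℝ → ℝ) (h0 : ∀ e, f e 0 = a (src e))
    (h1 : ∀ e, f e 1 = a (tgt e)) : GraphSpace src tgt → ℝ :=
  Quot.lift (Sum.elim a fun p => f p.1 p.2) (by
    rintro _ _ ⟨e, ⟨rfl, rfl⟩ | ⟨rfl, rfl⟩⟩
    · exact h0 e
    · exact h1 e)

theorem c_glift (a : Fin n → ℝ) (f : Fin m → ℝ → ℝ) (h0) (h1) (hf : ∀ e, Continuous (f e)) :
    Continuous (glift src tgt a f h0 h1) :=
  continuous_quot_lift _ (continuous_of_discreteTopology.sumElim
    (continuous_prod_of_discrete_left.mpr fun e => (hf e).comp continuous_subtype_val))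

/-- four times the distance to `v`, near `v` -/
noncomputable def grho (v : Fin n) : GraphSpace src tgt → ℝ :=
  glift src tgt (fun u => if u = v then 0 else 4)
    (fun e t => 4 * min (if src e = v then t else 1) (if tgt e = v then 1 - t else 1))
    (fun e => by split_ifs <;> norm_num) (fun e => by split_ifs <;> norm_num)

/-- tent function on the half-edge `c` -/
noncomputable def ggam (c : Fin m × Bool) : GraphSpace src tgt → ℝ :=
  glift src tgt (fun _ => 0)
    (fun e t => if e = c.1 then max 0 (min (4 * gco c.2 t) (2 - 4 * gco c.2 t)) else 0)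
    (fun e => by unfold gco; split_ifs <;> norm_num)
    (fun e => by unfold gco; split_ifs <;> norm_num)

theorem c_gco (b : Bool) : Continuous (gco b) := by
  unfold gco
  split_ifs <;> fun_prop

theorem c_gleg (h : Fin m × Bool) : Continuous (gleg src tgt h) :=
  continuous_quot_mk.comp (continuous_inr.comp (continuous_const.prodMk
    (continuous_projIcc.comp ((c_gco h.2).comp (by fun_prop)))))

theorem coe_proj (b : Bool) {t : ℝ} (h0 : 0 ≤ t) (h1 : t ≤ 1) :
    ((projIcc (0 : ℝ) 1 zero_le_one (gco b (t / 4)) : I) : ℝ) = gco b (t / 4) := by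
  rw [projIcc_of_mem _ (by unfold gco; split_ifs <;> constructor <;> linarith)]

theorem grho_leg {v : Fin n} {h : Fin m × Bool} (hv : (if h.2 then tgt h.1 else src h.1) = v)
    (t : ℝ) (h0 : 0 ≤ t) (h1 : t ≤ 1) : grho src tgt v (gleg src tgt h t) = t := by
  obtain ⟨e, b⟩ := h
  show 4 * min (if src e = v then ((projIcc (0 : ℝ) 1 zero_le_one (gco b (t / 4)) : I) : ℝ) else 1)
    (if tgt e = v then 1 - ((projIcc (0 : ℝ) 1 zero_le_one (gco b (t / 4)) : I) : ℝ) else 1) = t
  rw [coe_proj b h0 h1]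
  cases b
  · have : src e = v := hv
    rw [if_pos this, min_eq_left (by unfold gco; split_ifs <;> simp_all <;> linarith only [h1])]
    simp [gco]; ring
  · have : tgt e = v := hv
    rw [if_pos this, min_eq_right (by unfold gco; split_ifs <;> simp_all <;> linarith only [h1])]
    simp [gco]; ring

theorem ggam_leg (c h : Fin m × Bool) (t : ℝ) (h0 : 0 ≤ t) (h1 : t ≤ 1) :
    ggam src tgt c (gleg src tgt h t) = if h = c then t else 0 := by
  obtain ⟨e, b⟩ := h
  obtain ⟨e', b'⟩ := c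
  show (if e = e' then
    max 0 (min (4 * gco b' ((projIcc (0 : ℝ) 1 zero_le_one (gco b (t / 4)) : I) : ℝ))
      (2 - 4 * gco b' ((projIcc (0 : ℝ) 1 zero_le_one (gco b (t / 4)) : I) : ℝ))) else 0) = _
  rw [coe_proj b h0 h1]
  by_cases he : e = e'
  · by_cases hb : b = b'
    · have : gco b' (gco b (t / 4)) = t / 4 := by subst hb; cases b <;> simp [gco]
      rw [this, if_pos he, if_pos (by rw [he, hb]), min_eq_left (by linarith only [h1]),
        max_eq_right (by linarith)]
      ring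
    · have : gco b' (gco b (t / 4)) = 1 - t / 4 := by cases b <;> cases b' <;> simp_all [gco]
      rw [this, if_pos he, if_neg (by simp [hb]), max_eq_left (min_le_of_right_le (by linarith only [h1]))]
  · rw [if_neg he, if_neg (by simp [he])]

/-- the star spanned by three half-edges at `v` -/
noncomputable def gstar (v : Fin n) (a b c : Fin m × Bool)
    (ha : (if a.2 then tgt a.1 else src a.1) = v) (hb : (if b.2 then tgt b.1 else src b.1) = v)
    (hc : (if c.2 then tgt c.1 else src c.1) = v) (hab : a ≠ b) (hac : a ≠ c) (hbc : b ≠ c) :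
    Star (GraphSpace src tgt) where
  v := Quot.mk _ (.inl v)
  ρ := grho src tgt v
  γ := ggam src tgt c
  la := gleg src tgt a
  lb := gleg src tgt b
  lc := gleg src tgt c
  cρ := c_glift _ _ _ _ _ _ fun e => by split_ifs <;> fun_prop
  cγ := c_glift _ _ _ _ _ _ fun e => by
    have := c_gco c.2
    split_ifs <;> fun_prop
  ca := c_gleg _ _ _
  cb := c_gleg _ _ _
  cc := c_gleg _ _ _
  ρ0 := by
    rintro ⟨u | ⟨e, t⟩⟩
    · show (0 : ℝ) ≤ if u = v then 0 else 4
      split_ifs <;> norm_num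
    · show (0 : ℝ) ≤ 4 * min (if src e = v then (t : ℝ) else 1) (if tgt e = v then 1 - t else 1)
      have := t.2.1
      have := t.2.2
      refine mul_nonneg (by norm_num) (le_min ?_ ?_) <;> split_ifs <;> linarith
  γ0 := by
    rintro ⟨u | ⟨e, t⟩⟩
    · exact le_rfl
    · show (0 : ℝ) ≤ if e = c.1 then max 0 (min (4 * gco c.2 t) (2 - 4 * gco c.2 t)) else 0
      split_ifs
      · exact le_max_left _ _
      · exact le_rfl
  ρv := by
    rintro ⟨u | ⟨e, t⟩⟩ h
    · have h' : (if u = v then (0 : ℝ) else 4) = 0 := h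
      split_ifs at h' with hu
      · rw [hu]
      · norm_num at h'
    · have h' : 4 * min (if src e = v then (t : ℝ) else 1) (if tgt e = v then 1 - t else 1) = 0 := h
      rcases min_eq_iff.mp ((mul_eq_zero.mp h').resolve_left (by norm_num)) with ⟨h1, -⟩ | ⟨h1, -⟩
      · split_ifs at h1 with hu
        · exact Quot.sound ⟨e, Or.inl ⟨by rw [show t = 0 from Subtype.ext h1], by rw [hu]⟩⟩
        · norm_num at h1
      · split_ifs at h1 with hu
        · exact Quot.sound ⟨e, Or.inr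
            ⟨by rw [show t = 1 from Subtype.ext (sub_eq_zero.mp h1).symm], by rw [hu]⟩⟩
        · norm_num at h1
  ρa := grho_leg src tgt ha
  ρb := grho_leg src tgt hb
  ρc := grho_leg src tgt hc
  γa t h0 h1 := by rw [ggam_leg src tgt c a t h0 h1, if_neg hac]
  γb t h0 h1 := by rw [ggam_leg src tgt c b t h0 h1, if_neg hbc]
  γc t h0 h1 := by rw [ggam_leg src tgt c c t h0 h1, if_pos rfl]
  ab t h0 h1 h := by
    have := congrArg (ggam src tgt a) h
    rw [ggam_leg src tgt a a t h0.le h1, ggam_leg src tgt a b t h0.le h1, if_pos rfl,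
      if_neg hab.symm] at this
    exact h0.ne' this
  dich := by
    rintro ⟨u | ⟨e, t⟩⟩ -
    · exact Or.inl rfl
    obtain ⟨e', b'⟩ := c
    show (if e = e' then max 0 (min (4 * gco b' t) (2 - 4 * gco b' t)) else 0) = 0 ∨
      _ = gleg src tgt (e', b')
        (4 * min (if src e = v then (t : ℝ) else 1) (if tgt e = v then 1 - t else 1))
    by_cases he : e = e'
    swap
    · exact Or.inl (if_neg he)
    subst he
    rcases le_or_gt (1 / 2) (gco b' t) with h | h
    · left
      rw [if_pos rfl, max_eq_left (min_le_of_right_le (by linarith only [h]))]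
    right
    have e1 : min (if src e = v then (t : ℝ) else 1) (if tgt e = v then 1 - t else 1) =
        gco b' t := by
      cases b'
      · have h2 : src e = v := hc
        have h3 : (t : ℝ) < 1 / 2 := h
        rw [if_pos h2, min_eq_left (by split_ifs <;> linarith only [h3])]
        rfl
      · have h2 : tgt e = v := hc
        have h3 : 1 - (t : ℝ) < 1 / 2 := h
        rw [if_pos h2, min_eq_right (by split_ifs <;> linarith only [h3])]
        rfl
    have e2 : gco b' (4 * gco b' t / 4) = t := by cases b' <;> simp [gco]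
    rw [e1, gleg, e2, projIcc_val]

theorem exists_star (v : Fin n)
    (hv : 3 ≤ (Finset.univ.filter fun e => src e = v).card +
      (Finset.univ.filter fun e => tgt e = v).card) : Nonempty (Star (GraphSpace src tgt)) := by
  have h : 2 < (Finset.univ.filter fun h : Fin m × Bool =>
      (if h.2 then tgt h.1 else src h.1) = v).card := by
    rw [Finset.card_filter, Fintype.sum_prod_type]
    simp only [Fintype.sum_bool, if_true, Bool.false_eq_true, if_false, Finset.sum_add_distrib]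
    rw [Finset.card_filter, Finset.card_filter] at hv
    omega
  obtain ⟨a, b, c, ha, hb, hc, hab, hac, hbc⟩ := Finset.two_lt_card_iff.mp h
  exact ⟨gstar src tgt v a b c (Finset.mem_filter.mp ha).2 (Finset.mem_filter.mp hb).2
    (Finset.mem_filter.mp hc).2 hab hac hbc⟩

end Pool.Agent.MP_10b04c_gt

/-! Unordered configuration spaces are path connected and non-empty. -/

namespace Pool.Agent.MP_10b04c_gt

open unitInterval Set Topology Function

variable {X : Type} [TopologicalSpace X] {k : ℕ}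

theorem path_step (x : OC k X) (i : Fin k) (q : X)
    (h : JoinedIn {z | ∀ l, l ≠ i → z ≠ x.1 l} (x.1 i) q) :
    ∃ y, rng y = insert q (range x.1 \ {x.1 i}) ∧ Joined (mkU x) y := by
  obtain ⟨γ, hγ⟩ := h
  have inj : ∀ t, Injective (update x.1 i (γ t)) := fun t a b hab => by
    by_cases ha : a = i <;> by_cases hb : b = i
    · rw [ha, hb]
    · subst ha; rw [update_self, update_of_ne hb] at hab; exact (hγ t b hb hab).elim
    · subst hb; rw [update_self, update_of_ne ha] at hab; exact (hγ t a ha hab.symm).elim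
    · rw [update_of_ne ha, update_of_ne hb] at hab; exact x.2 hab
  refine ⟨mkU ⟨_, inj 1⟩, ?_, ⟨⟨⟨fun t => mkU ⟨_, inj t⟩, continuous_quot_mk.comp
    ((continuous_const.update i γ.continuous).subtype_mk _)⟩, ?_, rfl⟩⟩⟩
  · ext z
    simp only [rng_mkU, γ.target, mem_range, mem_insert_iff, mem_sdiff, mem_singleton_iff]
    constructor
    · rintro ⟨a, rfl⟩
      by_cases ha : a = i
      · subst ha; simp only [update_self, true_or]
      · rw [update_of_ne ha]; exact .inr ⟨⟨a, rfl⟩, fun e => ha (x.2 e)⟩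
    · rintro (rfl | ⟨⟨a, rfl⟩, ha⟩)
      · exact ⟨i, update_self ..⟩
      · exact ⟨a, update_of_ne (fun e => ha (congrArg _ e)) ..⟩
  · simp

theorem path_chain [T1Space X] [PathConnectedSpace X] {A C : Set X} (hA : A.Finite) (hC : C ⊆ A)
    {p : X} (hp : p ∈ C) (h : ∀ a ∈ C, ∀ b ∈ A, JoinedIn (A \ {a, b})ᶜ a b → b ∈ C) : A ⊆ C := by
  intro q hq
  by_contra hn
  let γ := (PathConnectedSpace.somePath p q).extend
  have c : Continuous γ := γ.continuous
  obtain ⟨s, hs, hs'⟩ := (isCompact_Icc.inter_right ((hA.subset hC).isClosed.preimage c)).exists_isGreatest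
    (⟨0, left_mem_Icc.mpr zero_le_one, by simpa only [γ, mem_preimage, mem_Icc, Std.le_refl, zero_le_one, and_self, Path.extend_apply, Icc.mk_zero, Path.source] using hp⟩ : (Icc (0 : ℝ) 1 ∩ γ ⁻¹' C).Nonempty)
  obtain ⟨t, ht, ht'⟩ := (isCompact_Icc.inter_right ((hA.subset sdiff_subset).isClosed.preimage c)).exists_isLeast
    (⟨1, right_mem_Icc.mpr hs.1.2, by simpa only [γ, preimage_sdiff, mem_sdiff, mem_preimage, mem_Icc, zero_le_one, Std.le_refl, and_self, Path.extend_apply, Icc.mk_one, Path.target] using ⟨hq, hn⟩⟩ :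
      (Icc s 1 ∩ γ ⁻¹' (A \ C)).Nonempty)
  refine ht.2.2 (h _ hs.2 _ ht.2.1 ((((convex_Icc s t).isPathConnected
    ⟨s, left_mem_Icc.mpr ht.1.1⟩).image c).joinedIn _ ⟨s, left_mem_Icc.mpr ht.1.1, rfl⟩ _
    ⟨t, right_mem_Icc.mpr ht.1.1, rfl⟩ |>.mono ?_))
  rintro _ ⟨u, hu, rfl⟩ ⟨h1, h2⟩
  by_cases hc : γ u ∈ C
  · exact h2 (.inl (congrArg γ (le_antisymm (hs' ⟨⟨hs.1.1.trans hu.1, hu.2.trans ht.1.2⟩, hc⟩) hu.1)))
  · exact h2 (.inr (congrArg γ (le_antisymm hu.2 (ht' ⟨⟨hu.1, hu.2.trans ht.1.2⟩, h1, hc⟩))))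

theorem path_swap [T1Space X] [PathConnectedSpace X] (y : UConf k X) {q b : X} (hq : q ∉ rng y)
    (hb : b ∈ rng y) : ∃ y', rng y' = insert q (rng y) \ {b} ∧ Joined y y' := by
  have hf : (insert q (rng y)).Finite := by
    obtain ⟨x, rfl⟩ := mkU_surj y
    exact (finite_range _).insert _
  refine (path_chain (C := {a | a ∈ insert q (rng y) ∧
    ∃ y', rng y' = insert q (rng y) \ {a} ∧ Joined y y'}) hf (fun _ h => h.1) (p := q)
    ⟨mem_insert .., y, (insert_sdiff_self_of_notMem hq).symm, .refl _⟩ ?_ (.inr hb)).2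
  rintro a ⟨ha, z, hz, hj⟩ c hc hac
  by_cases e : c = a
  · exact e ▸ ⟨ha, z, hz, hj⟩
  obtain ⟨x, rfl⟩ := mkU_surj z
  rw [rng_mkU] at hz
  obtain ⟨i, rfl⟩ : c ∈ range x.1 := hz ▸ ⟨hc, e⟩
  obtain ⟨w, hw, hj'⟩ := path_step x i a (hac.symm.mono fun u hu l hl e' => hu (by
    have : x.1 l ∈ insert q (rng y) \ {a} := hz ▸ mem_range_self l
    rw [e']
    exact ⟨this.1, fun h => h.elim this.2 fun h => hl (x.2 h)⟩))
  refine ⟨hc, w, ?_, hj.trans hj'⟩
  rw [hw, hz]
  ext u
  simp only [mem_insert_iff (a := a), mem_sdiff, mem_singleton_iff]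
  constructor
  · rintro (rfl | h)
    exacts [⟨ha, Ne.symm e⟩, ⟨h.1.1, h.2⟩]
  · exact fun h => (em (u = a)).imp_right fun h' => ⟨⟨h.1, h'⟩, h.2⟩

theorem uconf_path (X : Type) [TopologicalSpace X] [T1Space X] [PathConnectedSpace X] (k : ℕ)
    [Nonempty (UConf k X)] : PathConnectedSpace (UConf k X) := by
  have card : ∀ x : UConf k X, (rng x).Finite ∧ (rng x).ncard = k := fun x => by
    obtain ⟨x, rfl⟩ := mkU_surj x
    exact ⟨finite_range _, by rw [rng_mkU, ncard_range_of_injective x.2, Nat.card_eq_fintype_card, Fintype.card_fin]⟩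
  refine ⟨inferInstance, fun x y => ?_⟩
  induction hd : (rng x \ rng y).ncard using Nat.strong_induction_on generalizing x with
  | _ d ih =>
  by_cases h : rng x ⊆ rng y
  · have := eq_of_subset_of_ncard_le h (by rw [(card x).2, (card y).2]) (card y).1
    obtain ⟨x, rfl⟩ := mkU_surj x
    obtain ⟨y, rfl⟩ := mkU_surj y
    exact mkU_eq.mpr this ▸ .refl _
  obtain ⟨b, hb, hb'⟩ := not_subset.mp h
  obtain ⟨q, hq, hq'⟩ : ∃ q ∈ rng y, q ∉ rng x := not_subset.mp fun h' =>
    h (eq_of_subset_of_ncard_le h' (by rw [(card x).2, (card y).2]) (card x).1).ge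
  obtain ⟨x', hx', hj⟩ := path_swap x hq' hb
  refine hj.trans (ih _ (hd ▸ ncard_lt_ncard ⟨?_, fun h' => ?_⟩ ((card x).1.subset sdiff_subset)) x' rfl)
  · rw [hx']
    exact fun u hu => ⟨hu.1.1.resolve_left fun e => hu.2 (e ▸ hq), hu.2⟩
  · exact (hx' ▸ (h' ⟨hb, hb'⟩).1).2 rfl

theorem bd_ne {n m : ℕ} (src tgt : Fin m → Fin n) (e : Fin m) (k : ℕ) :
    Nonempty (UConf k (GraphSpace src tgt)) := by
  have h : ∀ i : Fin k, 0 < (1 : ℝ) / (i + 2) ∧ (1 : ℝ) / (i + 2) < 1 := fun i =>
    ⟨by positivity, by rw [div_lt_one (by positivity)]; have := (i : ℕ).cast_nonneg (α := ℝ); linarith⟩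
  refine ⟨Quot.mk _ ⟨fun i => bdE src tgt e ⟨1 / (i + 2), (h i).1.le, (h i).2.le⟩, fun i j hij => ?_⟩⟩
  have := congrArg bdVal hij
  simp only at this
  rw [bdVal_E e (h i).1 (h i).2, bdVal_E e (h j).1 (h j).2] at this
  have h2 := (bd_et (h i).1 (h i).2 (h j).1 (h j).2 this).2
  rw [div_eq_div_iff (by positivity) (by positivity)] at h2
  exact Fin.ext (by exact_mod_cast (by linarith only [h2] : ((i : ℕ) : ℝ) = (j : ℕ)))

end Pool.Agent.MP_10b04c_gt

end
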