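import Pool.Agent.MP_10b04c_gt.Mg.Graph
import Pool.Agent.MP_10b04c_gt.H96.Val
import Pool.Agent.Lib.CupDegree.Basic

attribute [-instance] IsAddCyclic.isAddCommutative IsOrderedRing.toIsStrictOrderedRing
  NumberField.to_charZero RKHS.instFunLike AddQuantale.instAddLeftMono Valued.toUniformSpace
  CommSemiring.toSemiring continuousSub_of_indiscreteTopology DivisionRing.toRing
  Finite.instDiscreteTopology DiscreteUniformity.instDiscreteTopology
  NonUnitalNonAssocRing.toAddCommGroup littleWedderburn CommRing.toRing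
  GrpTypeEquivalenceGrp.grpGroup AddCommMonoidWithOne.toAddMonoidWithOne instCoeTCOfCoe
  NonUnitalNonAssocSemiring.toAddCommMonoid IdemSemiring.toCanonicallyOrderedAdd NormedRing.toRing
  CompactSpace.sigmaCompact AddCommGroupWithOne.toAddGroupWithOne TestFunctionClass.toDFunLike
  instCoeTOfCoeDep AddQuantale.instAddRightMono Fintype.decidableForallFintype Invertible.toNeZero
  NeZero.of_gt' MonTypeEquivalenceMon.monMonoid IdemSemiring.toSemiring InvOneClass.toOne
  NonUnitalRing.toNonUnitalNonAssocRing instDiscreteTopologyOfAlexandrovDiscreteOfT1Space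
  ContDiffMapSupportedInClass.toDFunLike SeminormedRing.toRing CStarAlgebra.instOrderClosedTopology
  MonoidWithZero.toMulZeroOneClass instCoeHTCOfCoeHeadOfCoeOTC
  LieAdmissibleRing.toNonUnitalNonAssocRing Algebra.toSMul TotallySeparatedSpace.t2Space
  NonAssocSemiring.toNonUnitalNonAssocSemiring HomeomorphClass.instCoeOutHomeomorph
  AddSemigroup.toAdd

-- part MP_10b04c_gt.H96.Stm
section

/-!
Notions used in the proof of the stable range.
-/

set_option autoImplicit false

namespace Pool.Agent.MP_10b04c_gt.SR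

open unitInterval Set Function Classical

abbrev Cir : Type := AddCircle (1 : ℝ)

/-- coordinates on the three legs of a tripod -/
abbrev T3 : Type := Fin 3 → ℝ

/-- the places of the three particles `P`, `Q`, `S` at one vertex -/
abbrev St : Type := T3 × T3 × T3

noncomputable def m8 (t : ℝ) : ℝ := min 1 (8 * t)

def Sep (a : Fin 3) (x : ℝ) (b : Fin 3) (y : ℝ) : Prop :=
  (1 / 8 ≤ x ∨ 1 / 8 ≤ y) ∧ (a ≠ b ∨ x ≠ y)

/-- admissible local states -/
def Loc (R : ℝ) (q : St) : Prop :=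
  ∃ (a b c : Fin 3) (x y z : ℝ), q = (Pi.single a x, Pi.single b y, Pi.single c z) ∧
    0 ≤ x ∧ x ≤ 3 / 8 ∧ 0 ≤ y ∧ y ≤ 3 / 8 ∧ 0 ≤ z ∧ z ≤ R ∧ (3 / 8 < z → c = 0) ∧
    Sep a x b y ∧ Sep a x c z ∧ Sep b y c z

/-- the count on leg `a`; the third particle is present when `w` holds -/
noncomputable def eta (w : Prop) (q : St) (a : Fin 3) : ℝ :=
  m8 (q.1 a) + m8 (q.2.1 a) + if w then m8 (q.2.2 a) else 0

/-- winding about the cell `c` of the grid -/
noncomputable def Psi (c : ℤ × ℤ) (η : ℝ × ℝ) : Cir :=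
  if η.2 ≤ c.2 + 1 / 2 then ((max 0 (min 1 (η.1 - c.1)) : ℝ) : Cir) else 0

/-- the motions on a tripod and lifts of their windings -/
structure Motion where
  st : ℝ → ℝ → ℝ → St
  th0 : ℤ × ℤ → ℝ → ℝ
  th1 : ℤ × ℤ → ℝ → ℝ → ℝ
  c_st : ∀ R, Continuous fun p : ℝ × ℝ => st R p.1 p.2
  c_th0 : ∀ c, Continuous (th0 c)
  c_th1 : ∀ c, Continuous fun p : ℝ × ℝ => th1 c p.1 p.2
  loc : ∀ R α x, 3 / 8 ≤ R → R ≤ 1 / 2 → 0 ≤ x → α * x = 0 → Loc R (st R α x)
  rest : ∀ R α, (st R α 0).2.2 = Pi.single 0 R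
  red : ∀ α x, 0 ≤ x → α * x = 0 → ∃ α' x', |α'| ≤ 14 ∧ 0 ≤ x' ∧ x' ≤ 14 ∧ α' * x' = 0 ∧
    (x = 0 → x' = 0) ∧ ∀ R, st R α' x' = st R α x
  lift0 : ∀ R c α, (th0 c α : Cir) = Psi c (eta False (st R α 0) 0, eta False (st R α 0) 1)
  lift1 : ∀ R c α x, 3 / 8 ≤ R → 0 ≤ x → α * x = 0 →
    (th1 c α x : Cir) = Psi c (eta True (st R α x) 0, eta True (st R α x) 1)
  est0 : ∀ α, |th0 0 α - α / 6| ≤ 8
  est0' : ∀ c α, c ≠ 0 → |th0 c α| ≤ 8
  estA : ∀ α x, 0 ≤ x → |th1 (1, 0) α x - α / 6| ≤ 8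
  estB : ∀ α x, 0 ≤ x → |th1 (0, 1) α x - x / 6| ≤ 8
  est1 : ∀ c α x, 0 ≤ x → |th1 c α x| ≤ |α| + x + 8

/-- essential vertices, the matching and the reference coordinates -/
structure Comb (r : ℕ) (V : Type) where
  tri : V → Prop
  mate : V → V
  i0 : V → Fin r
  inv : ∀ v, mate (mate v) = v
  tri_of : ∀ v, mate v ≠ v → tri v
  i0_mate : ∀ v, i0 (mate v) = i0 v

namespace Comb

variable {r : ℕ} {V : Type} (D : Comb r V)

noncomputable def R (v : V) : ℝ := if D.mate v = v then 3 / 8 else 1 / 2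

/-- the third particle is present -/
def sg (i : Fin r) (v : V) : Prop := D.tri v ∧ i = D.i0 v

/-- the fourth leg replaces the first one -/
def fl (i : Fin r) (v : V) : Prop := ¬ D.tri v ∧ i = D.i0 v

def Good (q : Fin r × V → St) : Prop :=
  (∀ i v, Loc (D.R v) (q (i, v))) ∧ ∀ i v, D.mate v ≠ v →
    (q (i, v)).2.2 = Pi.single 0 (1 / 2) ∨ (q (i, D.mate v)).2.2 = Pi.single 0 (1 / 2)

end Comb

/-- the test family and the functions which detect it -/
structure Test {r : ℕ} {V : Type} (D : Comb r V) (B : Type) [TopologicalSpace B] where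
  T : C({q // D.Good q}, Fin r → B)
  a : Prop → V → C(B, Cir)
  b : V → C(B, Cir)
  nu : V → C(B, ℝ)
  wedge : ∀ φ v y, a φ v y = 0 ∨ b v y = 0
  ha : ∀ q i v φ, a φ v (T q i) =
    ((if (φ ↔ D.fl i v) then eta (D.sg i v) (q.1 (i, v)) 0 else 0 : ℝ) : Cir)
  hb : ∀ q i v, b v (T q i) = (eta (D.sg i v) (q.1 (i, v)) 1 : ℝ)
  hnu : ∀ v y, D.mate v ≠ v → (nu v y : Cir) = a False v y + a False (D.mate v) y
  hnuT : ∀ q i v, D.mate v ≠ v → nu v (T q i) = eta (D.sg i v) (q.1 (i, v)) 0 +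
    eta (D.sg i (D.mate v)) (q.1 (i, D.mate v)) 0 - if i = D.i0 v then 1 else 0

section graph

variable {n m : ℕ} (src tgt : Fin m → Fin n)

abbrev Half (m : ℕ) : Type := Fin m × Bool

/-- the vertex of a half-edge -/
def vx (h : Half m) : Fin n := if h.2 then tgt h.1 else src h.1

/-- the point at distance `s` from the vertex on the half-edge `h` -/
noncomputable def leg (h : Half m) (s : ℝ) : GraphSpace src tgt :=
  bdE src tgt h.1 (projIcc 0 1 zero_le_one (gco h.2 s))

/-- choice of legs and of the slots of the extra particles -/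
structure Legs (r j : ℕ) (V : Type) extends Comb r V where
  vt : V → Fin n
  vt_inj : Injective vt
  l : V → Fin 3 → Half m
  l4 : V → Half m
  l_vx : ∀ v a, vx src tgt (l v a) = vt v
  l_inj : ∀ v, Injective (l v)
  l4_vx : ∀ v, ¬ tri v → vx src tgt (l4 v) = vt v
  l4_ne : ∀ v a, ¬ tri v → l4 v ≠ l v a
  mate_leg : ∀ v, mate v ≠ v → (l (mate v) 0).1 = (l v 0).1
  own : Fin r → Fin j → Option V
  own_tri : ∀ i s u, own i s = some u → tri u ∧ i0 u = i
  own_ex : ∀ v, tri v → ∃ s u, own (i0 v) s = some u ∧ (u = v ∨ u = mate v)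
  own_uq : ∀ i s s' u u', own i s = some u → own i s' = some u' → (u' = u ∨ u' = mate u) → s = s'

/-- the functions on the configuration space -/
def PsiSt (k : ℕ) : Prop :=
  ∃ (ψ : Half m → C(UConf k (GraphSpace src tgt), Cir))
    (ν : Fin m → C(UConf k (GraphSpace src tgt), ℝ)),
    (∀ h h' y, h ≠ h' → vx src tgt h = vx src tgt h' → ψ h y = 0 ∨ ψ h' y = 0) ∧
    (∀ e y, src e ≠ tgt e → (ν e y : Cir) = ψ (e, false) y + ψ (e, true) y) ∧
    ∀ (x : bdF k (GraphSpace src tgt)) (h : Fin k → Half m) (s : Fin k → ℝ),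
      (∀ a, 0 ≤ s a ∧ s a ≤ 1 / 2 ∧ x.1 a = leg src tgt (h a) (s a)) →
      (∀ a b, a ≠ b → vx src tgt (h a) = vx src tgt (h b) → 1 / 8 ≤ s a ∨ 1 / 8 ≤ s b) →
      (∀ g, ψ g (bdMk x) = ((∑ a, if h a = g then m8 (s a) else 0 : ℝ) : Cir)) ∧
      ∀ e, src e ≠ tgt e → ν e (bdMk x) = ∑ a, if (h a).1 = e then m8 (s a) else 0

theorem leg_cont (h : Half m) : Continuous (leg src tgt h) :=
  (bdE_cont h.1).comp (continuous_projIcc.comp (c_gco h.2))

theorem leg_nonpos (h : Half m) {s : ℝ} (hs : s ≤ 0) :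
    leg src tgt h s = bdV src tgt (vx src tgt h) := by
  obtain ⟨e, _ | _⟩ := h
  · exact (congrArg (bdE src tgt e) (projIcc_of_le_left _ hs)).trans (bdE_zero e)
  · exact (congrArg (bdE src tgt e) (projIcc_of_right_le _
      (show 1 ≤ 1 - s by linarith))).trans (bdE_one e)

theorem leg_mid {h h' : Half m} (e : h.1 = h'.1) :
    leg src tgt h (1 / 2) = leg src tgt h' (1 / 2) := by
  have : ∀ b, gco b (1 / 2) = 1 / 2 := fun b => by cases b <;> norm_num [gco]
  rw [leg, leg, this, this, e]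

theorem leg_coe (b : Bool) {s : ℝ} (h0 : 0 ≤ s) (h1 : s ≤ 1 / 2) :
    ((projIcc (0 : ℝ) 1 zero_le_one (gco b s) : I) : ℝ) = gco b s := by
  rw [projIcc_of_mem _ (by unfold gco; split_ifs <;> constructor <;> linarith only [h1, h0])]

theorem bdV_inj : Injective (bdV src tgt) := fun v w h => by
  by_contra hne
  have := congrArg (bdR v) h
  rw [bdR_V, bdR_V, if_pos rfl, if_neg (Ne.symm hne)] at this
  exact zero_ne_one this

theorem leg_inj {h h' : Half m} {s s' : ℝ} (h0 : 0 ≤ s) (h1 : s ≤ 1 / 2) (h0' : 0 ≤ s')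
    (h1' : s' ≤ 1 / 2) (e : leg src tgt h s = leg src tgt h' s') :
    s = s' ∧ (h = h' ∨ (s = 0 ∧ vx src tgt h = vx src tgt h') ∨ (s = 1 / 2 ∧ h.1 = h'.1)) := by
  have hc : ∀ (g : Half m) {t : ℝ}, 0 ≤ t → t ≤ 1 / 2 → bdC (leg src tgt g t) = t * (1 - t) := by
    intro g t a b
    rw [leg, bdC_E, leg_coe _ a b]
    unfold gco
    split_ifs <;> ring
  have hs : s = s' := by
    have := congrArg bdC e
    rw [hc h h0 h1, hc h' h0' h1'] at this
    by_contra hne
    have h2 : (s - s') * (1 - s - s') = 0 := by linarith only [this]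
    rcases mul_eq_zero.1 h2 with h3 | h3
    · exact hne (by linarith only [h3])
    · exact hne (by linarith)
  subst hs
  refine ⟨rfl, ?_⟩
  rcases h0.eq_or_lt with h2 | h2
  · rw [leg_nonpos _ _ _ h2.ge, leg_nonpos _ _ _ h2.ge] at e
    exact .inr (.inl ⟨h2.symm, bdV_inj src tgt e⟩)
  have hb : ∀ b, 0 < gco b s ∧ gco b s < 1 := fun b => by
    unfold gco; split_ifs <;> constructor <;> linarith only [h1, h2]
  have hv := congrArg bdVal e
  rw [leg, leg, bdVal_E _ (by rw [leg_coe _ h0 h1]; exact (hb _).1)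
    (by rw [leg_coe _ h0 h1]; exact (hb _).2), bdVal_E _ (by rw [leg_coe _ h0 h1]; exact (hb _).1)
    (by rw [leg_coe _ h0 h1]; exact (hb _).2), leg_coe _ h0 h1, leg_coe _ h0 h1] at hv
  obtain ⟨e1, e2⟩ := bd_et (hb _).1 (hb _).2 (hb _).1 (hb _).2 hv
  by_cases e3 : h.2 = h'.2
  · exact .inl (Prod.ext e1 e3)
  · refine .inr (.inr ⟨?_, e1⟩)
    revert e2 e3
    cases h.2 <;> cases h'.2 <;> simp [gco] <;> intro e2 <;> linarith only [e2]

end graph

end Pool.Agent.MP_10b04c_gt.SR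

end

-- part MP_10b04c_gt.H96.Mir
section

set_option autoImplicit false

namespace Pool.Agent.MP_10b04c_gt.SR

open unitInterval Set Function Classical

lemma mir_fixed {U : Type*} [NormedAddCommGroup U] [NormedSpace ℝ U]
    [FiniteDimensional ℝ U] (F : U → U) (hF : Continuous F) (hb : ∀ u, ‖F u‖ ≤ 1) :
    ∃ u, F u = u := by
  rcases subsingleton_or_nontrivial U with hU | hU
  · exact ⟨0, Subsingleton.elim _ _⟩
  by_contra hne
  push Not at hne
  let s : U → ℝ := fun u => max 0 (min 1 (4 - ‖u‖))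
  let t : U → ℝ := fun u => max 0 (min 1 (‖u‖ - 2))
  have hs : Continuous s := by fun_prop
  have ht : Continuous t := by fun_prop
  have hs1 : ∀ u : U, ‖u‖ ≤ 3 → s u = 1 := fun u h => by
    simp only [s]; rw [min_eq_left (by linarith), max_eq_right (by norm_num)]
  have hs0 : ∀ u : U, 4 ≤ ‖u‖ → s u = 0 := fun u h => by
    simp only [s]; exact max_eq_left ((min_le_right _ _).trans (by linarith))
  have ht1 : ∀ u : U, 3 ≤ ‖u‖ → t u = 1 := fun u h => by
    simp only [t]; rw [min_eq_left (by linarith), max_eq_right (by norm_num)]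
  have ht0 : ∀ u : U, ‖u‖ ≤ 2 → t u = 0 := fun u h => by
    simp only [t]; exact max_eq_left ((min_le_right _ _).trans (by linarith))
  have hid : ∀ u : U, ‖u‖ ≤ 2 → s u • u - t u • F (s u • u) = u := fun u h => by
    rw [hs1 u (by linarith), ht0 u h]; simp
  refine Pool.Agent.Lib.CupDegree.second_zero (fun u => s u • u - t u • F (s u • u))
    (by fun_prop) ?_ ?_ 4 (-F 0) ?_
  · filter_upwards [Metric.closedBall_mem_nhds (0 : U) (by norm_num : (0 : ℝ) < 2)] with u hu
    exact hid u (by simpa using hu)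
  · intro u hu
    rcases le_total ‖u‖ 2 with h2 | h2
    · rwa [hid u h2] at hu
    rcases le_total ‖u‖ 3 with h3 | h3
    · rw [hs1 u h3, one_smul, sub_eq_zero] at hu
      have h4 : ‖t u • F u‖ ≤ 1 := by
        rw [norm_smul, Real.norm_eq_abs, abs_of_nonneg (le_max_left _ _)]
        exact mul_le_one₀ (max_le zero_le_one (min_le_left _ _)) (norm_nonneg _) (hb u)
      rw [← hu] at h4
      linarith
    · rw [ht1 u h3, one_smul, sub_eq_zero] at hu
      exact absurd hu.symm (hne _)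
  · intro u hu
    rw [hs0 u hu, ht1 u (by linarith)]; simp

lemma mir_box {ι : Type} [Fintype ι] (F : (ι → ℝ) → ι → ℝ) (hF : Continuous F)
    (hp : ∀ s l, (∀ l', |s l'| ≤ 1) → s l = 1 → 1 ≤ F s l)
    (hm : ∀ s l, (∀ l', |s l'| ≤ 1) → s l = -1 → F s l ≤ -1) (y : ι → ℝ) (hy : ∀ l, |y l| < 1) :
    ∃ s, F s = y := by
  let cl : ℝ → ℝ := fun x => max (-1) (min 1 x)
  have c1 : ∀ x, |cl x| ≤ 1 := fun x =>
    abs_le.2 ⟨le_max_left _ _, max_le (by norm_num) (min_le_left _ _)⟩
  have c2 : ∀ x, |x| ≤ 1 → cl x = x := fun x h => by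
    simp only [cl]
    rw [min_eq_right (abs_le.1 h).2, max_eq_right (abs_le.1 h).1]
  have c3 : Continuous cl := by fun_prop
  obtain ⟨s, hs⟩ := mir_fixed (U := ι → ℝ)
    (fun s l => cl (cl (s l) - (F (fun l' => cl (s l')) l - y l))) (by fun_prop)
    fun s => (pi_norm_le_iff_of_nonneg zero_le_one).2 fun l => c1 _
  have b : ∀ l, |s l| ≤ 1 := fun l => congrFun hs l ▸ c1 _
  have e : (fun l' => cl (s l')) = s := funext fun l => c2 _ (b l)
  refine ⟨s, funext fun l => ?_⟩
  have k : max (-1) (min 1 (s l - (F s l - y l))) = s l := by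
    have := congrFun hs l
    rwa [e, c2 _ (b l)] at this
  have p1 := hp s l b
  have p2 := hm s l b
  obtain ⟨y1, y2⟩ := abs_lt.1 (hy l)
  rcases le_total (-1) (min 1 (s l - (F s l - y l))) with a | a
  · rw [max_eq_right a] at k
    rcases le_total 1 (s l - (F s l - y l)) with a' | a'
    · rw [min_eq_left a'] at k
      linarith [p1 k.symm]
    · rw [min_eq_right a'] at k
      linarith
  · rw [max_eq_left a] at k
    rcases min_le_iff.1 a with a' | a'
    · linarith
    · linarith [p2 k.symm]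

theorem miranda {ι : Type} [Fintype ι] {n : ℕ} (lam : Fin (n + 1) → (ι → ℝ) → ℝ)
    (A : Fin (n + 1) → Set (ι → ℝ)) (g : ∀ j, A j → ι → ℤ) (hlam : ∀ j, Continuous (lam j))
    (h0 : ∀ j s, 0 ≤ lam j s) (h1 : ∀ s, ∑ j, lam j s = 1) (hA : ∀ j, IsOpen (A j))
    (hs : ∀ j, tsupport (lam j) ⊆ A j) (hg : ∀ j l, Continuous fun s => g j s l)
    (hp : ∀ j (s : A j) l, lam j s ≠ 0 → (∀ l', |s.1 l'| ≤ 1) → s.1 l = 1 → 1 ≤ g j s l)
    (hm : ∀ j (s : A j) l, lam j s ≠ 0 → (∀ l', |s.1 l'| ≤ 1) → s.1 l = -1 → g j s l ≤ -1) :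
    Fintype.card ι ≤ n := by
  let G : Fin (n + 1) → (ι → ℝ) → ι → ℤ := fun j s l => if h : s ∈ A j then g j ⟨s, h⟩ l else 0
  let F : (ι → ℝ) → ι → ℝ := fun s l => ∑ j, lam j s * (G j s l : ℝ)
  have hF : Continuous F := by
    refine continuous_pi fun l => continuous_finsetSum _ fun j _ => continuous_of_tsupport ?_
    intro s h
    have m : s ∈ A j := hs j (tsupport_mul_subset_left h)
    refine (hlam j).continuousAt.mul (ContinuousOn.continuousAt (s := A j) ?_ ((hA j).mem_nhds m))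
    rw [continuousOn_iff_continuous_domRestrict]
    refine (Int.cast_continuous.comp (hg j l) : Continuous fun s => (g j s l : ℝ)).congr fun x => ?_
    simp [G, x.2]
  have mem : ∀ j s, lam j s ≠ 0 → s ∈ A j := fun j s h => hs j (subset_tsupport _ h)
  have onto := mir_box F hF (fun s l b e => by
    rw [← h1 s]
    refine Finset.sum_le_sum fun j _ => ?_
    by_cases z : lam j s = 0
    · simp [z]
    · refine le_mul_of_one_le_right (h0 j s) ?_
      simp only [G, dif_pos (mem j s z)]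
      exact_mod_cast hp j ⟨s, mem j s z⟩ l z b e) (fun s l b e => by
    rw [← h1 s, ← Finset.sum_neg_distrib]
    refine Finset.sum_le_sum fun j _ => ?_
    by_cases z : lam j s = 0
    · simp [z]
    · rw [← mul_neg_one]
      refine mul_le_mul_of_nonneg_left ?_ (h0 j s)
      simp only [G, dif_pos (mem j s z)]
      exact_mod_cast hm j ⟨s, mem j s z⟩ l z b e)
  by_contra hn
  let S : (Fin (n + 1) → ι → ℤ) → AffineSubspace ℝ (ι → ℝ) := fun z =>
    affineSpan ℝ (range fun j l => (z j l : ℝ))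
  have nul : ∀ z, MeasureTheory.volume (S z : Set (ι → ℝ)) = 0 := fun z =>
    MeasureTheory.Measure.addHaar_affineSubspace _ _ fun e => hn (by
      have k := finrank_vectorSpan_range_le ℝ (fun j l => (z j l : ℝ)) (Fintype.card_fin (n + 1))
      rwa [← direction_affineSpan, show affineSpan ℝ _ = ⊤ from e, AffineSubspace.direction_top,
        finrank_top, Module.finrank_fintype_fun_eq_card] at k)
  refine (Metric.measure_ball_pos MeasureTheory.volume (0 : ι → ℝ) one_pos).ne'
    (MeasureTheory.measure_mono_null (fun y hy => ?_) (MeasureTheory.measure_iUnion_null nul))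
  obtain ⟨s, rfl⟩ := onto y fun l => (norm_le_pi_norm y l).trans_lt (mem_ball_zero_iff.1 hy)
  refine mem_iUnion.2 ⟨fun j => G j s, ?_⟩
  have k := affineCombination_mem_affineSpan (k := ℝ) (s := Finset.univ) (h1 s)
    (fun j l => (G j s l : ℝ))
  rw [Finset.affineCombination_eq_linear_combination _ _ _ (h1 s)] at k
  have e : F s = ∑ i, lam i s • fun l => (G i s l : ℝ) := by
    funext l
    simp only [F, Finset.sum_apply, Pi.smul_apply, smul_eq_mul]
  rw [e]
  exact k

end Pool.Agent.MP_10b04c_gt.SR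

end

-- part MP_10b04c_gt.H96.Det
section

set_option autoImplicit false

namespace Pool.Agent.MP_10b04c_gt.SR

open unitInterval Set Function Classical

theorem det_zero {x : ℝ} : (x : Cir) = 0 ↔ ∃ n : ℤ, (n : ℝ) = x := by
  rw [AddCircle.coe_eq_zero_iff]
  simp

theorem det_clamp (n : ℤ) : ((max 0 (min 1 (n : ℝ)) : ℝ) : Cir) = 0 := by
  rw [det_zero]
  exact ⟨max 0 (min 1 n), by push_cast; rfl⟩

theorem Psi_int (c : ℤ × ℤ) (y : ℝ) : Psi c (0, y) = 0 := by
  unfold Psi
  split_ifs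
  · have := det_clamp (-c.1)
    simpa only [zero_sub, QuotientAddGroup.eq_zero_iff, Int.cast_neg] using this
  · rfl

theorem exists_int {Z : Type} [TopologicalSpace Z] {f : Z → ℝ} (hf : Continuous f)
    (h : ∀ z, (f z : Cir) = 0) : ∃ g : Z → ℤ, Continuous g ∧ ∀ z, (g z : ℝ) = f z := by
  choose g hg using fun z => det_zero.1 (h z)
  refine ⟨g, ?_, hg⟩
  rw [Int.isClosedEmbedding_coe_real.isInducing.continuous_iff]
  have : ((↑) : ℤ → ℝ) ∘ g = f := funext hg
  rwa [this]

theorem det_lift {Z : Type} [TopologicalSpace Z] (G : I × Z → Cir) (hG : Continuous G) (f : Z → ℝ)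
    (hf : Continuous f) (h : ∀ z, G (0, z) = f z) :
    ∃ L : I × Z → ℝ, Continuous L ∧ (∀ z, L (0, z) = f z) ∧ ∀ p, (L p : Cir) = G p := by
  have hp := AddCircle.isCoveringMap_coe (1 : ℝ)
  let L := hp.liftHomotopy (⟨G, hG⟩ : C(I × Z, Cir)) (⟨f, hf⟩ : C(Z, ℝ)) h
  exact ⟨L, L.continuous, fun z => hp.liftHomotopy_zero _ _ h z,
    fun p => congrFun (hp.liftHomotopy_lifts (⟨G, hG⟩ : C(I × Z, Cir)) (⟨f, hf⟩ : C(Z, ℝ)) h) p⟩

theorem det_cont {X : Type} [TopologicalSpace X] (c : ℤ × ℤ) {u v : X → ℝ} (hu : Continuous u)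
    (hv : Continuous v) (h : ∀ x, (u x : Cir) = 0 ∨ (v x : Cir) = 0) :
    Continuous fun x => Psi c (u x, v x) := by
  unfold Psi
  refine Continuous.if_le ?_ continuous_const hv continuous_const fun x hx => ?_
  · exact (AddCircle.continuous_mk' (1 : ℝ)).comp (by fun_prop)
  · rcases h x with h1 | h1
    · obtain ⟨n, hn⟩ := det_zero.1 h1
      have := det_clamp (n - c.1)
      rw [Int.cast_sub, hn] at this
      exact this
    · obtain ⟨n, hn⟩ := det_zero.1 h1
      exfalso
      have h2 : ((2 * n : ℤ) : ℝ) = (2 * c.2 + 1 : ℤ) := by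
        push_cast
        rw [hn]
        simp only at hx
        linarith only [hx]
      have := Int.cast_injective h2
      omega

theorem det_shift (c k : ℤ × ℤ) (η : ℝ × ℝ) :
    Psi c (η.1 + k.1, η.2 + k.2) = Psi (c - k) η := by
  unfold Psi
  simp only [Prod.fst_sub, Prod.snd_sub, Int.cast_sub]
  have e : η.1 + k.1 - c.1 = η.1 - (c.1 - k.1) := by ring
  rw [e]
  exact if_congr ⟨fun h => by linarith only [h], fun h => by linarith only [h]⟩ rfl rfl

theorem detector {Z B : Type} [TopologicalSpace Z] [TopologicalSpace B] (H : C(I × Z, B))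
    (a b : C(B, Cir)) (hw : ∀ y, a y = 0 ∨ b y = 0) (η₀ η₁ : Z → ℝ × ℝ) (c₀ : Continuous η₀)
    (c₁ : Continuous η₁) (h₀ : ∀ z, a (H (0, z)) = (η₀ z).1 ∧ b (H (0, z)) = (η₀ z).2)
    (h₁ : ∀ z, a (H (1, z)) = (η₁ z).1 ∧ b (H (1, z)) = (η₁ z).2) :
    ∃ (κ : Z → ℤ × ℤ) (β : ℤ × ℤ → Z → ℝ), Continuous κ ∧ (∀ c, Continuous (β c)) ∧
      (∀ c z, (β c z : Cir) = Psi (c - κ z) (η₁ z) - Psi c (η₀ z)) ∧
      ∀ z, ∃ Λ : C(I, ℝ), Λ 0 = (η₀ z).1 ∧ Λ 1 = (η₁ z).1 + (κ z).1 ∧
        ∀ t, (Λ t : Cir) = a (H (t, z)) := by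
  obtain ⟨L, cL, L0, hL⟩ := det_lift (fun p => a (H p)) (by fun_prop) _ c₀.fst fun z => (h₀ z).1
  obtain ⟨M, cM, M0, hM⟩ := det_lift (fun p => b (H p)) (by fun_prop) _ c₀.snd fun z => (h₀ z).2
  obtain ⟨k, ck, hk⟩ := exists_int (f := fun z => L (1, z) - (η₁ z).1) (by fun_prop) fun z => by
    rw [AddCircle.coe_sub, hL, (h₁ z).1, sub_self]
  obtain ⟨l, cl, hl⟩ := exists_int (f := fun z => M (1, z) - (η₁ z).2) (by fun_prop) fun z => by
    rw [AddCircle.coe_sub, hM, (h₁ z).2, sub_self]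
  have cP : ∀ c, Continuous fun p => Psi c (L p, M p) := fun c =>
    det_cont c cL cM fun p => by rw [hL, hM]; exact hw _
  have key : ∀ c, ∃ N : I × Z → ℝ, Continuous N ∧ (∀ z, N (0, z) = 0) ∧
      ∀ p, (N p : Cir) = Psi c (L p, M p) - Psi c (L (0, p.2), M (0, p.2)) := fun c =>
    det_lift _ ((cP c).sub ((cP c).comp (f := fun p : I × Z => ((0 : I), p.2)) (by fun_prop)))
      (fun _ => 0) continuous_const fun z => sub_self _
  choose N cN _ hN using key
  refine ⟨fun z => (k z, l z), fun c z => N c (1, z), ck.prodMk cl,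
    fun c => (cN c).comp (by fun_prop), fun c z => ?_, fun z =>
      ⟨⟨fun t => L (t, z), by fun_prop⟩, L0 z, ?_, fun t => hL _⟩⟩
  · rw [hN, L0, M0, ← det_shift c (k z, l z), hk, hl, add_sub_cancel, add_sub_cancel]
  · show L (1, z) = (η₁ z).1 + k z
    rw [hk, add_sub_cancel]

/-- the variation of a real function along a path equals that of any other lift -/
theorem key_lift (Λ Λ' ν : C(I, ℝ)) (h : ∀ t, (ν t : Cir) = (Λ t : Cir) + (Λ' t : Cir)) :
    Λ 1 + Λ' 1 - ν 1 = Λ 0 + Λ' 0 - ν 0 := by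
  obtain ⟨g, cg, hg⟩ := exists_int (f := fun t => Λ t + Λ' t - ν t) (by fun_prop) fun t => by
    rw [AddCircle.coe_sub, AddCircle.coe_add, h, sub_self]
  have := (IsLocallyConstant.iff_continuous g).2 cg |>.apply_eq_of_preconnectedSpace 1 0
  exact (hg 1).symm.trans ((congrArg _ this).trans (hg 0))

end Pool.Agent.MP_10b04c_gt.SR

end

-- part MP_10b04c_gt.H96.Mot
section

set_option autoImplicit false

namespace Pool.Agent.MP_10b04c_gt.SR

open unitInterval Set Function Classical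

noncomputable def motTent (y : ℝ) : ℝ := max 0 (min ((2 - y) / 8) ((2 + y) / 8))

noncomputable def motPh (u : ℝ) : ℝ := 12 * Int.fract (u / 12)

noncomputable def motP0 (s : ℝ) : T3 :=
  ![motTent (s - 9), motTent (s - 5), motTent (s - 1) + motTent (s - 13)]

noncomputable def motQ0 (s : ℝ) : T3 :=
  ![motTent (s - 3), motTent (s + 1) + motTent (s - 11), motTent (s - 7)]

noncomputable def motP (u : ℝ) : T3 := motP0 (motPh u)

noncomputable def motQ (u : ℝ) : T3 := motQ0 (motPh u)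

noncomputable def motCl (t : ℝ) : ℝ := max 0 (min 1 t)

noncomputable def motG (s : ℝ) : ℝ := motCl (s - 1) + motCl (s - 7) - s / 6

noncomputable def motW (u : ℝ) : ℝ := u / 6 + motG (motPh u)

noncomputable def motSq (u : ℝ) (a : Fin 3) : ℝ := m8 (motP u a) + m8 (motQ u a)

theorem mot_hi {y : ℝ} (h : 2 ≤ y) : motTent y = 0 :=
  max_eq_left ((min_le_left _ _).trans (by linarith))

theorem mot_lo {y : ℝ} (h : y ≤ -2) : motTent y = 0 :=
  max_eq_left ((min_le_right _ _).trans (by linarith))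

theorem mot_dn {y : ℝ} (h0 : 0 ≤ y) (h : y ≤ 2) : motTent y = (2 - y) / 8 := by
  rw [motTent, min_eq_left (by linarith), max_eq_right (by linarith only [h])]

theorem mot_up {y : ℝ} (h0 : -2 ≤ y) (h : y ≤ 0) : motTent y = (2 + y) / 8 := by
  rw [motTent, min_eq_right (by linarith), max_eq_right (by linarith only [h0])]

theorem mot_s0 {x y z d : ℝ} (h0 : x = d) (h1 : y = 0) (h2 : z = 0) :
    (![x, y, z] : T3) = Pi.single 0 d := by
  ext i; fin_cases i <;> simp [h0, h1, h2]

theorem mot_s1 {x y z d : ℝ} (h0 : x = 0) (h1 : y = d) (h2 : z = 0) :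
    (![x, y, z] : T3) = Pi.single 1 d := by
  ext i; fin_cases i <;> simp [h0, h1, h2]

theorem mot_s2 {x y z d : ℝ} (h0 : x = 0) (h1 : y = 0) (h2 : z = d) :
    (![x, y, z] : T3) = Pi.single 2 d := by
  ext i; fin_cases i <;> simp [h0, h1, h2]

theorem mot_i0 {s : ℝ} (h0 : 0 ≤ s) (h1 : s ≤ 1) :
    motP0 s = Pi.single 2 ((1 + s) / 8) ∧ motQ0 s = Pi.single 1 (1 / 4 - (1 + s) / 8) :=
  ⟨mot_s2 (mot_lo (by linarith)) (mot_lo (by linarith))
    (by rw [mot_up (by linarith) (by linarith), mot_lo (by linarith)]; ring),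
   mot_s1 (mot_lo (by linarith))
    (by rw [mot_dn (by linarith) (by linarith), mot_lo (by linarith)]; ring) (mot_lo (by linarith))⟩

theorem mot_i1 {s : ℝ} (h0 : 1 ≤ s) (h1 : s ≤ 3) :
    motP0 s = Pi.single 2 ((3 - s) / 8) ∧ motQ0 s = Pi.single 0 (1 / 4 - (3 - s) / 8) :=
  ⟨mot_s2 (mot_lo (by linarith)) (mot_lo (by linarith))
    (by rw [mot_dn (by linarith) (by linarith), mot_lo (by linarith)]; ring),
   mot_s0 (by rw [mot_up (by linarith) (by linarith)]; ring)
    (by rw [mot_hi (by linarith), mot_lo (by linarith)]; ring) (mot_lo (by linarith))⟩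

theorem mot_i3 {s : ℝ} (h0 : 3 ≤ s) (h1 : s ≤ 5) :
    motP0 s = Pi.single 1 ((s - 3) / 8) ∧ motQ0 s = Pi.single 0 (1 / 4 - (s - 3) / 8) :=
  ⟨mot_s1 (mot_lo (by linarith)) (by rw [mot_up (by linarith) (by linarith)]; ring)
    (by rw [mot_hi (by linarith), mot_lo (by linarith)]; ring),
   mot_s0 (by rw [mot_dn (by linarith) (by linarith)]; ring)
    (by rw [mot_hi (by linarith), mot_lo (by linarith)]; ring) (mot_lo (by linarith))⟩

theorem mot_i5 {s : ℝ} (h0 : 5 ≤ s) (h1 : s ≤ 7) :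
    motP0 s = Pi.single 1 ((7 - s) / 8) ∧ motQ0 s = Pi.single 2 (1 / 4 - (7 - s) / 8) :=
  ⟨mot_s1 (mot_lo (by linarith)) (by rw [mot_dn (by linarith) (by linarith)]; ring)
    (by rw [mot_hi (by linarith), mot_lo (by linarith)]; ring),
   mot_s2 (mot_hi (by linarith))
    (by rw [mot_hi (by linarith), mot_lo (by linarith)]; ring)
    (by rw [mot_up (by linarith) (by linarith)]; ring)⟩

theorem mot_i7 {s : ℝ} (h0 : 7 ≤ s) (h1 : s ≤ 9) :
    motP0 s = Pi.single 0 ((s - 7) / 8) ∧ motQ0 s = Pi.single 2 (1 / 4 - (s - 7) / 8) :=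
  ⟨mot_s0 (by rw [mot_up (by linarith) (by linarith)]; ring) (mot_hi (by linarith))
    (by rw [mot_hi (by linarith), mot_lo (by linarith)]; ring),
   mot_s2 (mot_hi (by linarith))
    (by rw [mot_hi (by linarith), mot_lo (by linarith)]; ring)
    (by rw [mot_dn (by linarith) (by linarith)]; ring)⟩

theorem mot_i9 {s : ℝ} (h0 : 9 ≤ s) (h1 : s ≤ 11) :
    motP0 s = Pi.single 0 ((11 - s) / 8) ∧ motQ0 s = Pi.single 1 (1 / 4 - (11 - s) / 8) :=
  ⟨mot_s0 (by rw [mot_dn (by linarith) (by linarith)]; ring) (mot_hi (by linarith))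
    (by rw [mot_hi (by linarith), mot_lo (by linarith)]; ring),
   mot_s1 (mot_hi (by linarith))
    (by rw [mot_hi (by linarith), mot_up (by linarith) (by linarith)]; ring)
    (mot_hi (by linarith))⟩

theorem mot_i11 {s : ℝ} (h0 : 11 ≤ s) (h1 : s ≤ 12) :
    motP0 s = Pi.single 2 ((s - 11) / 8) ∧ motQ0 s = Pi.single 1 (1 / 4 - (s - 11) / 8) :=
  ⟨mot_s2 (mot_hi (by linarith)) (mot_hi (by linarith))
    (by rw [mot_hi (by linarith), mot_up (by linarith) (by linarith)]; ring),
   mot_s1 (mot_hi (by linarith))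
    (by rw [mot_hi (by linarith), mot_dn (by linarith) (by linarith)]; ring)
    (mot_hi (by linarith))⟩

theorem mot_split {s : ℝ} (h0 : 0 ≤ s) (h1 : s ≤ 12) :
    (0 ≤ s ∧ s ≤ 1) ∨ (1 ≤ s ∧ s ≤ 3) ∨ (3 ≤ s ∧ s ≤ 5) ∨ (5 ≤ s ∧ s ≤ 7) ∨ (7 ≤ s ∧ s ≤ 9) ∨
      (9 ≤ s ∧ s ≤ 11) ∨ (11 ≤ s ∧ s ≤ 12) := by
  rcases le_total s 1 with a | a
  · exact .inl ⟨h0, a⟩
  rcases le_total s 3 with b | b
  · exact .inr (.inl ⟨a, b⟩)
  rcases le_total s 5 with c | c
  · exact .inr (.inr (.inl ⟨b, c⟩))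
  rcases le_total s 7 with d | d
  · exact .inr (.inr (.inr (.inl ⟨c, d⟩)))
  rcases le_total s 9 with e | e
  · exact .inr (.inr (.inr (.inr (.inl ⟨d, e⟩))))
  rcases le_total s 11 with f | f
  · exact .inr (.inr (.inr (.inr (.inr (.inl ⟨e, f⟩)))))
  · exact .inr (.inr (.inr (.inr (.inr (.inr ⟨f, h1⟩)))))

theorem mot_ph0 (u : ℝ) : 0 ≤ motPh u := mul_nonneg (by norm_num) (Int.fract_nonneg _)

theorem mot_ph1 (u : ℝ) : motPh u ≤ 12 := by
  have := Int.fract_lt_one (u / 12)
  unfold motPh; linarith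

theorem mot_ph_eq (u : ℝ) : motPh u = u - 12 * (⌊u / 12⌋ : ℤ) := by
  unfold motPh; rw [Int.fract]; ring

theorem mot_ph_per (u : ℝ) (k : ℤ) : motPh (u - 12 * k) = motPh u := by
  unfold motPh
  rw [show (u - 12 * k) / 12 = u / 12 - k by ring, Int.fract_sub_intCast]

theorem mot_ph_ph (u : ℝ) : motPh (motPh u) = motPh u := by
  rw [mot_ph_eq u, mot_ph_per, mot_ph_eq]

theorem mot_ph_self {u : ℝ} (h0 : 0 ≤ u) (h1 : u < 12) : motPh u = u := by
  unfold motPh
  rw [Int.fract_eq_self.2 ⟨by linarith, by linarith only [h1]⟩]; ring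

theorem mot_cont {X : Type} [TopologicalSpace X] {f : ℝ → X} (hf : Continuous f)
    (e : f 0 = f 12) : Continuous fun u => f (motPh u) := by
  have h := ContinuousOn.comp_fract'' (f := fun t : ℝ => f (12 * t))
    (hf.comp (continuous_const.mul continuous_id)).continuousOn (by simpa using e)
  exact h.comp (continuous_id.div_const 12)

theorem mot_tent_cont : Continuous motTent := by unfold motTent; fun_prop

theorem mot_cP : Continuous motP := by
  refine mot_cont (f := motP0) ?_ ?_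
  · have := mot_tent_cont
    refine continuous_pi fun i => ?_
    fin_cases i <;> simp only [motP0] <;> simp <;> fun_prop
  · rw [(mot_i0 le_rfl zero_le_one).1, (mot_i11 (by norm_num) le_rfl).1]; norm_num

theorem mot_cQ : Continuous motQ := by
  refine mot_cont (f := motQ0) ?_ ?_
  · have := mot_tent_cont
    refine continuous_pi fun i => ?_
    fin_cases i <;> simp only [motQ0] <;> simp <;> fun_prop
  · rw [(mot_i0 le_rfl zero_le_one).2, (mot_i11 (by norm_num) le_rfl).2]; norm_num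

theorem mot_cl0 {t : ℝ} (h : t ≤ 0) : motCl t = 0 := max_eq_left ((min_le_right _ _).trans h)

theorem mot_cl1 {t : ℝ} (h : 1 ≤ t) : motCl t = 1 := by
  rw [motCl, min_eq_left h, max_eq_right zero_le_one]

theorem mot_cl_bd (t : ℝ) : 0 ≤ motCl t ∧ motCl t ≤ 1 :=
  ⟨le_max_left _ _, max_le zero_le_one (min_le_left _ _)⟩

theorem mot_cW : Continuous motW := by
  have h : Continuous fun u => motG (motPh u) := by
    refine mot_cont (by unfold motG motCl; fun_prop) ?_
    rw [motG, motG, mot_cl0 (by norm_num), mot_cl0 (by norm_num), mot_cl1 (by norm_num),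
      mot_cl1 (by norm_num)]
    norm_num
  exact (continuous_id.div_const 6).add h

theorem mot_cSq (a : Fin 3) : Continuous fun u => motSq u a := by
  have h1 := mot_cP
  have h2 := mot_cQ
  unfold motSq m8; fun_prop

theorem mot_W_est (u : ℝ) : |motW u - u / 6| ≤ 2 := by
  have h0 := mot_ph0 u
  have h1 := mot_ph1 u
  have h2 := mot_cl_bd (motPh u - 1)
  have h3 := mot_cl_bd (motPh u - 7)
  rw [motW, motG, abs_le]
  constructor <;> linarith [h2.1, h2.2, h3.1, h3.2]

theorem mot_form (u : ℝ) : ∃ (a b : Fin 3) (d : ℝ), a ≠ b ∧ 0 ≤ d ∧ d ≤ 1 / 4 ∧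
    motP u = Pi.single a d ∧ motQ u = Pi.single b (1 / 4 - d) := by
  rcases mot_split (mot_ph0 u) (mot_ph1 u) with h | h | h | h | h | h | h
  · exact ⟨_, _, _, by decide, by linarith [h.1], by linarith only [h.2], mot_i0 h.1 h.2⟩
  · exact ⟨_, _, _, by decide, by linarith [h.2], by linarith [h.1], mot_i1 h.1 h.2⟩
  · exact ⟨_, _, _, by decide, by linarith [h.1], by linarith [h.2], mot_i3 h.1 h.2⟩
  · exact ⟨_, _, _, by decide, by linarith [h.2], by linarith [h.1], mot_i5 h.1 h.2⟩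
  · exact ⟨_, _, _, by decide, by linarith [h.1], by linarith [h.2], mot_i7 h.1 h.2⟩
  · exact ⟨_, _, _, by decide, by linarith [h.2], by linarith [h.1], mot_i9 h.1 h.2⟩
  · exact ⟨_, _, _, by decide, by linarith [h.1], by linarith [h.2], mot_i11 h.1 h.2⟩

theorem mot_m0 : m8 0 = 0 := by simp only [m8, mul_zero, zero_le_one, inf_of_le_right]

theorem mot_m1 {t : ℝ} (h : 1 / 8 ≤ t) : m8 t = 1 := min_eq_left (by linarith)

theorem mot_m_bd {t : ℝ} (h : 0 ≤ t) : 0 ≤ m8 t ∧ m8 t ≤ 1 :=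
  ⟨le_min zero_le_one (by linarith), min_le_left _ _⟩

theorem mot_sq_bd (u : ℝ) (i : Fin 3) : 0 ≤ motSq u i ∧ motSq u i ≤ 1 := by
  obtain ⟨a, b, d, hab, h0, h1, e1, e2⟩ := mot_form u
  rw [motSq, e1, e2]
  by_cases ha : i = a
  · subst ha
    rw [Pi.single_eq_same, Pi.single_eq_of_ne hab, mot_m0, add_zero]; exact mot_m_bd h0
  · rw [Pi.single_eq_of_ne ha, mot_m0, zero_add]
    by_cases hb : i = b
    · subst hb; rw [Pi.single_eq_same]; exact mot_m_bd (by linarith)
    · rw [Pi.single_eq_of_ne hb, mot_m0]; exact ⟨le_rfl, zero_le_one⟩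

theorem mot_int (n : ℤ) : ((n : ℝ) : Cir) = 0 :=
  (AddCircle.coe_eq_zero_iff 1).2 ⟨n, by simp⟩

theorem mot_one : ((1 : ℝ) : Cir) = 0 := AddCircle.coe_period 1

theorem mot_psi_z {c : ℤ × ℤ} {η : ℝ × ℝ} (h : η.1 - c.1 ≤ 0 ∨ 1 ≤ η.1 - c.1 ∨ c.2 + 1 / 2 < η.2) :
    Psi c η = 0 := by
  unfold Psi
  split_ifs with h1
  · rcases h with h | h | h
    · exact congrArg (fun t : ℝ => (t : Cir)) (mot_cl0 h)
    · exact (congrArg (fun t : ℝ => (t : Cir)) (mot_cl1 h)).trans mot_one
    · exact absurd h1 (not_le.2 h)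
  · rfl

theorem mot_psi_int (c : ℤ × ℤ) (k : ℤ) (y : ℝ) : Psi c ((k : ℝ), y) = 0 := by
  refine mot_psi_z ?_
  rcases le_or_gt k c.1 with h | h
  · exact .inl (sub_nonpos.2 (show (k : ℝ) ≤ c.1 by exact_mod_cast h))
  · have : (c.1 : ℝ) + 1 ≤ k := by exact_mod_cast h
    exact .inr (.inl (by linarith))

theorem mot_psi_cl {η : ℝ × ℝ} {t : ℝ} (h : η.2 = 0) (e : η.1 = min 1 t) :
    Psi 0 η = (motCl t : ℝ) := by
  unfold Psi
  rw [if_pos (by rw [h]; norm_num), e]
  simp only [Prod.fst_zero, Int.cast_zero, sub_zero, inf_le_left, inf_of_le_right, motCl]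

theorem mot_shift (c k : ℤ × ℤ) (x y : ℝ) : Psi c (x + k.1, y + k.2) = Psi (c - k) (x, y) := by
  unfold Psi
  simp only [Prod.fst_sub, Prod.snd_sub, Int.cast_sub]
  rw [show x + k.1 - c.1 = x - (c.1 - k.1) by ring]
  exact if_congr ⟨fun h => by linarith, fun h => by linarith⟩ rfl rfl

theorem mot_liftW (u : ℝ) : (motW u : Cir) = Psi 0 (motSq u 0, motSq u 1) := by
  have e : motW u = ((2 * ⌊u / 12⌋ : ℤ) : ℝ) + (motCl (motPh u - 1) + motCl (motPh u - 7)) := by
    rw [motW, motG]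
    nth_rewrite 3 [mot_ph_eq u]
    push_cast; ring
  rw [e, AddCircle.coe_add, mot_int, zero_add, AddCircle.coe_add]
  unfold motSq motP motQ
  have z : ((0 : ℝ) : Cir) = 0 := rfl
  rcases mot_split (mot_ph0 u) (mot_ph1 u) with h | h | h | h | h | h | h <;>
    generalize motPh u = s at h ⊢ <;> obtain ⟨h0, h1⟩ := h
  · rw [(mot_i0 h0 h1).1, (mot_i0 h0 h1).2, mot_cl0 (by linarith only [h1]), mot_cl0 (by linarith only [h1]), z,
      add_zero, mot_psi_z (.inl (by simp [mot_m0]))]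
  · rw [(mot_i1 h0 h1).1, (mot_i1 h0 h1).2, mot_cl0 (t := s - 7) (by linarith only [h1]), z, add_zero]
    refine (mot_psi_cl (by simp [mot_m0]) ?_).symm
    simp only [Pi.single_eq_same, Pi.single_eq_of_ne (show (0 : Fin 3) ≠ 2 by decide), m8]
    rw [mul_zero, min_eq_right zero_le_one, zero_add]
    congr 1; ring
  · rw [(mot_i3 h0 h1).1, (mot_i3 h0 h1).2, mot_cl1 (by linarith only [h0]), mot_cl0 (by linarith only [h1]), z,
      add_zero, mot_one]
    refine (mot_psi_z (.inr ?_)).symm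
    rcases le_total s 4 with h | h
    · left; simp only [Fin.isValue, ne_eq, zero_ne_one, not_false_eq_true, Pi.single_eq_of_ne, mot_m0, Pi.single_eq_same, mot_m1 (show 1 / 8 ≤ 1 / 4 - (s - 3) / 8 by linarith only [h]), zero_add, Prod.fst_zero, Int.cast_zero, sub_zero, Std.le_refl]
    · right; simp only [Prod.snd_zero, Int.cast_zero, zero_add, Fin.isValue, Pi.single_eq_same, mot_m1 (show 1 / 8 ≤ (s - 3) / 8 by linarith only [h]), ne_eq, one_ne_zero, not_false_eq_true, Pi.single_eq_of_ne, mot_m0, add_zero, half_lt_self_iff, zero_lt_one]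
  · rw [(mot_i5 h0 h1).1, (mot_i5 h0 h1).2, mot_cl1 (by linarith only [h0]), mot_cl0 (by linarith only [h1]), z,
      add_zero, mot_one, mot_psi_z (.inl (by simp [mot_m0]))]
  · rw [(mot_i7 h0 h1).1, (mot_i7 h0 h1).2, mot_cl1 (by linarith only [h0]), mot_one, zero_add]
    refine (mot_psi_cl (by simp [mot_m0]) ?_).symm
    simp only [Pi.single_eq_same, Pi.single_eq_of_ne (show (0 : Fin 3) ≠ 2 by decide), m8]
    rw [mul_zero, min_eq_right zero_le_one, add_zero]
    congr 1; ring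
  · rw [(mot_i9 h0 h1).1, (mot_i9 h0 h1).2, mot_cl1 (by linarith only [h0]), mot_cl1 (by linarith only [h0]),
      mot_one, add_zero]
    refine (mot_psi_z (.inr ?_)).symm
    rcases le_total s 10 with h | h
    · left; simp only [Fin.isValue, Pi.single_eq_same, mot_m1 (show 1 / 8 ≤ (11 - s) / 8 by linarith only [h]), ne_eq, zero_ne_one, not_false_eq_true, Pi.single_eq_of_ne, mot_m0, add_zero, Prod.fst_zero, Int.cast_zero, sub_zero, Std.le_refl]
    · right; simp only [Prod.snd_zero, Int.cast_zero, zero_add, Fin.isValue, ne_eq, one_ne_zero, not_false_eq_true, Pi.single_eq_of_ne, mot_m0, Pi.single_eq_same, mot_m1 (show 1 / 8 ≤ 1 / 4 - (11 - s) / 8 by linarith only [h]), half_lt_self_iff, zero_lt_one]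
  · rw [(mot_i11 h0 h1).1, (mot_i11 h0 h1).2, mot_cl1 (by linarith only [h0]), mot_cl1 (by linarith only [h0]),
      mot_one, add_zero, mot_psi_z (.inl (by simp [mot_m0]))]

noncomputable def motTh0 (c : ℤ × ℤ) (u : ℝ) : ℝ :=
  if c.1 = 0 then (if c.2 = 0 then motW u else if 1 ≤ c.2 then motSq u 0 else 0) else 0

theorem mot_cTh (c : ℤ × ℤ) : Continuous (motTh0 c) := by
  unfold motTh0
  split_ifs
  · exact mot_cW
  · exact mot_cSq 0
  · exact continuous_const
  · exact continuous_const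

theorem mot_lift (c : ℤ × ℤ) (u : ℝ) : (motTh0 c u : Cir) = Psi c (motSq u 0, motSq u 1) := by
  obtain ⟨a0, a1⟩ := mot_sq_bd u 0
  obtain ⟨b0, b1⟩ := mot_sq_bd u 1
  unfold motTh0
  split_ifs with h1 h2 h3
  · rw [show c = 0 from Prod.ext h1 h2]; exact mot_liftW u
  · have : (1 : ℝ) ≤ c.2 := by exact_mod_cast h3
    unfold Psi
    rw [if_pos (by linarith), h1]
    simp only [Int.cast_zero, sub_zero]
    rw [min_eq_right a1, max_eq_right a0]
  · have : (c.2 : ℝ) ≤ -1 := by exact_mod_cast (show c.2 ≤ -1 by omega)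
    exact (mot_psi_z (.inr (.inr (by linarith only [b0, this])))).symm
  · refine (mot_psi_z ?_).symm
    rcases lt_or_gt_of_ne h1 with h | h
    · have : (c.1 : ℝ) ≤ -1 := by exact_mod_cast (show c.1 ≤ -1 by omega)
      exact .inr (.inl (by linarith only [a0, this]))
    · have : (1 : ℝ) ≤ c.1 := by exact_mod_cast h
      exact .inl (by linarith)

theorem mot_th_zero (u : ℝ) : motTh0 0 u = motW u := by simp [motTh0]

theorem mot_th_ne {c : ℤ × ℤ} (h : c ≠ 0) (u : ℝ) : |motTh0 c u| ≤ 1 := by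
  obtain ⟨a0, a1⟩ := mot_sq_bd u 0
  unfold motTh0
  split_ifs with h1 h2 h3
  · exact absurd (Prod.ext h1 h2) h
  · rwa [abs_of_nonneg a0]
  · simp
  · simp

theorem mot_th_bd (c : ℤ × ℤ) (u : ℝ) : |motTh0 c u| ≤ |u| / 6 + 2 := by
  by_cases h : c = 0
  · have := abs_le.1 (mot_W_est u)
    rw [h, mot_th_zero, abs_le]
    constructor <;> linarith only [this.1, this.2, le_abs_self u, neg_abs_le u]
  · linarith [mot_th_ne h u, abs_nonneg u]

noncomputable def motSt (R a x : ℝ) : St :=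
  (motP (a + x), motQ a + Pi.single 1 (min x 2 / 8),
    motQ (max x 2) + Pi.single 0 ((R - 1 / 8) * (1 - min x 2 / 2)))

noncomputable def motTh1 (c : ℤ × ℤ) (a x : ℝ) : ℝ :=
  motTh0 (c - (1, 0)) a + motTh0 (c - (0, 1)) (max x 2) - motTh0 (c - (0, 1)) 2

theorem mot_Q0 : motQ 0 = Pi.single 1 (1 / 8) := by
  rw [motQ, mot_ph_self le_rfl (by norm_num), (mot_i0 le_rfl zero_le_one).2]; norm_num

theorem mot_Q2 : motQ 2 = Pi.single 0 (1 / 8) := by
  rw [motQ, mot_ph_self (by norm_num) (by norm_num), (mot_i1 (by norm_num) (by norm_num)).2]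
  norm_num

theorem mot_Plow {u : ℝ} (h0 : 0 ≤ u) (h1 : u ≤ 2) :
    ∃ d, 1 / 8 ≤ d ∧ d ≤ 1 / 4 ∧ motP u = Pi.single 2 d := by
  rw [motP, mot_ph_self h0 (by linarith)]
  rcases le_total u 1 with h | h
  · exact ⟨_, by linarith only [h0], by linarith, (mot_i0 h0 h).1⟩
  · exact ⟨_, by linarith, by linarith, (mot_i1 h (by linarith)).1⟩

theorem mot_stA (R a : ℝ) : motSt R a 0 = (motP a, motQ a, Pi.single 0 R) := by
  rw [motSt, min_eq_left (by norm_num), max_eq_right (by norm_num), mot_Q2, ← Pi.single_add]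
  simp

theorem mot_stB (R : ℝ) {x : ℝ} (h : x ≤ 2) : motSt R 0 x =
    (motP x, Pi.single 1 (1 / 8 + x / 8), Pi.single 0 (1 / 8 + (R - 1 / 8) * (1 - x / 2))) := by
  rw [motSt, min_eq_left h, max_eq_right h, mot_Q2, mot_Q0, ← Pi.single_add, ← Pi.single_add,
    zero_add]

theorem mot_stC (R : ℝ) {x : ℝ} (h : 2 ≤ x) :
    motSt R 0 x = (motP x, Pi.single 1 (3 / 8), motQ x) := by
  rw [motSt, min_eq_right h, max_eq_left h, mot_Q0, ← Pi.single_add, zero_add]
  norm_num

theorem mot_sep {d : ℝ} : 1 / 8 ≤ d ∨ 1 / 8 ≤ 1 / 4 - d := by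
  rcases le_total (1 / 8) d with h | h
  · exact .inl h
  · exact .inr (by linarith)

theorem mot_loc (R α x : ℝ) (h0 : 3 / 8 ≤ R) (_h1 : R ≤ 1 / 2) (hx : 0 ≤ x) (e : α * x = 0) :
    Loc R (motSt R α x) := by
  rcases mul_eq_zero.1 e with rfl | rfl
  · rcases le_total x 2 with h | h
    · obtain ⟨d, d0, d1, e1⟩ := mot_Plow hx h
      have h2 : 0 ≤ (R - 1 / 8) * (1 - x / 2) := mul_nonneg (by linarith only [h0]) (by linarith only [h])
      have h3 : 0 ≤ (R - 1 / 8) * (x / 2) := mul_nonneg (by linarith only [h0]) (by linarith only [hx])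
      refine ⟨2, 1, 0, _, _, _, by rw [mot_stB R h, e1], by linarith only [d0], by linarith only [d1], by linarith only [hx],
        by linarith only [h], by linarith only [h2], by linarith only [h3], fun _ => rfl, ⟨.inl d0, .inl (by decide)⟩,
        ⟨.inl d0, .inl (by decide)⟩, ⟨.inl (by linarith only [hx]), .inl (by decide)⟩⟩
    · obtain ⟨a, b, d, hab, d0, d1, e1, e2⟩ := mot_form x
      refine ⟨a, 1, b, _, _, _, by rw [mot_stC R h, e1, e2], d0, by linarith only [d1], by norm_num,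
        le_rfl, by linarith only [d1], by linarith only [h0, d0], fun h => by linarith only [d0, h],
        ⟨.inr (by norm_num), .inr (by linarith only [d1])⟩, ⟨mot_sep, .inl hab⟩,
        ⟨.inl (by norm_num), .inr (by linarith only [d0])⟩⟩
  · obtain ⟨a, b, d, hab, d0, d1, e1, e2⟩ := mot_form α
    refine ⟨a, b, 0, _, _, _, by rw [mot_stA, e1, e2], d0, by linarith only [d1], by linarith only [d1],
      by linarith only [d0], by linarith only [h0], le_rfl, fun _ => rfl, ⟨mot_sep, .inl hab⟩,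
      ⟨.inr (by linarith only [h0]), .inr (by linarith only [h0, d1])⟩, ⟨.inr (by linarith only [h0]), .inr (by linarith only [h0, d0])⟩⟩

theorem mot_sq0 : motSq 0 0 = ((0 : ℤ) : ℝ) := by
  obtain ⟨d, -, -, e⟩ := mot_Plow (u := 0) le_rfl (by norm_num)
  simp [motSq, e, mot_Q0, mot_m0]

theorem mot_sq2 : motSq 2 0 = ((1 : ℤ) : ℝ) ∧ motSq 2 1 = 0 := by
  obtain ⟨d, -, -, e⟩ := mot_Plow (u := 2) (by norm_num) le_rfl
  simp [motSq, e, mot_Q2, mot_m0, mot_m1 (le_refl (1 / 8 : ℝ)), -one_div]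

theorem mot_lift1 (R : ℝ) (c : ℤ × ℤ) (α x : ℝ) (h0 : 3 / 8 ≤ R) (hx : 0 ≤ x) (e : α * x = 0) :
    (motTh1 c α x : Cir) = Psi c (eta True (motSt R α x) 0, eta True (motSt R α x) 1) := by
  rcases mul_eq_zero.1 e with rfl | rfl
  · rw [motTh1, AddCircle.coe_sub, AddCircle.coe_add, mot_lift, mot_lift, mot_lift, mot_sq0,
      mot_sq2.1, mot_psi_int, mot_psi_int, zero_add, sub_zero, ← mot_shift]
    congr 1
    rcases le_total x 2 with h | h
    · obtain ⟨d, d0, d1, e1⟩ := mot_Plow hx h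
      have h2 : 0 ≤ (R - 1 / 8) * (1 - x / 2) := mul_nonneg (by linarith only [h0]) (by linarith only [h])
      rw [max_eq_right h, mot_sq2.1, mot_sq2.2, mot_stB R h, e1]
      simp only [Int.cast_one, Int.cast_zero, add_zero, zero_add, eta, Fin.isValue, ne_eq, Fin.reduceEq, not_false_eq_true, Pi.single_eq_of_ne, mot_m0, zero_ne_one, ↓ reduceIte, Pi.single_eq_same, mot_m1 (show 1 / 8 ≤ 1 / 8 + (R - 1 / 8) * (1 - x / 2) by linarith only [h2]), mot_m1 (show 1 / 8 ≤ 1 / 8 + x / 8 by linarith only [hx]), one_ne_zero]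
    · rw [max_eq_left h, mot_stC R h]
      simp [eta, motSq, mot_m0, mot_m1 (show (1 : ℝ) / 8 ≤ 3 / 8 by norm_num), -one_div]
      ring
  · rw [motTh1, max_eq_right (by norm_num), add_sub_cancel_right, mot_lift, ← mot_shift, mot_stA]
    simp only [motSq, Fin.isValue, Int.cast_one, Int.cast_zero, add_zero, eta, ↓ reduceIte, Pi.single_eq_same, mot_m1 (show 1 / 8 ≤ R by linarith), ne_eq, one_ne_zero, not_false_eq_true, Pi.single_eq_of_ne, mot_m0]

theorem mot_red (α x : ℝ) (hx : 0 ≤ x) (e : α * x = 0) : ∃ α' x', |α'| ≤ 14 ∧ 0 ≤ x' ∧ x' ≤ 14 ∧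
    α' * x' = 0 ∧ (x = 0 → x' = 0) ∧ ∀ R, motSt R α' x' = motSt R α x := by
  rcases mul_eq_zero.1 e with rfl | rfl
  · rcases le_or_gt x 2 with h | h
    · exact ⟨0, x, by norm_num, hx, by linarith, zero_mul _, id, fun _ => rfl⟩
    · have a0 := mot_ph0 (x - 2)
      have a1 := mot_ph1 (x - 2)
      refine ⟨0, 2 + motPh (x - 2), by norm_num, by linarith, by linarith, zero_mul _,
        fun h' => by linarith, fun R => ?_⟩
      have e1 : motPh (2 + motPh (x - 2)) = motPh x := by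
        rw [mot_ph_eq (x - 2), ← mot_ph_per x ⌊(x - 2) / 12⌋]
        congr 1; ring
      rw [mot_stC R (by linarith), mot_stC R h.le, motP, motQ, e1]; rfl
  · refine ⟨motPh α, 0, ?_, le_rfl, by norm_num, mul_zero _, id, fun R => ?_⟩
    · rw [abs_of_nonneg (mot_ph0 α)]; linarith [mot_ph1 α]
    · rw [mot_stA, mot_stA, motP, motQ, mot_ph_ph]; rfl

theorem motion_exists : Nonempty Motion := by
  refine ⟨⟨motSt, motTh0, motTh1, fun R => ?_, mot_cTh, fun c => ?_, mot_loc,
    fun R α => by rw [mot_stA], mot_red, fun R c α => ?_, mot_lift1, fun α => ?_,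
    fun c α h => (mot_th_ne h α).trans (by norm_num), fun α x hx => ?_, fun α x hx => ?_,
    fun c α x hx => ?_⟩⟩
  · have h1 := mot_cP
    have h2 := mot_cQ
    have h3 : ∀ i : Fin 3, Continuous fun t : ℝ => (Pi.single i t : T3) := fun i =>
      continuous_single (A := fun _ : Fin 3 => ℝ) i
    exact Continuous.prodMk (by fun_prop) (Continuous.prodMk
      ((h2.comp continuous_fst).add ((h3 1).comp (by fun_prop)))
      ((h2.comp (by fun_prop)).add ((h3 0).comp (by fun_prop))))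
  · have h1 := mot_cTh (c - (1, 0))
    have h2 := mot_cTh (c - (0, 1))
    unfold motTh1; fun_prop
  · rw [mot_lift, mot_stA]; simp [eta, motSq]
  · rw [mot_th_zero]; exact (mot_W_est α).trans (by norm_num)
  · have h : ((1, 0) - (0, 1) : ℤ × ℤ) ≠ 0 := by decide
    have h1 := abs_le.1 (mot_W_est α)
    have h2 := abs_le.1 (mot_th_ne h (max x 2))
    have h3 := abs_le.1 (mot_th_ne h 2)
    rw [motTh1, sub_self, mot_th_zero, abs_le]
    constructor <;> linarith only [h1.1, h1.2, h2.1, h2.2, h3.1, h3.2]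
  · have h : ((0, 1) - (1, 0) : ℤ × ℤ) ≠ 0 := by decide
    have h1 := abs_le.1 (mot_W_est (max x 2))
    have h2 := abs_le.1 (mot_th_ne h α)
    have h3 := abs_le.1 (mot_W_est 2)
    have h4 : x ≤ max x 2 := le_max_left _ _
    have h5 : max x 2 ≤ x + 2 := max_le (by linarith only []) (by linarith only [hx])
    rw [motTh1, sub_self, mot_th_zero, mot_th_zero, abs_le]
    constructor <;> linarith only [h1.1, h1.2, h2.1, h2.2, h3.1, h3.2, h4, h5]
  · have h1 := abs_le.1 (mot_th_bd (c - (1, 0)) α)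
    have h2 := abs_le.1 (mot_th_bd (c - (0, 1)) (max x 2))
    have h3 := abs_le.1 (mot_th_bd (c - (0, 1)) 2)
    have h5 : max x 2 ≤ x + 2 := max_le (by linarith only []) (by linarith only [hx])
    rw [abs_of_nonneg (hx.trans (le_max_left x 2))] at h2
    rw [abs_two] at h3
    rw [motTh1, abs_le]
    constructor <;> linarith only [h1.1, h1.2, h2.1, h2.2, h3.1, h3.2, abs_nonneg α, hx, h5]

end Pool.Agent.MP_10b04c_gt.SR

end

-- part MP_10b04c_gt.H96.Low
section

/-!
The abstract lower bound.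
-/

set_option autoImplicit false

namespace Pool.Agent.MP_10b04c_gt.SR

open unitInterval Set Function Classical

/-- the integer attached to a reference coordinate -/
noncomputable def gf (mt hi : Prop) (X Xw O Ow E N : ℤ) : ℤ :=
  if hi then (if E + 1 ≤ X then -N else (if mt then 2 * Ow else 0) + N)
  else (if mt ∧ E + 1 ≤ Xw then N else 2 * O - N)

theorem low_face {mt hi : Prop} {X Xw O Ow E N : ℤ} {s t : ℝ} (hE : 0 ≤ E) (hN : N = 6 * E + 3)
    (ht : |t| ≤ 1) (hm : ¬ mt → t = 1)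
    (hX : hi → |(X : ℝ) - N * min (max (-s) 0) (max t 0)| ≤ E)
    (hO : ¬ hi → |(O : ℝ) - N * (max s 0 - max (-t) 0)| ≤ E)
    (hOw : mt → hi → |(Ow : ℝ) - N * (max t 0 - max (-s) 0)| ≤ E)
    (hXw : mt → ¬ hi → |(Xw : ℝ) - N * min (max (-t) 0) (max s 0)| ≤ E) :
    (s = 1 → 1 ≤ gf mt hi X Xw O Ow E N) ∧ (s = -1 → gf mt hi X Xw O Ow E N ≤ -1) := by
  obtain ⟨t1, t2⟩ := abs_le.1 ht
  have hE' : (0 : ℝ) ≤ E := by exact_mod_cast hE
  have hN' : (N : ℝ) = 6 * E + 3 := by exact_mod_cast hN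
  have N0 : (0 : ℝ) ≤ N := by linarith
  have p0 : (0 : ℝ) ≤ N * max t 0 := mul_nonneg N0 (le_max_right _ _)
  have p1 : (0 : ℝ) ≤ N * max (-t) 0 := mul_nonneg N0 (le_max_right _ _)
  have q0 : max t 0 ≤ 1 := max_le t2 zero_le_one
  have q1 : max (-t) 0 ≤ 1 := max_le (by linarith only [t1]) zero_le_one
  have m1 : max (1 : ℝ) 0 = 1 := max_eq_left zero_le_one
  have m2 : max (-1 : ℝ) 0 = 0 := max_eq_right (by norm_num)
  simp only [abs_le] at hX hO hOw hXw
  unfold gf
  constructor <;> rintro rfl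
  · rw [m2, min_eq_left (le_max_right _ _), mul_zero] at hX
    rw [m1, mul_sub] at hO
    rw [m2, sub_zero] at hOw
    rw [m1, min_eq_left q1] at hXw
    split_ifs with h1 h2 h3 h4
    · have : ((E + 1 : ℤ) : ℝ) ≤ X := by exact_mod_cast h2
      push_cast at this
      linarith only [(hX h1).2, this]
    · have : (1 : ℝ) ≤ 2 * Ow + N := by linarith [(hOw h3 h1).1]
      exact_mod_cast this
    · omega
    · omega
    · by_cases h5 : mt
      · have : (Xw : ℝ) ≤ E := by exact_mod_cast (show Xw ≤ E by have := not_and.1 h4 h5; omega)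
        have : (1 : ℝ) ≤ 2 * O - N := by linarith only [(hXw h5 h1).1, (hO h1).1, hN', this]
        exact_mod_cast this
      · have : (1 : ℝ) ≤ 2 * O - N := by
          have := (hO h1).1
          rw [hm h5, m2] at this
          linarith
        exact_mod_cast this
  · rw [neg_neg, m1, min_eq_right q0] at hX
    rw [m2, zero_sub, mul_neg] at hO
    rw [neg_neg, m1, mul_sub] at hOw
    rw [m2, min_eq_right (le_max_right _ _), mul_zero] at hXw
    split_ifs with h1 h2 h3 h4
    · omega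
    · have : (X : ℝ) ≤ E := by exact_mod_cast (show X ≤ E by omega)
      have : (2 * Ow + N : ℝ) ≤ -1 := by linarith only [(hOw h3 h1).2, (hX h1).1, hN', this]
      exact_mod_cast this
    · have : (X : ℝ) ≤ E := by exact_mod_cast (show X ≤ E by omega)
      have h6 := (hX h1).1
      rw [hm h3, m1] at h6
      linarith only [hE', hN', this, h6]
    · have : ((E + 1 : ℤ) : ℝ) ≤ Xw := by exact_mod_cast h4.2
      push_cast at this
      linarith [(hXw h4.1 h1).2]
    · have : (2 * O - N : ℝ) ≤ -1 := by linarith [(hO h1).2]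
      exact_mod_cast this

theorem low_fam {Z κ Y : Type} [TopologicalSpace Z] [TopologicalSpace κ] [DiscreteTopology κ]
    [TopologicalSpace Y] {F : κ → Z → Y} (hF : ∀ c, Continuous (F c)) {c : Z → κ}
    (hc : Continuous c) : Continuous fun z => F (c z) z :=
  (continuous_prod_of_discrete_left.2 hF : Continuous fun p : κ × Z => F p.1 p.2).comp
    (hc.prodMk continuous_id)

theorem eta_cont (w : Prop) (a : Fin 3) : Continuous fun q : St => eta w q a := by
  unfold eta m8
  split_ifs <;> fun_prop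

namespace Comb

variable {r : ℕ} {V : Type} (D : Comb r V) (Mo : Motion)

theorem R_le (v : V) : 3 / 8 ≤ D.R v ∧ D.R v ≤ 1 / 2 := by
  unfold R
  split_ifs <;> norm_num

theorem mate_ne {v : V} (h : D.mate v ≠ v) : D.mate (D.mate v) ≠ D.mate v := by
  rw [D.inv]
  exact h.symm

/-- admissible parameters -/
def Par (p : Fin r × V → ℝ × ℝ) : Prop :=
  ∀ i v, 0 ≤ (p (i, v)).2 ∧ (p (i, v)).1 * (p (i, v)).2 = 0 ∧ (¬ D.sg i v → (p (i, v)).2 = 0) ∧
    (D.mate v ≠ v → (p (i, v)).2 * (p (i, D.mate v)).2 = 0)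

noncomputable def tau (p : Fin r × V → ℝ × ℝ) (l : Fin r × V) : St :=
  Mo.st (D.R l.2) (p l).1 (p l).2

theorem tau_cont : Continuous (D.tau Mo) :=
  continuous_pi fun l => (Mo.c_st _).comp (continuous_apply l)

theorem tau_good {p : Fin r × V → ℝ × ℝ} (hp : D.Par p) : D.Good (D.tau Mo p) := by
  refine ⟨fun i v => Mo.loc _ _ _ (D.R_le v).1 (D.R_le v).2 (hp i v).1 (hp i v).2.1,
    fun i v h => ?_⟩
  refine (mul_eq_zero.1 ((hp i v).2.2.2 h)).imp (fun e => ?_) fun e => ?_
  · simp only [tau, e, Mo.rest, R, if_neg h]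
  · simp only [tau, e, Mo.rest, R, if_neg (D.mate_ne h)]

theorem K_compact [Fintype V] : IsCompact (D.tau Mo '' {p | D.Par p}) := by
  have hc : IsClosed {p | D.Par p} := by
    simp only [Par, ofPred_forall, ofPred_and]
    refine isClosed_iInter fun i => isClosed_iInter fun v =>
      (isClosed_le (by fun_prop) (by fun_prop)).inter ((isClosed_eq (by fun_prop)
        (by fun_prop)).inter ((isClosed_iInter fun _ => isClosed_eq (by fun_prop)
          (by fun_prop)).inter (isClosed_iInter fun _ => isClosed_eq (by fun_prop) (by fun_prop))))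
  have : D.tau Mo '' {p | D.Par p} = D.tau Mo '' ({p | D.Par p} ∩ Metric.closedBall 0 14) := by
    refine Subset.antisymm ?_ (image_mono inter_subset_left)
    rintro _ ⟨p, hp, rfl⟩
    choose α x h1 h2 h3 h4 h5 h6 using fun l : Fin r × V => Mo.red _ _ (hp l.1 l.2).1 (hp l.1 l.2).2.1
    refine ⟨fun l => (α l, x l), ⟨fun i v => ⟨h2 _, h4 _, fun h => h5 _ ((hp i v).2.2.1 h),
      fun h => ?_⟩, ?_⟩, funext fun l => h6 l _⟩
    · exact mul_eq_zero.2 ((mul_eq_zero.1 ((hp i v).2.2.2 h)).imp (h5 (i, v)) (h5 (i, D.mate v)))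
    · rw [mem_closedBall_zero_iff, pi_norm_le_iff_of_nonneg (by norm_num)]
      intro l
      rw [Prod.norm_def, max_le_iff]
      exact ⟨h1 l, abs_le.2 ⟨by linarith [h2 l], h3 l⟩⟩
  rw [this]
  exact ((isCompact_closedBall _ _).inter_left hc).image (D.tau_cont Mo)

/-- the box coordinate of the mate -/
noncomputable def sm (s : Fin r × V → ℝ) (v : V) : ℝ :=
  if D.mate v = v then 1 else s (D.i0 v, D.mate v)

/-- the parameters attached to a point of the box -/
noncomputable def par (N L : ℝ) (s : Fin r × V → ℝ) (l : Fin r × V) : ℝ × ℝ :=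
  if l.1 = D.i0 l.2 then (6 * (N * (max (s l) 0 - max (-D.sm s l.2) 0)),
    if D.tri l.2 then 6 * (N * min (max (-s l) 0) (max (D.sm s l.2) 0)) else 0)
  else (6 * (L * s l), 0)

theorem par_cont (N L : ℝ) : Continuous (D.par N L) := by
  refine continuous_pi fun l => ?_
  unfold par sm
  split_ifs <;> fun_prop

theorem sm_mate (s : Fin r × V → ℝ) {v : V} (h : D.mate v ≠ v) :
    D.sm s v = s (D.i0 v, D.mate v) ∧ D.sm s (D.mate v) = s (D.i0 v, v) := by
  rw [sm, sm, if_neg h, if_neg (D.mate_ne h), D.inv, D.i0_mate]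
  exact ⟨rfl, rfl⟩

theorem par_par {N : ℝ} (hN : 0 ≤ N) (L : ℝ) (s : Fin r × V → ℝ) : D.Par (D.par N L s) := by
  have k : ∀ a b : ℝ, (max a 0 - max (-b) 0) * min (max (-a) 0) (max b 0) = 0 := fun a b => by
    rcases le_total a 0 with h | h <;> rcases le_total b 0 with h' | h' <;>
      simp only [h, sup_of_le_right, Left.nonneg_neg_iff, h', sup_of_le_left, sub_neg_eq_add, zero_add, inf_of_le_right, mul_zero, Left.neg_nonpos_iff, sub_self, zero_mul, min_self, sub_zero, inf_of_le_left]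
  have k' : ∀ a b : ℝ, min (max (-a) 0) (max b 0) * min (max (-b) 0) (max a 0) = 0 := fun a b => by
    rcases le_total a 0 with h | h <;> simp only [Left.nonneg_neg_iff, h, sup_of_le_left, sup_of_le_right, le_sup_right, inf_of_le_right, mul_zero, Left.neg_nonpos_iff, inf_of_le_left, zero_mul]
  intro i v
  by_cases h1 : i = D.i0 v
  · by_cases h2 : D.tri v
    · refine ⟨?_, ?_, fun h => absurd ⟨h2, h1⟩ h, fun h => ?_⟩
      · simp only [par, if_pos h1, if_pos h2]
        positivity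
      · simp only [par, if_pos h1, if_pos h2]
        linear_combination 36 * N ^ 2 * k (s (i, v)) (D.sm s v)
      · have h3 : i = D.i0 (D.mate v) := by rw [D.i0_mate, h1]
        simp only [par, if_pos h2, if_pos h3, if_pos (D.tri_of _ (D.mate_ne h)),
          (D.sm_mate s h).1, (D.sm_mate s h).2, ← h1, if_true]
        linear_combination 36 * N ^ 2 * k' (s (i, v)) (s (i, D.mate v))
    · simp only [par, h1, ↓ reduceIte, h2, Std.le_refl, mul_zero, implies_true, ne_eq, zero_mul, and_self]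
  · simp only [par, h1, ↓ reduceIte, Std.le_refl, mul_zero, implies_true, ne_eq, zero_mul, and_self]

/-- real lifts of the counts on the legs of a detector -/
noncomputable def et (φ : Prop) (i : Fin r) (v : V) (q : Fin r × V → St) : ℝ × ℝ :=
  (if (φ ↔ D.fl i v) then eta (D.sg i v) (q (i, v)) 0 else 0, eta (D.sg i v) (q (i, v)) 1)

theorem et_cont (φ : Prop) (i : Fin r) (v : V) : Continuous (D.et φ i v) := by
  refine Continuous.prodMk ?_ ((eta_cont _ _).comp (continuous_apply _))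
  split_ifs
  exacts [(eta_cont _ _).comp (continuous_apply _), continuous_const]

/-- real lifts of the windings -/
noncomputable def th (φ : Prop) (i : Fin r) (v : V) (c : ℤ × ℤ) (p : Fin r × V → ℝ × ℝ) : ℝ :=
  if (φ ↔ D.fl i v) then
    (if D.sg i v then Mo.th1 c (p (i, v)).1 (p (i, v)).2 else Mo.th0 c (p (i, v)).1) else 0

theorem th_cont (φ : Prop) (i : Fin r) (v : V) (c : ℤ × ℤ) : Continuous (D.th Mo φ i v c) := by
  unfold th
  split_ifs
  exacts [(Mo.c_th1 c).comp (continuous_apply _),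
    (Mo.c_th0 c).comp (continuous_fst.comp (continuous_apply _)), continuous_const]

theorem th_lift (φ : Prop) (i : Fin r) (v : V) (c : ℤ × ℤ) {p : Fin r × V → ℝ × ℝ}
    (hp : D.Par p) : (D.th Mo φ i v c p : Cir) = Psi c (D.et φ i v (D.tau Mo p)) := by
  unfold th et
  split_ifs with h1 h2
  · rw [Mo.lift1 _ c _ _ (D.R_le v).1 (hp i v).1 (hp i v).2.1, eq_true h2]
    rfl
  · rw [Mo.lift0 (D.R v), eq_false h2, tau, (hp i v).2.2.1 h2]
  · rw [Psi_int]
    rfl

/-- the second coordinate of a detector -/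
noncomputable def tg (i1 : Fin r → Fin r) (l : Fin r × V) : Fin r :=
  if l.1 = D.i0 l.2 then i1 l.1 else l.1

theorem low_det {B : Type} [TopologicalSpace B] (X : Test D B) {i1 : Fin r → Fin r}
    (h1 : ∀ i, i1 i ≠ i) {U : Set (Fin r → B)} (hh : ∀ i i', (pr U i).Homotopic (pr U i'))
    {Z : Type} [TopologicalSpace Z] (q : Z → {q // D.Good q}) (hq : Continuous q)
    (hU : ∀ z, X.T (q z) ∈ U) :
    ∃ (κ : Fin r × V → Z → ℤ × ℤ) (β : Fin r × V → ℤ × ℤ → Z → ℝ), (∀ l, Continuous (κ l)) ∧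
      (∀ l c, Continuous (β l c)) ∧
      (∀ l c z, (β l c z : Cir) = Psi (c - κ l z) (D.et (D.fl l.1 l.2) (D.tg i1 l) l.2 (q z).1) -
        Psi c (D.et (D.fl l.1 l.2) (D.i0 l.2) l.2 (q z).1)) ∧
      ∀ v z, D.mate v ≠ v → (κ (D.i0 v, v) z).1 + (κ (D.i0 v, D.mate v) z).1 = 1 := by
  have hH : ∀ i i', ∃ H : C(I × Z, B), (∀ z, H (0, z) = X.T (q z) i) ∧
      ∀ z, H (1, z) = X.T (q z) i' := fun i i' => by
    obtain ⟨H⟩ := hh i i'
    exact ⟨⟨fun p => H (p.1, ⟨X.T (q p.2), hU _⟩), H.continuous.comp (continuous_fst.prodMk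
      ((X.T.continuous.comp (hq.comp continuous_snd)).subtype_mk _))⟩,
      fun z => H.apply_zero _, fun z => H.apply_one _⟩
  choose H H0 H1 using hH
  have hc : ∀ φ i v, Continuous fun z => D.et φ i v (q z).1 := fun φ i v =>
    (D.et_cont φ i v).comp (continuous_subtype_val.comp hq)
  choose κ β c1 c2 c3 c4 using fun l : Fin r × V => detector (H (D.i0 l.2) (D.tg i1 l))
    (X.a (D.fl l.1 l.2) l.2) (X.b l.2) (X.wedge _ _) _ _ (hc (D.fl l.1 l.2) (D.i0 l.2) l.2)
    (hc (D.fl l.1 l.2) (D.tg i1 l) l.2)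
    (fun z => by rw [H0]; exact ⟨X.ha _ _ _ _, X.hb _ _ _⟩)
    (fun z => by rw [H1]; exact ⟨X.ha _ _ _ _, X.hb _ _ _⟩)
  refine ⟨κ, β, c1, c2, c3, fun v z h => ?_⟩
  obtain ⟨Λ, a0, a1, a2⟩ := c4 (D.i0 v, v) z
  obtain ⟨Λ', b0, b1, b2⟩ := c4 (D.i0 v, D.mate v) z
  have f1 : ∀ i, D.fl i v = False := fun i => eq_false fun e => e.1 (D.tri_of v h)
  have f2 : ∀ i, D.fl i (D.mate v) = False := fun i =>
    eq_false fun e => e.1 (D.tri_of _ (D.mate_ne h))
  simp only [tg, et, D.i0_mate, f1, f2, if_true] at a0 a1 a2 b0 b1 b2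
  have k := key_lift Λ Λ' ⟨fun t => X.nu v (H (D.i0 v) (i1 (D.i0 v)) (t, z)), by fun_prop⟩
    fun t => by rw [a2, b2]; exact X.hnu v _ h
  simp only [ContinuousMap.coe_mk, H0, H1, X.hnuT _ _ _ h, a0, a1, b0, b1, if_true,
    if_neg (h1 _)] at k
  have : (((κ (D.i0 v, v) z).1 + (κ (D.i0 v, D.mate v) z).1 : ℤ) : ℝ) = (1 : ℤ) := by
    push_cast
    linarith only [k]
  exact_mod_cast this

/-- the integer attached to a coordinate of the box -/
noncomputable def G (E N : ℤ) (κ : Fin r × V → ℤ × ℤ) (ω : Fin r × V → ℤ × ℤ → ℤ)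
    (l : Fin r × V) : ℤ :=
  if l.1 = D.i0 l.2 then
    gf (D.mate l.2 ≠ l.2) (D.tri l.2 ∧ 1 ≤ (κ l).1) (ω l (0, 1)) (ω (l.1, D.mate l.2) (0, 1))
      (ω l (if D.tri l.2 then (1, 0) else 0)) (ω (l.1, D.mate l.2) (1, 0)) E N
  else -ω l (κ l)

theorem G_cont (E N : ℤ) {Z : Type} [TopologicalSpace Z] {κ : Fin r × V → Z → ℤ × ℤ}
    {ω : Fin r × V → ℤ × ℤ → Z → ℤ} (hκ : ∀ l, Continuous (κ l)) (hω : ∀ l c, Continuous (ω l c))
    (l : Fin r × V) : Continuous fun z => D.G E N (fun l => κ l z) (fun l c => ω l c z) l := by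
  unfold G
  by_cases h : l.1 = D.i0 l.2
  · simp only [if_pos h]
    exact (continuous_of_discreteTopology (f := fun y : (ℤ × ℤ) × ℤ × ℤ × ℤ × ℤ =>
      gf (D.mate l.2 ≠ l.2) (D.tri l.2 ∧ 1 ≤ y.1.1) y.2.1 y.2.2.1 y.2.2.2.1 y.2.2.2.2 E N)).comp
        ((hκ l).prodMk ((hω _ _).prodMk ((hω _ _).prodMk ((hω _ _).prodMk (hω _ _)))))
  · simp only [if_neg h]
    exact (low_fam (hω l) (hκ l)).neg

theorem low_sign {i1 : Fin r → Fin r} (h1 : ∀ i, i1 i ≠ i) {C E N : ℤ} (hC : 0 ≤ C)
    (hE : E = C + 16) (hN : N = 6 * E + 3) {L : ℝ} (hL : L = 12 * N + E + 1)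
    {κ : Fin r × V → ℤ × ℤ} {ω : Fin r × V → ℤ × ℤ → ℤ} {β : Fin r × V → ℤ × ℤ → ℝ}
    {s : Fin r × V → ℝ} (hs : ∀ l, |s l| ≤ 1)
    (hβ : ∀ l, |β l (κ l)| ≤ C ∧ |β l 0| ≤ C ∧ |β l (1, 0)| ≤ C ∧ |β l (0, 1)| ≤ C)
    (hω : ∀ l c, (ω l c : ℝ) = β l c + D.th Mo (D.fl l.1 l.2) (D.i0 l.2) l.2 c (D.par N L s) -
      D.th Mo (D.fl l.1 l.2) (D.tg i1 l) l.2 (c - κ l) (D.par N L s))
    (key : ∀ v, D.mate v ≠ v → (κ (D.i0 v, v)).1 + (κ (D.i0 v, D.mate v)).1 = 1)
    (l : Fin r × V) : (s l = 1 → 1 ≤ D.G E N κ ω l) ∧ (s l = -1 → D.G E N κ ω l ≤ -1) := by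
  have hE' : (E : ℝ) = C + 16 := by exact_mod_cast hE
  have hC' : (0 : ℝ) ≤ C := by exact_mod_cast hC
  have hN' : (N : ℝ) = 6 * E + 3 := by exact_mod_cast hN
  have N0 : (0 : ℝ) ≤ N := by linarith
  have hp := D.par_par N0 L s
  have hsm : ∀ v, |D.sm s v| ≤ 1 := fun v => by
    unfold sm
    split_ifs
    exacts [abs_one.le, hs _]
  have eX : ∀ v, D.tri v → 1 ≤ (κ (D.i0 v, v)).1 → |(ω (D.i0 v, v) (0, 1) : ℝ) -
      N * min (max (-s (D.i0 v, v)) 0) (max (D.sm s v) 0)| ≤ E := fun v h h' => by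
    have a := Mo.estB (D.par N L s (D.i0 v, v)).1 _ (hp (D.i0 v) v).1
    have b := Mo.est0' ((0, 1) - κ (D.i0 v, v)) (D.par N L s (i1 (D.i0 v), v)).1
      fun e => by have := congrArg Prod.fst e; simp at this; omega
    have c := (hβ (D.i0 v, v)).2.2.2
    have d := hω (D.i0 v, v) (0, 1)
    simp only [th, tg, fl, sg, h, h1, if_true, not_true, and_true, and_false, if_false] at d
    have e : (D.par N L s (D.i0 v, v)).2 = 6 * (N * min (max (-s (D.i0 v, v)) 0)
      (max (D.sm s v) 0)) := by simp only [par, h, if_true]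
    rw [abs_le] at a b c ⊢
    constructor <;> linarith only [a.1, a.2, b.1, b.2, c.1, c.2, hE', d, e]
  have eO : ∀ v, ¬ (D.tri v ∧ 1 ≤ (κ (D.i0 v, v)).1) →
      |(ω (D.i0 v, v) (if D.tri v then (1, 0) else 0) : ℝ) -
        N * (max (s (D.i0 v, v)) 0 - max (-D.sm s v) 0)| ≤ E := fun v h' => by
    have e : (D.par N L s (D.i0 v, v)).1 = 6 * (N * (max (s (D.i0 v, v)) 0 -
      max (-D.sm s v) 0)) := by simp only [par, if_true]
    by_cases h : D.tri v
    · have a := Mo.estA (D.par N L s (D.i0 v, v)).1 _ (hp (D.i0 v) v).1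
      have b := Mo.est0' ((1, 0) - κ (D.i0 v, v)) (D.par N L s (i1 (D.i0 v), v)).1
        fun e => h' ⟨h, by have := congrArg Prod.fst e; simp at this; omega⟩
      have c := (hβ (D.i0 v, v)).2.2.1
      have d := hω (D.i0 v, v) (1, 0)
      simp only [th, tg, fl, sg, h, h1, if_true, not_true, and_true, and_false, if_false] at d
      rw [if_pos h]
      rw [abs_le] at a b c ⊢
      constructor <;> linarith only [a.1, a.2, b.1, b.2, c.1, c.2, hE', e, d]
    · have a := Mo.est0 (D.par N L s (D.i0 v, v)).1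
      have c := (hβ (D.i0 v, v)).2.1
      have d := hω (D.i0 v, v) 0
      simp only [th, tg, fl, sg, h, h1, if_true, not_false_iff, and_true, and_false, if_false,
        iff_false, not_true] at d
      rw [if_neg h]
      rw [abs_le] at a c ⊢
      constructor <;> linarith only [a.1, a.2, c.1, c.2, hE', e, d]
  obtain ⟨i, v⟩ := l
  unfold G
  by_cases h : i = D.i0 v
  · subst h
    rw [if_pos rfl]
    refine low_face (by omega) hN (hsm v) (fun h => if_pos (not_not.1 h)) (fun h => eX v h.1 h.2)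
      (eO v) (fun h h' => ?_) fun h h' => ?_
    · have := eO (D.mate v) fun e => by
        have := key v h
        have := e.2
        have := h'.2
        rw [D.i0_mate] at *
        omega
      rwa [if_pos (D.tri_of _ (D.mate_ne h)), D.i0_mate, (D.sm_mate s h).2,
        ← (D.sm_mate s h).1] at this
    · have := eX (D.mate v) (D.tri_of _ (D.mate_ne h)) (by
        have := key v h
        have := not_and.1 h' (D.tri_of v h)
        rw [D.i0_mate]
        dsimp only at *
        omega)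
      rwa [D.i0_mate, (D.sm_mate s h).2, ← (D.sm_mate s h).1] at this
  · rw [if_neg h]
    have a := Mo.est0 (D.par N L s (i, v)).1
    have c := (hβ (i, v)).1
    have d := hω (i, v) (κ (i, v))
    have e : (D.par N L s (i, v)).1 = 6 * (L * s (i, v)) := by simp only [par, h, if_false]
    have b : |D.th Mo False (D.i0 v) v (κ (i, v)) (D.par N L s)| ≤ 12 * N + 8 := by
      by_cases h2 : D.tri v
      · have := Mo.est1 (κ (i, v)) (D.par N L s (D.i0 v, v)).1 _ (hp (D.i0 v) v).1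
        simp only [th, fl, sg, h2, if_true, not_true, and_true]
        refine this.trans ?_
        simp only [par, h2, if_true]
        have m : ∀ t : ℝ, |t| ≤ 1 → 0 ≤ max t 0 ∧ max t 0 ≤ 1 := fun t ht =>
          ⟨le_max_right _ _, max_le (abs_le.1 ht).2 zero_le_one⟩
        have m1 := m _ (hs (D.i0 v, v))
        have m2 := m (-D.sm s v) (by rw [abs_neg]; exact hsm v)
        have m3 := (min_le_right (max (-s (D.i0 v, v)) 0) _).trans (m _ (hsm v)).2
        have m4 : |6 * (N * (max (s (D.i0 v, v)) 0 - max (-D.sm s v) 0))| ≤ 6 * N :=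
          abs_le.2 ⟨by nlinarith only [m1.1, hE', hC', hN', m2], by nlinarith only [m2.1, hE', hC', hN', m1]⟩
        nlinarith only [hE', hC', hN', m3, m4]
      · simp only [th, fl, h2, not_false_iff, and_true, iff_true, if_false, abs_zero]
        linarith only [hE', hC', hN']
    have f : D.fl i v = False := eq_false fun e => h e.2
    have f' : D.th Mo False i v 0 (D.par N L s) = Mo.th0 0 (D.par N L s (i, v)).1 := by
      simp only [th, f, sg, h, and_false, if_true, if_false]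
    simp only [tg, f, h, if_false, sub_self, f'] at d
    rw [abs_le] at a b c
    constructor <;> intro hl <;> rw [hl] at e
    · have : (1 : ℝ) ≤ -ω (i, v) (κ (i, v)) := by linarith only [a.1, b.2, c.2, hL, hE', e, d]
      exact_mod_cast this
    · have : (-ω (i, v) (κ (i, v)) : ℝ) ≤ -1 := by linarith only [a.2, b.1, c.1, hL, hE', e, d]
      exact_mod_cast this

theorem low [Fintype V] {B : Type} [TopologicalSpace B] (X : Test D B) (hr : 2 ≤ r) {n : ℕ}
    (U : Fin (n + 1) → Set (Fin r → B)) (hU : ∀ j, IsOpen (U j)) (hcov : ⋃ j, U j = univ)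
    (hh : ∀ j i i', (pr (U j) i).Homotopic (pr (U j) i')) : r * Fintype.card V ≤ n := by
  obtain ⟨Mo⟩ := motion_exists
  have : Nontrivial (Fin r) := Fin.nontrivial_iff_two_le.2 hr
  choose i1 h1 using fun i : Fin r => exists_ne i
  let K := D.tau Mo '' {p | D.Par p}
  have : CompactSpace K := isCompact_iff_compactSpace.1 (D.K_compact Mo)
  let q : K → {q // D.Good q} := fun z => ⟨z.1, by
    obtain ⟨_, p, hp, rfl⟩ := z
    exact D.tau_good Mo hp⟩
  have hq : Continuous q := continuous_subtype_val.subtype_mk _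
  let Z : Fin (n + 1) → Set K := fun j => (fun z => X.T (q z)) ⁻¹' U j
  have hZ : ∀ j, IsOpen (Z j) := fun j => (hU j).preimage (X.T.continuous.comp hq)
  obtain ⟨f, hf⟩ := PartitionOfUnity.exists_isSubordinate isClosed_univ Z hZ fun z _ => by
    obtain ⟨j, hj⟩ := mem_iUnion.1 (hcov.ge (mem_univ (X.T (q z))))
    exact mem_iUnion.2 ⟨j, hj⟩
  choose κ β c1 c2 c3 c4 using fun j => D.low_det X h1 (hh j) (fun z : Z j => q z.1)
    (hq.comp continuous_subtype_val) fun z => z.2
  have hb : ∀ j l, ∃ C : ℝ, ∀ z : Z j, z.1 ∈ tsupport (f j) → |β j l (κ j l z) z| +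
      |β j l 0 z| + |β j l (1, 0) z| + |β j l (0, 1) z| ≤ C := fun j l => by
    have hc : IsCompact ((↑) ⁻¹' tsupport (f j) : Set (Z j)) :=
      Topology.IsInducing.subtypeVal.isCompact_preimage' (isClosed_tsupport _).isCompact
        (by rw [Subtype.range_coe]; exact hf j)
    obtain ⟨C, hC⟩ := hc.bddAbove_image (((((low_fam (c2 j l) (c1 j l)).abs.add
      (c2 j l 0).abs).add (c2 j l (1, 0)).abs).add (c2 j l (0, 1)).abs).continuousOn)
    exact ⟨C, fun z hz => hC ⟨z, hz, rfl⟩⟩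
  choose Cb hCb using hb
  obtain ⟨C', hC'⟩ := (finite_range fun y : Fin (n + 1) × Fin r × V => Cb y.1 y.2).bddAbove
  obtain ⟨C, hC⟩ := exists_nat_ge C'
  let N : ℤ := 6 * (C + 16) + 3
  let L : ℝ := 12 * N + (C + 16 : ℤ) + 1
  have N0 : (0 : ℝ) ≤ N := by exact_mod_cast (show 0 ≤ N by omega)
  let π : (Fin r × V → ℝ) → K := fun s => ⟨D.tau Mo (D.par N L s), _, D.par_par N0 L s, rfl⟩
  have hπ : Continuous π := ((D.tau_cont Mo).comp (D.par_cont _ _)).subtype_mk _
  let z : ∀ j, π ⁻¹' Z j → Z j := fun j s => ⟨π s.1, s.2⟩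
  have hz : ∀ j, Continuous (z j) := fun j => (hπ.comp continuous_subtype_val).subtype_mk _
  have hp : ∀ j, Continuous fun s : π ⁻¹' Z j => D.par N L s.1 := fun j =>
    (D.par_cont _ _).comp continuous_subtype_val
  choose ω d1 d2 using fun j l c => exists_int (f := fun s : π ⁻¹' Z j => β j l c (z j s) +
      D.th Mo (D.fl l.1 l.2) (D.i0 l.2) l.2 c (D.par N L s.1) -
      D.th Mo (D.fl l.1 l.2) (D.tg i1 l) l.2 (c - κ j l (z j s)) (D.par N L s.1))
    ((((c2 j l c).comp (hz j)).add ((D.th_cont Mo _ _ _ c).comp (hp j))).sub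
      (low_fam (fun c' => (D.th_cont Mo _ _ _ c').comp (hp j))
        (continuous_const.sub ((c1 j l).comp (hz j))))) fun s => by
      rw [AddCircle.coe_sub, AddCircle.coe_add, c3, D.th_lift Mo _ _ _ _ (D.par_par N0 L _),
        D.th_lift Mo _ _ _ _ (D.par_par N0 L _)]
      exact sub_eq_zero.2 (sub_add_cancel _ _)
  have hts : ∀ j, tsupport (fun s => f j (π s)) ⊆ π ⁻¹' tsupport (f j) := fun j =>
    closure_minimal (fun s hs => subset_tsupport _ hs) ((isClosed_tsupport _).preimage hπ)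
  have sg : ∀ j (s : π ⁻¹' Z j) l, f j (π s) ≠ 0 → (∀ l', |s.1 l'| ≤ 1) → _ := fun j s l h0 hs =>
    D.low_sign Mo h1 (C := C) (E := C + 16) (N := N) (L := L) (by omega) rfl rfl rfl
      (κ := fun l => κ j l (z j s)) (ω := fun l c => ω j l c s) (β := fun l c => β j l c (z j s))
      hs (fun l => by
        have a := (hCb j l (z j s) (subset_tsupport _ h0)).trans ((hC' ⟨(j, l), rfl⟩).trans hC)
        have b1 := abs_nonneg (β j l (κ j l (z j s)) (z j s))
        have b2 := abs_nonneg (β j l 0 (z j s))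
        have b3 := abs_nonneg (β j l (1, 0) (z j s))
        have b4 := abs_nonneg (β j l (0, 1) (z j s))
        push_cast
        refine ⟨?_, ?_, ?_, ?_⟩ <;> linarith only [a, b2, b3, b4, b1]) (fun l c => d2 j l c s) (fun v => c4 j v _) l
  have := miranda (fun j s => f j (π s)) (fun j => π ⁻¹' Z j)
    (fun j s => D.G (C + 16) N (fun l => κ j l (z j s)) fun l c => ω j l c s)
    (fun j => (f j).continuous.comp hπ) (fun j s => f.nonneg j _)
    (fun s => by rw [← finsum_eq_sum_of_fintype]; exact f.sum_eq_one (mem_univ _))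
    (fun j => (hZ j).preimage hπ) (fun j => (hts j).trans (preimage_mono (hf j)))
    (fun j l => D.G_cont _ _ (fun l => (c1 j l).comp (hz j)) (d1 j) l)
    (fun j s l a b => (sg j s l a b).1) fun j s l a b => (sg j s l a b).2
  simpa only [ge_iff_le, Fintype.card_prod, Fintype.card_fin] using this

end Comb

end Pool.Agent.MP_10b04c_gt.SR

end

-- part MP_10b04c_gt.H96.One
section

/-!
The abstract lower bound for the category.
-/

set_option autoImplicit false

namespace Pool.Agent.MP_10b04c_gt.SR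

open unitInterval Set Function Classical

namespace Comb

variable {r : ℕ} {V : Type} (D : Comb r V) (Mo : Motion)

/-- the cell round which the counts run -/
noncomputable def oc (i : Fin r) (v : V) : ℤ × ℤ := if D.sg i v then (1, 0) else 0

theorem one_det {B : Type} [TopologicalSpace B] (X : Test D B) (i : Fin r) {U : Set B}
    (hh : ((ContinuousMap.id B).restrict U).Nullhomotopic) {Z : Type} [TopologicalSpace Z]
    (q : Z → {q // D.Good q}) (hq : Continuous q) (hU : ∀ z, X.T (q z) i ∈ U) (v : V) :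
    ∃ γ : Z → ℝ, Continuous γ ∧
      ∀ z, (γ z : Cir) = Psi (D.oc i v) (D.et (D.fl i v) i v (q z).1) := by
  obtain ⟨y, h⟩ := hh
  obtain ⟨H⟩ := h.symm
  let G : C(I × Z, B) := ⟨fun p => H (p.1, ⟨X.T (q p.2) i, hU _⟩), H.continuous.comp
    (continuous_fst.prodMk (((continuous_apply i).comp
      (X.T.continuous.comp (hq.comp continuous_snd))).subtype_mk _))⟩
  have G0 : ∀ z, G (0, z) = y := fun z => H.apply_zero _
  have G1 : ∀ z, G (1, z) = X.T (q z) i := fun z => H.apply_one _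
  obtain ⟨s, hs⟩ := QuotientAddGroup.mk_surjective (X.a (D.fl i v) v y)
  obtain ⟨t, ht⟩ := QuotientAddGroup.mk_surjective (X.b v y)
  obtain ⟨κ, β, c1, c2, c3, -⟩ := detector G (X.a (D.fl i v) v) (X.b v) (X.wedge _ _)
    (fun _ => (s, t)) (fun z => D.et (D.fl i v) i v (q z).1) continuous_const
    ((D.et_cont _ i v).comp (continuous_subtype_val.comp hq))
    (fun z => by rw [G0]; exact ⟨hs.symm, ht.symm⟩)
    (fun z => by rw [G1]; exact ⟨X.ha _ _ _ _, X.hb _ _ _⟩)
  choose θ hθ using fun c => QuotientAddGroup.mk_surjective (Psi c (s, t))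
  refine ⟨fun z => β (κ z + D.oc i v) z + θ (κ z + D.oc i v),
    low_fam (F := fun c z => β c z + θ c) (fun c => (c2 c).add continuous_const)
      (c1.add continuous_const), fun z => ?_⟩
  rw [AddCircle.coe_add, c3, hθ, add_sub_cancel_left, sub_add_cancel]

theorem one_par (L : ℝ) (s : V → ℝ) : D.Par fun l => (6 * (L * s l.2), 0) := fun i v => by simp

theorem one_est (i : Fin r) (v : V) (L : ℝ) (s : V → ℝ) :
    |D.th Mo (D.fl i v) i v (D.oc i v) (fun l => (6 * (L * s l.2), 0)) - L * s v| ≤ 8 := by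
  have e : L * s v = 6 * (L * s v) / 6 := by ring
  unfold th oc
  rw [if_pos Iff.rfl]
  split_ifs
  · conv_lhs => rw [e]
    simpa only [ne_eq, OfNat.ofNat_ne_zero, not_false_eq_true, mul_div_cancel_left₀] using Mo.estA (6 * (L * s v)) 0 le_rfl
  · conv_lhs => rw [e]
    simpa only [ne_eq, OfNat.ofNat_ne_zero, not_false_eq_true, mul_div_cancel_left₀] using Mo.est0 (6 * (L * s v))

theorem low_one [Fintype V] {B : Type} [TopologicalSpace B] (X : Test D B) (i : Fin r) {n : ℕ}
    (U : Fin (n + 1) → Set B) (hU : ∀ j, IsOpen (U j)) (hcov : ⋃ j, U j = univ)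
    (hh : ∀ j, ((ContinuousMap.id B).restrict (U j)).Nullhomotopic) : Fintype.card V ≤ n := by
  obtain ⟨Mo⟩ := motion_exists
  let K := D.tau Mo '' {p | D.Par p}
  have : CompactSpace K := isCompact_iff_compactSpace.1 (D.K_compact Mo)
  let q : K → {q // D.Good q} := fun z => ⟨z.1, by
    obtain ⟨_, p, hp, rfl⟩ := z
    exact D.tau_good Mo hp⟩
  have hq : Continuous q := continuous_subtype_val.subtype_mk _
  let Z : Fin (n + 1) → Set K := fun j => (fun z => X.T (q z) i) ⁻¹' U j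
  have hZ : ∀ j, IsOpen (Z j) := fun j =>
    (hU j).preimage ((continuous_apply i).comp (X.T.continuous.comp hq))
  obtain ⟨f, hf⟩ := PartitionOfUnity.exists_isSubordinate isClosed_univ Z hZ fun z _ => by
    obtain ⟨j, hj⟩ := mem_iUnion.1 (hcov.ge (mem_univ (X.T (q z) i)))
    exact mem_iUnion.2 ⟨j, hj⟩
  choose γ c1 c2 using fun j v => D.one_det X i (hh j) (fun z : Z j => q z.1)
    (hq.comp continuous_subtype_val) (fun z => z.2) v
  have hb : ∀ j v, ∃ C : ℝ, ∀ z : Z j, z.1 ∈ tsupport (f j) → |γ j v z| ≤ C := fun j v => by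
    have hc : IsCompact ((↑) ⁻¹' tsupport (f j) : Set (Z j)) :=
      Topology.IsInducing.subtypeVal.isCompact_preimage' (isClosed_tsupport _).isCompact
        (by rw [Subtype.range_coe]; exact hf j)
    obtain ⟨C, hC⟩ := hc.bddAbove_image (c1 j v).abs.continuousOn
    exact ⟨C, fun z hz => hC ⟨z, hz, rfl⟩⟩
  choose Cb hCb using hb
  obtain ⟨C, hC⟩ := (finite_range fun y : Fin (n + 1) × V => Cb y.1 y.2).bddAbove
  let P : (V → ℝ) → Fin r × V → ℝ × ℝ := fun s l => (6 * ((C + 9) * s l.2), 0)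
  have hP : Continuous P := by fun_prop
  let π : (V → ℝ) → K := fun s => ⟨D.tau Mo (P s), _, D.one_par _ s, rfl⟩
  have hπ : Continuous π := ((D.tau_cont Mo).comp hP).subtype_mk _
  let z : ∀ j, π ⁻¹' Z j → Z j := fun j s => ⟨π s.1, s.2⟩
  have hz : ∀ j, Continuous (z j) := fun j => (hπ.comp continuous_subtype_val).subtype_mk _
  choose ω d1 d2 using fun j v => exists_int (f := fun s : π ⁻¹' Z j =>
      D.th Mo (D.fl i v) i v (D.oc i v) (P s.1) - γ j v (z j s))
    (((D.th_cont Mo _ _ _ _).comp (hP.comp continuous_subtype_val)).sub ((c1 j v).comp (hz j)))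
    fun s => by
      rw [AddCircle.coe_sub, c2, D.th_lift Mo _ _ _ _ (D.one_par _ _)]
      exact sub_self _
  have hts : ∀ j, tsupport (fun s => f j (π s)) ⊆ π ⁻¹' tsupport (f j) := fun j =>
    closure_minimal (fun s hs => subset_tsupport _ hs) ((isClosed_tsupport _).preimage hπ)
  have sg : ∀ j (s : π ⁻¹' Z j) v, f j (π s) ≠ 0 → |(ω j v s : ℝ) - (C + 9) * s.1 v| ≤ C + 8 :=
    fun j s v h0 => by
      have a := (hCb j v (z j s) (subset_tsupport _ h0)).trans (hC ⟨(j, v), rfl⟩)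
      have b := D.one_est Mo i v (C + 9) s.1
      rw [d2]
      rw [abs_le] at a b ⊢
      constructor <;> linarith only [a.1, a.2, b.1, b.2]
  exact miranda (fun j s => f j (π s)) (fun j => π ⁻¹' Z j) (fun j s v => ω j v s)
    (fun j => (f j).continuous.comp hπ) (fun j s => f.nonneg j _)
    (fun s => by rw [← finsum_eq_sum_of_fintype]; exact f.sum_eq_one (mem_univ _))
    (fun j => (hZ j).preimage hπ) (fun j => (hts j).trans (preimage_mono (hf j)))
    (fun j v => d1 j v)
    (fun j s v a _ e => by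
      have h := (abs_le.1 (sg j s v a)).1
      rw [e] at h
      have : (1 : ℝ) ≤ ω j v s := by linarith
      exact_mod_cast this)
    fun j s v a _ e => by
      have h := (abs_le.1 (sg j s v a)).2
      rw [e] at h
      have : (ω j v s : ℝ) ≤ -1 := by linarith
      exact_mod_cast this

end Comb

end Pool.Agent.MP_10b04c_gt.SR

end

-- part MP_10b04c_gt.H96.PsiF
section

set_option autoImplicit false

namespace Pool.Agent.MP_10b04c_gt.SR

open unitInterval Set Function Classical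

section psif

variable {n m k : ℕ} {src tgt : Fin m → Fin n}

theorem psif_rep (p : GraphSpace src tgt) :
    (∃ v, p = bdV src tgt v) ∨ ∃ e t, p = bdE src tgt e t :=
  (bd_nf p).imp id fun ⟨e, t, _, _, h⟩ => ⟨e, t, h⟩

theorem psif_R_nonneg (v : Fin n) (p : GraphSpace src tgt) : 0 ≤ bdR v p := by
  by_cases h : p = bdV src tgt v
  · rw [h, bdR_V, if_pos rfl]
  · exact (bdR_pos h).le

theorem psif_m8_le (t : ℝ) : m8 t ≤ 1 := min_le_left _ _

theorem psif_m8_nonneg {t : ℝ} (h : 0 ≤ t) : 0 ≤ m8 t := le_min zero_le_one (by linarith)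

theorem psif_m8_one {t : ℝ} (h : 1 / 8 ≤ t) : m8 t = 1 := min_eq_left (by linarith)

theorem psif_m8_small {t : ℝ} (h : t ≤ 1 / 8) : m8 t = 8 * t := min_eq_right (by linarith)

theorem psif_m8_cont : Continuous m8 := by unfold m8; fun_prop

theorem psif_one : ((1 : ℝ) : Cir) = 0 := AddCircle.coe_period 1

theorem psif_sum (f : Fin k → ℝ) : ((∑ a, f a : ℝ) : Cir) = ∑ a, (f a : Cir) :=
  map_sum (QuotientAddGroup.mk' (AddSubgroup.zmultiples (1 : ℝ))) f Finset.univ

noncomputable def psifMu (v : Fin n) (x : Fin k → GraphSpace src tgt) (a : Fin k) : ℝ :=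
  ∏ b, if b = a then 1 else m8 (bdR v (x b))

noncomputable def psifDen (v : Fin n) (x : Fin k → GraphSpace src tgt) (a : Fin k) : ℝ :=
  max (m8 (bdR v (x a))) (psifMu v x a)

noncomputable def psifBet (h : Half m) : GraphSpace src tgt → ℝ :=
  bdLift (fun _ => 0)
    (fun e t => if e = h.1 then 8 * max 0 (min (gco h.2 t) (1 / 2 - gco h.2 t)) else 0)
    (fun e => by unfold gco; split_ifs <;> norm_num only [Icc.coe_zero, sub_zero, inf_of_le_right, sup_of_le_left, mul_zero, inf_of_le_left, max_self])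
    (fun e => by unfold gco; split_ifs <;> norm_num only [Icc.coe_one, sub_self, sub_zero, inf_of_le_left, max_self, mul_zero, inf_of_le_right, sup_of_le_left])

noncomputable def psifGam (e : Fin m) : GraphSpace src tgt → ℝ :=
  bdLift (fun _ => 0) (fun e' t => if e' = e then m8 (min t (1 - t)) else 0)
    (fun e => by split_ifs <;> simp only [m8, Icc.coe_zero, sub_zero, zero_le_one, inf_of_le_left, mul_zero, inf_of_le_right]) (fun e => by split_ifs <;> simp only [m8, Icc.coe_one, sub_self, zero_le_one, inf_of_le_right, mul_zero])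

noncomputable def psifE (h : Half m) (x : Fin k → GraphSpace src tgt) (a : Fin k) : Cir :=
  if bdR (vx src tgt h) (x a) ≤ 1 / 8 then
    ((psifBet h (x a) / psifDen (vx src tgt h) x a : ℝ) : Cir) else 0

noncomputable def psifN (e : Fin m) (x : Fin k → GraphSpace src tgt) (a : Fin k) : ℝ :=
  psifGam e (x a) / (psifDen (src e) x a * psifDen (tgt e) x a)

theorem psif_bet_E (h : Half m) (e : Fin m) (t : I) : psifBet h (bdE src tgt e t) =
    if e = h.1 then 8 * max 0 (min (gco h.2 t) (1 / 2 - gco h.2 t)) else 0 := rfl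

theorem psif_gam_E (e e' : Fin m) (t : I) : psifGam e (bdE src tgt e' t) =
    if e' = e then m8 (min t (1 - t)) else 0 := rfl

theorem psif_bet_cont (h : Half m) : Continuous (psifBet (src := src) (tgt := tgt) h) :=
  bdLift_cont fun e => by
    have := c_gco h.2
    split_ifs <;> fun_prop

theorem psif_gam_cont (e : Fin m) : Continuous (psifGam (src := src) (tgt := tgt) e) :=
  bdLift_cont fun e' => by
    have := psif_m8_cont
    split_ifs <;> fun_prop

theorem psif_fac (v : Fin n) (x : Fin k → GraphSpace src tgt) (a b : Fin k) :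
    0 ≤ (if b = a then 1 else m8 (bdR v (x b))) ∧ (if b = a then 1 else m8 (bdR v (x b))) ≤ 1 := by
  split_ifs
  · exact ⟨zero_le_one, le_rfl⟩
  · exact ⟨psif_m8_nonneg (psif_R_nonneg _ _), psif_m8_le _⟩

theorem psif_mu_le (v : Fin n) (x : Fin k → GraphSpace src tgt) (a : Fin k) : psifMu v x a ≤ 1 :=
  Finset.prod_le_one (fun b _ => (psif_fac v x a b).1) fun b _ => (psif_fac v x a b).2

theorem psif_mu_le' (v : Fin n) (x : Fin k → GraphSpace src tgt) {a b : Fin k} (h : b ≠ a) :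
    psifMu v x a ≤ m8 (bdR v (x b)) := by
  rw [psifMu, ← Finset.mul_prod_erase _ _ (Finset.mem_univ b), if_neg h]
  exact mul_le_of_le_one_right (psif_m8_nonneg (psif_R_nonneg _ _))
    (Finset.prod_le_one (fun b _ => (psif_fac v x a b).1) fun b _ => (psif_fac v x a b).2)

theorem psif_den_one {v : Fin n} {x : Fin k → GraphSpace src tgt} {a : Fin k}
    (h : 1 / 8 ≤ bdR v (x a)) : psifDen v x a = 1 := by
  rw [psifDen, psif_m8_one h]
  exact max_eq_left (psif_mu_le v x a)

theorem psif_den_pos (v : Fin n) (x : bdF k (GraphSpace src tgt)) (a : Fin k) :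
    0 < psifDen v x.1 a := by
  have hp : ∀ p : GraphSpace src tgt, p ≠ bdV src tgt v → 0 < m8 (bdR v p) := fun p hp =>
    lt_min one_pos (by linarith [bdR_pos hp])
  by_cases h : x.1 a = bdV src tgt v
  · refine lt_max_of_lt_right (Finset.prod_pos fun b _ => ?_)
    split_ifs with hb
    · exact one_pos
    · exact hp _ fun h' => hb (x.2 (h'.trans h.symm))
  · exact lt_max_of_lt_left (hp _ h)

theorem psif_den_cont (v : Fin n) (a : Fin k) :
    Continuous fun x : bdF k (GraphSpace src tgt) => psifDen v x.1 a := by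
  have hc : ∀ b, Continuous fun x : bdF k (GraphSpace src tgt) => m8 (bdR v (x.1 b)) := fun b =>
    psif_m8_cont.comp ((bdR_cont v).comp (bd_ev b))
  refine (hc a).max (continuous_finsetProd _ fun b _ => ?_)
  split_ifs
  · exact continuous_const
  · exact hc b

theorem psif_den_perm (v : Fin n) (x : Fin k → GraphSpace src tgt) (g : Equiv.Perm (Fin k))
    (a : Fin k) : psifDen v (x ∘ g) a = psifDen v x (g a) := by
  unfold psifDen psifMu
  rw [← Equiv.prod_comp g fun c => if c = g a then 1 else m8 (bdR v (x c))]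
  simp only [comp_apply, g.injective.eq_iff]

theorem psif_bet_near {h : Half m} {p : GraphSpace src tgt} (hp : bdR (vx src tgt h) p ≤ 1 / 8) :
    psifBet h p = 0 ∨ psifBet h p = m8 (bdR (vx src tgt h) p) := by
  rcases psif_rep p with ⟨v, rfl⟩ | ⟨e, t, rfl⟩
  · exact .inl rfl
  rw [psif_bet_E, psif_m8_small hp]
  split_ifs with he
  swap
  · exact .inl rfl
  obtain ⟨e', b⟩ := h
  obtain rfl : e = e' := he
  have h0 := t.2.1
  have h1 := t.2.2
  rw [bdR_E] at hp ⊢
  by_cases hs : gco b t ≤ 1 / 8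
  · right
    congr 1
    cases b <;> simp only [gco, vx, if_true, Bool.false_eq_true, if_false] at hs ⊢
    · rw [min_eq_left (by linarith only [hs]), max_eq_right h0, min_eq_left (by split_ifs <;> linarith only [hs, h1])]
    · rw [min_eq_left (by linarith), max_eq_right (by linarith only [h1]),
        min_eq_right (by split_ifs <;> linarith only [hs])]
  · left
    rw [max_eq_left (min_le_of_right_le ?_), mul_zero]
    cases b <;> simp only [gco, vx, if_true, Bool.false_eq_true, if_false, min_le_iff] at hs hp ⊢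
    · rcases hp with hp | hp
      · exact (hs hp).elim
      · split_ifs at hp <;> linarith only [hp]
    · rcases hp with hp | hp
      · split_ifs at hp <;> linarith only [hp]
      · exact (hs hp).elim

theorem psif_bet_excl {h h' : Half m} (hne : h ≠ h') (p : GraphSpace src tgt) :
    psifBet h p = 0 ∨ psifBet h' p = 0 := by
  rcases psif_rep p with ⟨v, rfl⟩ | ⟨e, t, rfl⟩
  · exact .inl rfl
  rw [psif_bet_E, psif_bet_E]
  by_cases he : e = h.1
  swap
  · exact .inl (if_neg he)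
  by_cases he' : e = h'.1
  swap
  · exact .inr (if_neg he')
  rw [if_pos he, if_pos he']
  have hb : h.2 ≠ h'.2 := fun hb => hne (Prod.ext (he.symm.trans he') hb)
  have hs : gco h.2 t + gco h'.2 t = 1 := by
    revert hb
    cases h.2 <;> cases h'.2 <;> simp [gco]
  rcases le_total (1 / 2) (gco h.2 t) with h1 | h1
  · left
    rw [max_eq_left (min_le_of_right_le (by linarith only [h1])), mul_zero]
  · right
    rw [max_eq_left (min_le_of_right_le (by linarith only [hs, h1])), mul_zero]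

theorem psif_E_cont (h : Half m) (a : Fin k) :
    Continuous fun x : bdF k (GraphSpace src tgt) => psifE h x.1 a := by
  refine Continuous.if_le ?_ continuous_const ((bdR_cont _).comp (bd_ev a)) continuous_const ?_
  · exact (AddCircle.continuous_mk' 1).comp (((psif_bet_cont h).comp (bd_ev a)).div
      (psif_den_cont _ a) fun x => (psif_den_pos _ x a).ne')
  · intro x hx
    rw [psif_den_one hx.ge, div_one]
    rcases psif_bet_near hx.le with h1 | h1
    · rw [h1]; rfl
    · rw [h1, psif_m8_one hx.ge, psif_one]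

theorem psif_E_ne {h : Half m} {x : Fin k → GraphSpace src tgt} {a : Fin k}
    (hE : psifE h x a ≠ 0) : psifBet h (x a) ≠ 0 ∧
      ∀ b, b ≠ a → m8 (bdR (vx src tgt h) (x a)) < m8 (bdR (vx src tgt h) (x b)) := by
  unfold psifE at hE
  split_ifs at hE with hp
  swap
  · exact (hE rfl).elim
  have h0 : psifBet h (x a) ≠ 0 := fun h0 => hE (by rw [h0, zero_div]; rfl)
  refine ⟨h0, fun b hb => lt_of_lt_of_le ?_ (psif_mu_le' _ x hb)⟩
  by_contra hlt
  have h1 := (psif_bet_near hp).resolve_left h0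
  rw [psifDen, max_eq_left (not_lt.1 hlt), ← h1, div_self h0] at hE
  exact hE psif_one

theorem psif_N (e : Fin m) (he : src e ≠ tgt e) (x : Fin k → GraphSpace src tgt) (a : Fin k) :
    ((psifN e x a : ℝ) : Cir) = psifE (e, false) x a + psifE (e, true) x a := by
  have hz : psifGam e (x a) = 0 → psifBet (e, false) (x a) = 0 → psifBet (e, true) (x a) = 0 →
      ((psifN e x a : ℝ) : Cir) = psifE (e, false) x a + psifE (e, true) x a := by
    intro h1 h2 h3
    simp [psifN, psifE, h1, h2, h3]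
  rcases psif_rep (x a) with ⟨v, hv⟩ | ⟨e', t, ht⟩
  · exact hz (by rw [hv]; rfl) (by rw [hv]; rfl) (by rw [hv]; rfl)
  by_cases hee : e' = e
  swap
  · exact hz (by rw [ht, psif_gam_E, if_neg hee]) (by rw [ht, psif_bet_E, if_neg hee])
      (by rw [ht, psif_bet_E, if_neg hee])
  subst hee
  have h0 := t.2.1
  have h1 := t.2.2
  have r0 : bdR (src e') (x a) = t := by
    rw [ht, bdR_E, if_pos rfl, if_neg he.symm, min_eq_left h1]
  have r1 : bdR (tgt e') (x a) = 1 - t := by
    rw [ht, bdR_E, if_neg he, if_pos rfl, min_eq_right (by linarith)]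
  have g0 : psifGam e' (x a) = m8 (min t (1 - t)) := by rw [ht, psif_gam_E, if_pos rfl]
  have b0 : psifBet (e', false) (x a) = 8 * max 0 (min (t : ℝ) (1 / 2 - t)) := by
    rw [ht, psif_bet_E, if_pos rfl]; rfl
  have b1 : psifBet (e', true) (x a) = 8 * max 0 (min (1 - t : ℝ) (1 / 2 - (1 - t))) := by
    rw [ht, psif_bet_E, if_pos rfl]; rfl
  have v0 : vx src tgt (e', false) = src e' := rfl
  have v1 : vx src tgt (e', true) = tgt e' := rfl
  rw [psifN, psifE, psifE, v0, v1, r0, r1, g0, b0, b1]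
  by_cases c0 : (t : ℝ) ≤ 1 / 8
  · rw [if_pos c0, if_neg (by linarith only [c0]), add_zero, psif_den_one (v := tgt e') (by linarith only [r1, c0]), mul_one,
      min_eq_left (by linarith only [c0]), min_eq_left (by linarith only [c0]), max_eq_right h0, psif_m8_small c0]
  by_cases c1 : 1 - (t : ℝ) ≤ 1 / 8
  · rw [if_neg c0, if_pos c1, zero_add, psif_den_one (v := src e') (by linarith only [r0, c1]), one_mul,
      min_eq_right (by linarith only [c1]), min_eq_left (by linarith only [c1]), max_eq_right (by linarith only [h1]),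
      psif_m8_small c1]
  · rw [if_neg c0, if_neg c1, add_zero, psif_den_one (v := src e') (by linarith only [r0, c0]),
      psif_den_one (v := tgt e') (by linarith only [r1, c1]), psif_m8_one (le_min (by linarith only [c0]) (by linarith only [c1])),
      mul_one, div_one, psif_one]

theorem psif_R_leg (v : Fin n) (h : Half m) {s : ℝ} (h0 : 0 ≤ s) (h1 : s ≤ 1 / 2) :
    (vx src tgt h = v → bdR v (leg src tgt h s) = s) ∧
      (vx src tgt h ≠ v → 1 / 2 ≤ bdR v (leg src tgt h s)) := by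
  rw [leg, bdR_E, leg_coe _ h0 h1]
  obtain ⟨e, _ | _⟩ := h <;> simp only [gco, vx, if_true, Bool.false_eq_true, if_false]
  · refine ⟨fun h => ?_, fun h => ?_⟩
    · rw [if_pos h, min_eq_left (by split_ifs <;> linarith only [h1])]
    · rw [if_neg h]
      exact le_min (by norm_num) (by split_ifs <;> linarith only [h1])
  · refine ⟨fun h => ?_, fun h => ?_⟩
    · rw [if_pos h, min_eq_right (by split_ifs <;> linarith only [h1]), sub_sub_cancel]
    · rw [if_neg h]
      exact le_min (by split_ifs <;> linarith only [h1]) (by norm_num)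

theorem psif_bet_leg (g h : Half m) {s : ℝ} (h0 : 0 ≤ s) (h1 : s ≤ 1 / 2) :
    psifBet g (leg src tgt h s) = if h = g then 8 * min s (1 / 2 - s) else 0 := by
  rw [leg, psif_bet_E, leg_coe _ h0 h1]
  obtain ⟨e, b⟩ := h
  obtain ⟨e', b'⟩ := g
  by_cases he : e = e'
  · subst he
    cases b <;> cases b' <;> simp only [gco, if_true, Bool.false_eq_true, if_false, sub_sub_cancel,
      Prod.mk.injEq, true_and, Bool.true_eq_false]
    · rw [max_eq_right (le_min h0 (by linarith))]
    · rw [max_eq_left (min_le_of_right_le (by linarith only [h1])), mul_zero]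
    · rw [max_eq_left (min_le_of_right_le (by linarith)), mul_zero]
    · rw [max_eq_right (le_min h0 (by linarith))]
  · rw [if_neg he, if_neg fun h => he (congrArg Prod.fst h)]

theorem psif_gam_leg (e : Fin m) (h : Half m) {s : ℝ} (h0 : 0 ≤ s) (h1 : s ≤ 1 / 2) :
    psifGam e (leg src tgt h s) = if h.1 = e then m8 s else 0 := by
  rw [leg, psif_gam_E, leg_coe _ h0 h1]
  congr 2
  unfold gco
  split_ifs
  · rw [sub_sub_cancel, min_eq_right (by linarith)]
  · exact min_eq_left (by linarith only [h1])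

end psif

theorem psi_exists {n m : ℕ} (src tgt : Fin m → Fin n) (k : ℕ) : PsiSt src tgt k := by
  have h1 : ∀ h : Half m, ∃ G : C(UConf k (GraphSpace src tgt), Cir),
      ∀ x, G (bdMk x) = ∑ a, psifE h x.1 a := fun h =>
    bd_desc bdMk_oq (continuous_finsetSum _ fun a _ => psif_E_cont h a) fun x y e => by
      obtain ⟨g, rfl⟩ := bdMk_eq.1 e
      rw [← Equiv.sum_comp g]
      refine Finset.sum_congr rfl fun a _ => ?_
      rw [psifE, psifE, ← psif_den_perm]
      rfl
  have h2 : ∀ e : Fin m, ∃ G : C(UConf k (GraphSpace src tgt), ℝ),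
      ∀ x, G (bdMk x) = ∑ a, psifN e x.1 a := fun e =>
    bd_desc bdMk_oq (continuous_finsetSum _ fun a _ => ((psif_gam_cont e).comp (bd_ev a)).div
      ((psif_den_cont _ a).mul (psif_den_cont _ a))
      fun x => (mul_pos (psif_den_pos _ x a) (psif_den_pos _ x a)).ne') fun x y e => by
      obtain ⟨g, rfl⟩ := bdMk_eq.1 e
      rw [← Equiv.sum_comp g]
      refine Finset.sum_congr rfl fun a _ => ?_
      rw [psifN, psifN, ← psif_den_perm, ← psif_den_perm]
      rfl
  choose ψ hψ using h1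
  choose ν hν using h2
  refine ⟨ψ, ν, fun h h' y hne hv => ?_, fun e y he => ?_, fun x h s hx hs => ?_⟩
  · obtain ⟨x, rfl⟩ := bdMk_oq.surjective y
    by_contra hc
    rw [not_or, hψ, hψ] at hc
    obtain ⟨a, -, ha⟩ := Finset.exists_ne_zero_of_sum_ne_zero hc.1
    obtain ⟨b, -, hb⟩ := Finset.exists_ne_zero_of_sum_ne_zero hc.2
    obtain ⟨a1, a2⟩ := psif_E_ne ha
    obtain ⟨b1, b2⟩ := psif_E_ne hb
    by_cases hab : b = a
    · subst hab
      exact (psif_bet_excl hne _).elim a1 b1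
    · rw [← hv] at b2
      exact lt_asymm (a2 b hab) (b2 a (Ne.symm hab))
  · obtain ⟨x, rfl⟩ := bdMk_oq.surjective y
    rw [hψ, hψ, hν, psif_sum, ← Finset.sum_add_distrib]
    exact Finset.sum_congr rfl fun a _ => psif_N e he x.1 a
  · have hR := fun v a => psif_R_leg (src := src) (tgt := tgt) v (h a) (hx a).1 (hx a).2.1
    have hlt : ∀ v a, bdR v (x.1 a) < 1 / 8 → vx src tgt (h a) = v ∧ s a < 1 / 8 := by
      intro v a ha
      rw [(hx a).2.2] at ha
      by_cases hv : vx src tgt (h a) = v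
      · exact ⟨hv, by rwa [(hR v a).1 hv] at ha⟩
      · linarith [(hR v a).2 hv]
    have hden : ∀ v a, psifDen v x.1 a = 1 := by
      intro v a
      rcases le_or_gt (1 / 8) (bdR v (x.1 a)) with ha | ha
      · exact psif_den_one ha
      have hm : psifMu v x.1 a = 1 := Finset.prod_eq_one fun b _ => by
        split_ifs with hb
        · rfl
        · refine psif_m8_one (not_lt.1 fun hb' => ?_)
          obtain ⟨a1, a2⟩ := hlt v a ha
          obtain ⟨b1, b2⟩ := hlt v b hb'
          rcases hs b a hb (b1.trans a1.symm) with h3 | h3 <;> linarith only [b2, h3, a2]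
      rw [psifDen, hm]
      exact max_eq_right (psif_m8_le _)
    refine ⟨fun g => ?_, fun e _ => ?_⟩
    · rw [hψ, psif_sum]
      refine Finset.sum_congr rfl fun a _ => ?_
      rw [psifE, hden, div_one, (hx a).2.2, psif_bet_leg g _ (hx a).1 (hx a).2.1]
      by_cases hg : h a = g
      · rw [if_pos hg, if_pos hg, (hR _ a).1 (by rw [hg])]
        split_ifs with h8
        · rw [psif_m8_small h8, min_eq_left (by linarith only [h8])]
        · rw [psif_m8_one (by linarith), psif_one]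
      · rw [if_neg hg, if_neg hg]
        split_ifs <;> rfl
    · rw [hν]
      refine Finset.sum_congr rfl fun a _ => ?_
      rw [psifN, hden, hden, mul_one, div_one, (hx a).2.2, psif_gam_leg e _ (hx a).1 (hx a).2.1]

end Pool.Agent.MP_10b04c_gt.SR

end

-- part MP_10b04c_gt.H96.Geo
section

set_option autoImplicit false

namespace Pool.Agent.MP_10b04c_gt.SR

open unitInterval Set Function Classical

section geo

variable {n m : ℕ} {src tgt : Fin m → Fin n}

noncomputable def geoStar (src tgt : Fin m → Fin n) (l : Fin 3 → Half m) (t : T3) :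
    GraphSpace src tgt :=
  if t 1 + t 2 ≤ t 0 then leg src tgt (l 0) (t 0 - t 1 - t 2)
  else if t 2 ≤ t 1 then leg src tgt (l 1) (min (t 1 - t 2) (t 1 + t 2 - t 0))
  else leg src tgt (l 2) (min (t 2 - t 1) (t 1 + t 2 - t 0))

theorem geoStar_cont {l : Fin 3 → Half m} {w : Fin n} (h : ∀ a, vx src tgt (l a) = w) :
    Continuous (geoStar src tgt l) := by
  refine Continuous.if_le ((leg_cont src tgt _).comp (by fun_prop))
    (Continuous.if_le ((leg_cont src tgt _).comp (by fun_prop))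
      ((leg_cont src tgt _).comp (by fun_prop)) (by fun_prop) (by fun_prop) fun t e => ?_)
    (by fun_prop) (by fun_prop) fun t e => ?_
  · rw [leg_nonpos _ _ _ (min_le_of_left_le (by linarith)),
      leg_nonpos _ _ _ (min_le_of_left_le (by linarith)), h, h]
  · rw [leg_nonpos _ _ _ (show t 0 - t 1 - t 2 ≤ 0 by linarith), h]
    split_ifs <;> rw [leg_nonpos _ _ _ (min_le_of_right_le (by linarith)), h]

theorem geoStar_single {l : Fin 3 → Half m} {w : Fin n} (h : ∀ a, vx src tgt (l a) = w)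
    (a : Fin 3) {d : ℝ} (hd : 0 ≤ d) : geoStar src tgt l (Pi.single a d) = leg src tgt (l a) d := by
  rcases hd.eq_or_lt with rfl | hd'
  · rw [leg_nonpos _ _ _ le_rfl, h]
    simp [geoStar, leg_nonpos _ _ _ le_rfl, h]
  · fin_cases a <;> simp [geoStar, hd, hd'.not_ge]

theorem geo_m8_single (a b : Fin 3) (d : ℝ) :
    m8 ((Pi.single a d : T3) b) = if a = b then m8 d else 0 := by
  by_cases h : a = b
  · subst h; simp
  · rw [Pi.single_eq_of_ne (Ne.symm h), if_neg h]; simp only [m8, mul_zero, zero_le_one, inf_of_le_right]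

theorem geo_m8_one {d : ℝ} (h : 1 / 8 ≤ d) : m8 d = 1 := min_eq_left (by linarith)

theorem geo_nat (x : ℝ) (N : ℕ) : ((x + N : ℝ) : Cir) = x := by
  have : ((N : ℝ) : Cir) = 0 := (AddCircle.coe_eq_zero_iff _).2 ⟨N, by simp⟩
  rw [AddCircle.coe_add, this, add_zero]

variable {r j : ℕ} {V : Type} (D : Legs src tgt r j V)

noncomputable def geoLg (i : Fin r) (v : V) : Fin 3 → Half m :=
  if D.fl i v then update (D.l v) 0 (D.l4 v) else D.l v

theorem geoLg_vx (i : Fin r) (v : V) (a : Fin 3) : vx src tgt (geoLg D i v a) = D.vt v := by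
  unfold geoLg
  split_ifs with h
  · by_cases e : a = 0
    · rw [e, update_self, D.l4_vx v h.1]
    · rw [update_of_ne e, D.l_vx]
  · exact D.l_vx v a

theorem geoLg_inj (i : Fin r) (v : V) : Injective (geoLg D i v) := by
  unfold geoLg
  split_ifs with h
  · intro a b e
    by_cases ea : a = 0 <;> by_cases eb : b = 0
    · rw [ea, eb]
    · rw [ea, update_self, update_of_ne eb] at e
      exact (D.l4_ne v b h.1 e).elim
    · rw [eb, update_self, update_of_ne ea] at e
      exact (D.l4_ne v a h.1 e.symm).elim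
    · rw [update_of_ne ea, update_of_ne eb] at e
      exact D.l_inj v e
  · exact D.l_inj v

theorem geoLg_tri (i : Fin r) {v : V} (h : D.tri v) : geoLg D i v = D.l v :=
  if_neg fun a => a.1 h

theorem geoLg_one (i : Fin r) (v : V) : geoLg D i v 1 = D.l v 1 := by
  unfold geoLg
  split_ifs
  · exact update_of_ne one_ne_zero _ _
  · rfl

theorem geo_mate {v : V} (h : D.mate v ≠ v) : D.mate (D.mate v) ≠ D.mate v := by
  rw [D.inv]; exact h.symm

theorem geo_tri {v : V} (h : D.tri v) : D.tri (D.mate v) := by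
  by_cases e : D.mate v = v
  · rwa [e]
  · exact D.tri_of _ (geo_mate D e)

theorem geo_rel {u u' w w' : V} (h1 : w = u ∨ w = D.mate u) (h2 : w' = u' ∨ w' = D.mate u')
    (h3 : w' = w ∨ w' = D.mate w) : u' = u ∨ u' = D.mate u := by
  have i1 := D.inv u
  have i2 := D.inv u'
  have i3 := D.inv w
  grind

theorem geo_rel' {u v w : V} (h1 : w = u ∨ w = D.mate u) (h2 : u = v ∨ u = D.mate v)
    (h3 : w ≠ v) : w = D.mate v ∧ D.mate u ≠ u := by
  have i1 := D.inv u
  have i2 := D.inv v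
  grind

theorem geo_ne {v : V} (h : D.mate v ≠ v) : D.l (D.mate v) 0 ≠ D.l v 0 := fun e =>
  h (D.vt_inj (by rw [← D.l_vx _ 0, e, D.l_vx]))

theorem geo_half {v : V} (h : D.mate v ≠ v) : ∃ e, src e ≠ tgt e ∧
    ((D.l v 0 = (e, false) ∧ D.l (D.mate v) 0 = (e, true)) ∨
      (D.l v 0 = (e, true) ∧ D.l (D.mate v) 0 = (e, false))) := by
  have h1 := D.mate_leg v h
  have h2 := geo_ne D h
  have h3 : vx src tgt (D.l (D.mate v) 0) ≠ vx src tgt (D.l v 0) := by
    rw [D.l_vx, D.l_vx]; exact fun e => h (D.vt_inj e)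
  generalize D.l v 0 = g at *
  generalize D.l (D.mate v) 0 = g' at *
  obtain ⟨e, b⟩ := g
  obtain ⟨e', b'⟩ := g'
  obtain rfl : e' = e := h1
  cases b <;> cases b'
  · exact (h2 rfl).elim
  · exact ⟨e', fun a => h3 a.symm, .inl ⟨rfl, rfl⟩⟩
  · exact ⟨e', h3, .inr ⟨rfl, rfl⟩⟩
  · exact (h2 rfl).elim

theorem geo_half' {v : V} (h : D.mate v ≠ v) (g : Half m) :
    g.1 = (D.l v 0).1 ↔ g = D.l v 0 ∨ g = D.l (D.mate v) 0 := by
  obtain ⟨e, -, ⟨a, b⟩ | ⟨a, b⟩⟩ := geo_half D h <;> rw [a, b] <;> obtain ⟨e', _ | _⟩ := g <;> simp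

noncomputable def geoY (q : Fin r × V → St) (i : Fin r) (u : V) : ℝ := D.R u - (q (i, u)).2.2 0

noncomputable def geoAct (q : Fin r × V → St) (i : Fin r) (u : V) : V :=
  if geoY D q i (D.mate u) ≤ geoY D q i u then u else D.mate u

noncomputable def geoPk (s : Fin j) : ℝ := 7 / 16 + ((s : ℕ) + 1) / (16 * (j + 2))

theorem geoPk_bd (s : Fin j) : 7 / 16 < geoPk s ∧ geoPk s < 1 / 2 := by
  have h1 : ((s : ℕ) : ℝ) < j := by exact_mod_cast s.2
  have h2 : (((s : ℕ) : ℝ) + 1) / (16 * (j + 2)) < 1 / 16 := by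
    rw [div_lt_div_iff₀ (by positivity) (by norm_num)]; linarith
  have h3 : 0 < (((s : ℕ) : ℝ) + 1) / (16 * (j + 2)) := by positivity
  unfold geoPk
  constructor <;> linarith only [h3, h2]

theorem geoPk_inj : Injective (geoPk : Fin j → ℝ) := fun s s' h => by
  unfold geoPk at h
  rw [add_right_inj, div_left_inj' (by positivity), add_left_inj] at h
  exact Fin.ext (by exact_mod_cast h)

noncomputable def geoPos (v₀ : V) (q : Fin r × V → St) (i : Fin r) :
    (V × Bool) ⊕ Fin j → GraphSpace src tgt :=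
  Sum.elim (fun p => geoStar src tgt (geoLg D i p.1) (if p.2 then (q (i, p.1)).2.1 else (q (i, p.1)).1))
    fun s => (D.own i s).elim (leg src tgt (D.l v₀ 1) (geoPk s))
      fun u => geoStar src tgt (geoLg D i (geoAct D q i u)) (q (i, geoAct D q i u)).2.2

variable {D}

theorem geoY_nonneg {q : Fin r × V → St} (hq : D.Good q) (i : Fin r) (u : V) : 0 ≤ geoY D q i u := by
  obtain ⟨a, b, c, x, y, z, e, -, -, -, -, h0, h1, -⟩ := hq.1 i u
  rw [geoY, e]
  by_cases h : c = 0
  · subst h; simpa using h1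
  · simpa only [Fin.isValue, Pi.single_eq_of_ne (Ne.symm h), sub_zero] using h0.trans h1

theorem geoY_zero {q : Fin r × V → St} (hq : D.Good q) {i : Fin r} {u : V} (hu : D.mate u ≠ u) :
    geoY D q i u = 0 ↔ (q (i, u)).2.2 = Pi.single 0 (1 / 2) := by
  rw [geoY, Comb.R, if_neg hu]
  refine ⟨fun h => ?_, fun h => by rw [h]; simp⟩
  obtain ⟨a, b, c, x, y, z, e, -⟩ := hq.1 i u
  rw [e] at h ⊢
  by_cases hc : c = 0
  · subst hc
    obtain rfl : z = 1 / 2 := by simp only [Pi.single_eq_same] at h; linarith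
    rfl
  · simp [Pi.single_eq_of_ne (Ne.symm hc)] at h

theorem geoY_or {q : Fin r × V → St} (hq : D.Good q) (i : Fin r) {u : V} (hu : D.mate u ≠ u) :
    geoY D q i u = 0 ∨ geoY D q i (D.mate u) = 0 :=
  (hq.2 i u hu).imp (geoY_zero hq hu).2 (geoY_zero hq (geo_mate D hu)).2

theorem geoAct_or (q : Fin r × V → St) (i : Fin r) (u : V) :
    geoAct D q i u = u ∨ geoAct D q i u = D.mate u := by
  unfold geoAct
  split_ifs
  exacts [.inl rfl, .inr rfl]

theorem geoAct_rest {q : Fin r × V → St} (hq : D.Good q) (i : Fin r) {u : V} (hu : D.mate u ≠ u) :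
    (q (i, D.mate (geoAct D q i u))).2.2 = Pi.single 0 (1 / 2) := by
  have h1 := geoY_nonneg hq i u
  have h2 := geoY_nonneg hq i (D.mate u)
  have h3 := geoY_or hq i hu
  unfold geoAct
  split_ifs with h
  · exact (geoY_zero hq (geo_mate D hu)).1 (by rcases h3 with a | a <;> linarith only [h2, h, a])
  · rw [D.inv]
    exact (geoY_zero hq hu).1 (by rcases h3 with a | a <;> linarith [not_le.1 h])

theorem geoPos_cont (v₀ : V) (i : Fin r) (p : (V × Bool) ⊕ Fin j) :
    Continuous fun q : {q // D.Good q} => geoPos D v₀ q.1 i p := by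
  have c : ∀ v, Continuous fun q : {q // D.Good q} => q.1 (i, v) := fun v =>
    (continuous_apply _).comp continuous_subtype_val
  have cs := fun v => geoStar_cont (geoLg_vx D i v)
  rcases p with ⟨v, _ | _⟩ | s
  · exact (cs v).comp (c v).fst
  · exact (cs v).comp (c v).snd.fst
  simp only [geoPos, Sum.elim_inr]
  rcases D.own i s with _ | u
  · exact continuous_const
  have cy : ∀ v, Continuous fun q : {q // D.Good q} => geoY D q.1 i v := fun v =>
    continuous_const.sub ((continuous_apply 0).comp (c v).snd.snd)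
  refine (Continuous.if_le ((cs u).comp (c u).snd.snd) ((cs (D.mate u)).comp (c (D.mate u)).snd.snd)
    (cy (D.mate u)) (cy u) fun q e => ?_).congr fun q => ?_
  · by_cases hu : D.mate u = u
    · rw [hu]
    have h3 := geoY_or q.2 i hu
    have h4 := (geoY_zero q.2 hu).1 (h3.elim id fun a => e ▸ a)
    have h5 := (geoY_zero q.2 (geo_mate D hu)).1 (h3.elim (fun a => e.trans a) id)
    simp only [comp_apply]
    rw [h4, h5, geoStar_single (geoLg_vx D i _) _ (by norm_num),
      geoStar_single (geoLg_vx D i _) _ (by norm_num), geoLg_tri D i (D.tri_of _ hu),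
      geoLg_tri D i (D.tri_of _ (geo_mate D hu))]
    exact leg_mid src tgt (D.mate_leg u hu).symm
  · simp only [Option.elim_some, geoAct, comp_apply]
    split_ifs <;> rfl

theorem geo_main [Fintype V] (v₀ : V) {q : Fin r × V → St} (hq : D.Good q) (i : Fin r) :
    ∃ (h : (V × Bool) ⊕ Fin j → Half m) (s : (V × Bool) ⊕ Fin j → ℝ),
      (∀ p, 0 ≤ s p ∧ s p ≤ 1 / 2 ∧ geoPos D v₀ q i p = leg src tgt (h p) (s p)) ∧
      (∀ p p', p ≠ p' → vx src tgt (h p) = vx src tgt (h p') → 1 / 8 ≤ s p ∨ 1 / 8 ≤ s p') ∧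
      Injective (geoPos D v₀ q i) ∧
      (∀ v a, ((∑ p, if h p = geoLg D i v a then m8 (s p) else 0 : ℝ) : Cir) =
        (eta (D.sg i v) (q (i, v)) a : ℝ)) ∧
      (∀ v g, vx src tgt g = D.vt v → (∀ a, geoLg D i v a ≠ g) →
        ((∑ p, if h p = g then m8 (s p) else 0 : ℝ) : Cir) = 0) ∧
      ∀ v, D.mate v ≠ v → (∑ p, if (h p).1 = (D.l v 0).1 then m8 (s p) else 0) =
        eta (D.sg i v) (q (i, v)) 0 + eta (D.sg i (D.mate v)) (q (i, D.mate v)) 0 -
          if i = D.i0 v then 1 else 0 := by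
  choose a b c x y z e x0 x1 y0 y1 z0 z1 zc s1 s2 s3 using hq.1 i
  have hR : ∀ v, D.R v ≤ 1 / 2 := fun v => by unfold Comb.R; split_ifs <;> norm_num
  obtain ⟨h, hh⟩ : ∃ h : (V × Bool) ⊕ Fin j → Half m, h = Sum.elim
      (fun p => geoLg D i p.1 (if p.2 then b p.1 else a p.1))
      fun s => (D.own i s).elim (D.l v₀ 1)
        fun u => geoLg D i (geoAct D q i u) (c (geoAct D q i u)) := ⟨_, rfl⟩
  obtain ⟨s, hs⟩ : ∃ s : (V × Bool) ⊕ Fin j → ℝ, s = Sum.elim (fun p => if p.2 then y p.1 else x p.1)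
      fun s => (D.own i s).elim (geoPk s) fun u => z (geoAct D q i u) := ⟨_, rfl⟩
  obtain ⟨A, hA⟩ : ∃ A : V → Fin 3 → Fin 3, A = fun w => ![a w, b w, c w] := ⟨_, rfl⟩
  obtain ⟨X, hX⟩ : ∃ X : V → Fin 3 → ℝ, X = fun w => ![x w, y w, z w] := ⟨_, rfl⟩
  obtain ⟨Rel, hRel⟩ : ∃ Rel : (V × Bool) ⊕ Fin j → V → Fin 3 → Prop, Rel = fun p w κ =>
      (κ = 0 ∧ p = .inl (w, false)) ∨ (κ = 1 ∧ p = .inl (w, true)) ∨
        (κ = 2 ∧ ∃ t u, p = .inr t ∧ D.own i t = some u ∧ geoAct D q i u = w) := ⟨_, rfl⟩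
  have cls : ∀ p, (∃ t, p = .inr t ∧ h p = D.l v₀ 1 ∧ s p = geoPk t) ∨
      ∃ w κ, h p = geoLg D i w (A w κ) ∧ s p = X w κ ∧ Rel p w κ := by
    subst hh hs hA hX hRel
    rintro (⟨v, _ | _⟩ | t)
    · exact .inr ⟨v, 0, rfl, rfl, .inl ⟨rfl, rfl⟩⟩
    · exact .inr ⟨v, 1, rfl, rfl, .inr (.inl ⟨rfl, rfl⟩)⟩
    · rcases o : D.own i t with _ | u
      · exact .inl ⟨t, rfl, by simp [o], by simp [o]⟩
      · exact .inr ⟨geoAct D q i u, 2, by simp [o], by simp [o], .inr (.inr ⟨rfl, t, u, rfl, o, rfl⟩)⟩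
  have uq : ∀ {t t' : Fin j} {u u' w : V}, D.own i t = some u → D.own i t' = some u' →
      geoAct D q i u = w → (geoAct D q i u' = w ∨ geoAct D q i u' = D.mate w) → t = t' :=
    fun o o' h1 h2 => D.own_uq i _ _ _ _ o o'
      (geo_rel D (geoAct_or q i _) (geoAct_or q i _) (h1 ▸ h2))
  have ruq : ∀ {p p' : (V × Bool) ⊕ Fin j} {w : V} {κ : Fin 3}, Rel p w κ → Rel p' w κ → p = p' := by
    subst hRel
    rintro p p' w κ (⟨rfl, rfl⟩ | ⟨rfl, rfl⟩ | ⟨rfl, t, u, rfl, o, h1⟩)
      (⟨k, rfl⟩ | ⟨k, rfl⟩ | ⟨k, t', u', rfl, o', h2⟩) <;>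
      first | rfl | exact absurd k (by decide) | rw [uq o o' h1 (.inl h2)]
  have r2 : ∀ {p : (V × Bool) ⊕ Fin j} {w : V}, Rel p w 2 → ∃ t u, p = .inr t ∧ D.own i t = some u ∧ geoAct D q i u = w := by
    subst hRel
    rintro p w (⟨k, -⟩ | ⟨k, -⟩ | ⟨-, k⟩)
    exacts [absurd k (by decide), absurd k (by decide), k]
  have sy : ∀ {a b : Fin 3} {x y : ℝ}, Sep a x b y → Sep b y a x := fun k =>
    ⟨k.1.symm, k.2.imp Ne.symm Ne.symm⟩
  have sep : ∀ w κ κ', κ ≠ κ' → Sep (A w κ) (X w κ) (A w κ') (X w κ') := by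
    subst hA hX
    intro w κ κ' k
    fin_cases κ <;> fin_cases κ' <;> first
      | exact (k rfl).elim | exact s1 w | exact s2 w | exact s3 w
      | exact sy (s1 w) | exact sy (s2 w) | exact sy (s3 w)
  have big : ∀ w κ, 3 / 8 < X w κ → κ = 2 ∧ A w κ = 0 ∧ D.mate w ≠ w := by
    subst hA hX
    intro w κ k
    fin_cases κ
    · exact absurd (x1 w) (not_le.2 k)
    · exact absurd (y1 w) (not_le.2 k)
    · refine ⟨rfl, zc w k, fun e => ?_⟩
      have := z1 w
      rw [Comb.R, if_pos e] at this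
      exact absurd this (not_le.2 k)
  have vw : ∀ {w w' : V} {κ κ' : Fin 3}, vx src tgt (geoLg D i w κ) = vx src tgt (geoLg D i w' κ') → w = w' :=
    fun k => D.vt_inj (by rwa [geoLg_vx, geoLg_vx] at k)
  have n01 : ∀ w, D.l v₀ 1 ≠ D.l w 0 := fun w k => by
    obtain rfl : v₀ = w := D.vt_inj (by rw [← D.l_vx _ 1, k, D.l_vx])
    exact one_ne_zero (D.l_inj _ k)
  have hB : ∀ p p', p ≠ p' → vx src tgt (h p) = vx src tgt (h p') → 1 / 8 ≤ s p ∨ 1 / 8 ≤ s p' := by
    intro p p' ne k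
    rcases cls p with ⟨t, -, -, h2⟩ | ⟨w, κ, h1, h2, h3⟩
    · exact .inl (by linarith only [geoPk_bd t, h2])
    rcases cls p' with ⟨t, -, -, g2⟩ | ⟨w', κ', g1, g2, g3⟩
    · exact .inr (by linarith only [geoPk_bd t, g2])
    rw [h1, g1] at k
    obtain rfl := vw k
    rw [h2, g2]
    exact (sep w κ κ' fun k => ne (ruq h3 (k ▸ g3))).1
  have hP : ∀ p, 0 ≤ s p ∧ s p ≤ 1 / 2 ∧ geoPos D v₀ q i p = leg src tgt (h p) (s p) := by
    subst hh hs
    rintro (⟨v, _ | _⟩ | t)
    · refine ⟨x0 v, (x1 v).trans (by norm_num), ?_⟩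
      simp only [geoPos, Sum.elim_inl, e v]
      exact geoStar_single (geoLg_vx D i v) _ (x0 v)
    · refine ⟨y0 v, (y1 v).trans (by norm_num), ?_⟩
      simp only [geoPos, Sum.elim_inl, e v]
      exact geoStar_single (geoLg_vx D i v) _ (y0 v)
    · simp only [geoPos, Sum.elim_inr]
      rcases D.own i t with _ | u
      · exact ⟨by simpa only [Option.elim_none] using by linarith only [geoPk_bd t], (geoPk_bd t).2.le, rfl⟩
      · refine ⟨z0 _, (z1 _).trans (hR _), ?_⟩
        simp only [Option.elim_some, e]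
        exact geoStar_single (geoLg_vx D i _) _ (z0 _)
  have mix : ∀ {p p' : (V × Bool) ⊕ Fin j} {t : Fin j} {w : V} {κ : Fin 3}, h p = D.l v₀ 1 → s p = geoPk t → h p' = geoLg D i w (A w κ) →
      s p' = X w κ → s p = s p' → h p ≠ h p' := by
    intro p p' t w κ h1 h2 g1 g2 k
    obtain ⟨-, k1, k2⟩ := big w κ (by linarith only [geoPk_bd t, h2, g2, k])
    rw [h1, g1, k1, geoLg_tri D i (D.tri_of _ k2)]
    exact n01 w
  have hI : Injective (geoPos D v₀ q i) := by
    intro p p' k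
    by_contra ne
    rw [(hP p).2.2, (hP p').2.2] at k
    obtain ⟨k1, k2⟩ := leg_inj src tgt (hP p).1 (hP p).2.1 (hP p').1 (hP p').2.1 k
    rcases k2 with k2 | ⟨k2, k3⟩ | ⟨k2, k3⟩
    · rcases cls p with ⟨t, rfl, h1, h2⟩ | ⟨w, κ, h1, h2, h3⟩ <;>
        rcases cls p' with ⟨t', rfl, g1, g2⟩ | ⟨w', κ', g1, g2, g3⟩
      · exact ne (congrArg _ (geoPk_inj (by rw [← h2, k1, g2])))
      · exact mix h1 h2 g1 g2 k1 k2
      · exact mix g1 g2 h1 h2 k1.symm k2.symm
      · rw [h1, g1] at k2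
        obtain rfl := vw (congrArg _ k2)
        rcases (sep w κ κ' fun k => ne (ruq h3 (k ▸ g3))).2 with k3 | k3
        · exact k3 (geoLg_inj D i w k2)
        · exact k3 (by rw [← h2, k1, g2])
    · rcases hB p p' ne k3 with k4 | k4 <;> linarith only [k2, k4, k1]
    · rcases cls p with ⟨t, rfl, h1, h2⟩ | ⟨w, κ, h1, h2, h3⟩
      · linarith [geoPk_bd t]
      rcases cls p' with ⟨t', rfl, g1, g2⟩ | ⟨w', κ', g1, g2, g3⟩
      · linarith [geoPk_bd t']
      obtain ⟨rfl, a1, a2⟩ := big w κ (by linarith)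
      obtain ⟨rfl, b1, b2⟩ := big w' κ' (by linarith)
      obtain ⟨t, u, rfl, o, o1⟩ := r2 h3
      obtain ⟨t', u', rfl, o', o2⟩ := r2 g3
      rw [h1, g1, a1, b1, geoLg_tri D i (D.tri_of _ a2), geoLg_tri D i (D.tri_of _ b2)] at k3
      refine ne (congrArg _ (uq o o' o1 ?_))
      rw [o2]
      exact ((geo_half' D a2 _).1 k3.symm).imp
        (fun k => D.vt_inj (by rw [← D.l_vx _ 0, k, D.l_vx]))
        fun k => D.vt_inj (by rw [← D.l_vx _ 0, k, D.l_vx])
  obtain ⟨Act, hAct⟩ : ∃ Act : V → Prop, ∀ v, Act v ↔ ∃ t u, D.own i t = some u ∧ geoAct D q i u = v :=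
    ⟨_, fun _ => Iff.rfl⟩
  have cnt : ∀ v g, vx src tgt g = D.vt v → ∃ N : ℕ, (D.l v₀ 1 ≠ g → N = 0) ∧
      (∑ p, if h p = g then m8 (s p) else 0) =
        (if geoLg D i v (a v) = g then m8 (x v) else 0) +
        (if geoLg D i v (b v) = g then m8 (y v) else 0) +
        (if Act v then (if geoLg D i v (c v) = g then m8 (z v) else 0) else 0) + N := by
    intro v g hg
    have ne : ∀ w κ, w ≠ v → geoLg D i w κ ≠ g := fun w κ k k' =>
      k (D.vt_inj (by rw [← geoLg_vx D i w κ, k', hg]))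
    refine ⟨(Finset.univ.filter fun t => D.own i t = none ∧ D.l v₀ 1 = g).card,
      fun k => by simp [k], ?_⟩
    have e1 : ∀ t, (if h (.inr t) = g then m8 (s (.inr t)) else 0) =
        (if ∃ u, D.own i t = some u ∧ geoAct D q i u = v then
          (if geoLg D i v (c v) = g then m8 (z v) else 0) else 0) +
        if D.own i t = none ∧ D.l v₀ 1 = g then 1 else 0 := fun t => by
      subst hh hs
      rcases o : D.own i t with _ | u
      · simp only [Fin.isValue, Sum.elim_inr, o, Option.elim_none, geo_m8_one (show 1 / 8 ≤ geoPk t by linarith only [geoPk_bd t]), reduceCtorEq, false_and, exists_false, ↓ reduceIte, true_and, zero_add]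
      · by_cases k : geoAct D q i u = v
        · simp only [Fin.isValue, Sum.elim_inr, o, Option.elim_some, k, Option.some.injEq, exists_eq_left', ↓ reduceIte, reduceCtorEq, false_and, add_zero]
        · simp only [Fin.isValue, Sum.elim_inr, o, Option.elim_some, ne _ _ k, ↓ reduceIte, Option.some.injEq, exists_eq_left', k, reduceCtorEq, false_and, add_zero]
    rw [Fintype.sum_sum_type, Fintype.sum_prod_type, Finset.sum_eq_single v
      (fun w _ k => by subst hh; simp [ne w _ k]) (by simp only [Finset.mem_univ, not_true_eq_false, Fintype.univ_bool, Finset.mem_singleton, Bool.true_eq_false, not_false_eq_true, Finset.sum_insert, Finset.sum_singleton, IsEmpty.forall_iff]), Fintype.sum_bool,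
      Finset.sum_congr rfl fun t _ => e1 t, Finset.sum_add_distrib, Finset.sum_boole, ← add_assoc]
    congr 2
    · subst hh hs
      simp [add_comm]
    · by_cases k : Act v
      · obtain ⟨t, u, o, o1⟩ := (hAct v).1 k
        rw [if_pos k, Finset.sum_eq_single t (fun t' _ k' => if_neg fun ⟨u', o', o2⟩ =>
          k' (uq o' o o2 (.inl o1))) (by simp only [Finset.mem_univ, not_true_eq_false, ite_eq_right_iff, forall_exists_index, and_imp, IsEmpty.forall_iff]), if_pos ⟨u, o, o1⟩]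
      · rw [if_neg k]
        exact Finset.sum_eq_zero fun t _ => if_neg fun ⟨u, o⟩ => k ((hAct v).2 ⟨t, u, o⟩)
  have as : ∀ v, Act v → D.sg i v := fun v k => by
    obtain ⟨t, u, o, rfl⟩ := (hAct v).1 k
    obtain ⟨k1, k2⟩ := D.own_tri i t u o
    rcases geoAct_or q i u with k3 | k3 <;> rw [k3]
    exacts [⟨k1, k2.symm⟩, ⟨geo_tri D k1, by rw [D.i0_mate, k2]⟩]
  have na : ∀ v, D.sg i v → ¬ Act v → Act (D.mate v) ∧ (q (i, v)).2.2 = Pi.single 0 (1 / 2) := by
    intro v ⟨k1, k2⟩ k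
    obtain ⟨t, u, o, k3⟩ := D.own_ex v k1
    rw [← k2] at o
    have k4 : geoAct D q i u ≠ v := fun k4 => k ((hAct v).2 ⟨t, u, o, k4⟩)
    obtain ⟨k5, k6⟩ := geo_rel' D (geoAct_or q i u) k3 k4
    have := geoAct_rest hq i k6
    rw [k5, D.inv] at this
    exact ⟨(hAct _).2 ⟨t, u, o, k5⟩, this⟩
  have ex : ∀ v, D.mate v ≠ v → Act v → ¬ Act (D.mate v) := fun v hv k k' => by
    obtain ⟨t, u, o, o1⟩ := (hAct v).1 k
    obtain ⟨t', u', o', o2⟩ := (hAct _).1 k'
    obtain rfl := uq o o' o1 (.inr o2)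
    obtain rfl := Option.some_injective _ (o.symm.trans o')
    exact hv (o2.symm.trans o1)
  have c1 : ∀ v α, ∃ N : ℕ, (D.l v₀ 1 ≠ geoLg D i v α → N = 0) ∧
      (∑ p, if h p = geoLg D i v α then m8 (s p) else 0) = eta (D.sg i v) (q (i, v)) α -
        (if D.sg i v ∧ ¬ Act v ∧ α = 0 then 1 else 0) + N := fun v α => by
    obtain ⟨N, k1, k2⟩ := cnt v _ (geoLg_vx D i v α)
    refine ⟨N, k1, ?_⟩
    rw [k2, eta, add_left_inj]
    simp only [(geoLg_inj D i v).eq_iff]
    by_cases k : Act v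
    · simp [k, as v k, e v, geo_m8_single]
    by_cases k' : D.sg i v
    · rw [(na v k' k).2]
      simp only [e v, geo_m8_single, geo_m8_one (show (1 : ℝ) / 8 ≤ 1 / 2 by norm_num), k, k',
        eq_comm (a := α)]
      simp
    · simp [k, k', e v, geo_m8_single]
  refine ⟨h, s, hP, hB, hI, fun v α => ?_, fun v g hg k => ?_, fun v hv => ?_⟩
  · obtain ⟨N, -, k⟩ := c1 v α
    rw [k, geo_nat]
    split_ifs
    · rw [← geo_nat _ 1]; simp
    · simp
  · obtain ⟨N, -, k1⟩ := cnt v g hg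
    rw [k1, geo_nat]
    simp [k]
  · have t1 := D.tri_of v hv
    have t2 := geo_tri D t1
    obtain ⟨N, k1, k2⟩ := c1 v 0
    obtain ⟨N', k3, k4⟩ := c1 (D.mate v) 0
    rw [geoLg_tri D i t1] at k1 k2
    rw [geoLg_tri D i t2] at k3 k4
    have e1 : ∀ p, (if (h p).1 = (D.l v 0).1 then m8 (s p) else 0) =
        (if h p = D.l v 0 then m8 (s p) else 0) + if h p = D.l (D.mate v) 0 then m8 (s p) else 0 :=
      fun p => by
      have := geo_ne D hv
      simp only [geo_half' D hv]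
      by_cases k : h p = D.l v 0
      · simp [k, this.symm]
      · simp [k]
    rw [Finset.sum_congr rfl fun p _ => e1 p, Finset.sum_add_distrib, k2, k4, k1 (n01 _), k3 (n01 _)]
    by_cases k : i = D.i0 v
    · have g1 : D.sg i v := ⟨t1, k⟩
      have g2 : D.sg i (D.mate v) := ⟨t2, by rw [D.i0_mate, k]⟩
      rw [if_pos k]
      by_cases k' : Act v
      · simp only [g1, g2, k', ex v hv k']
        simp
        ring
      · simp only [g1, g2, k', (na v g1 k').1]
        simp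
        ring
    · have g1 : ¬ D.sg i v := fun a => k a.2
      have g2 : ¬ D.sg i (D.mate v) := fun a => k (a.2.trans (D.i0_mate v))
      simp [g1, g2, k]

end geo

theorem test_exists {n m : ℕ} {src tgt : Fin m → Fin n} {r j k : ℕ} {V : Type} [Fintype V]
    (D : Legs src tgt r j V) (v₀ : V) (hk : k = 2 * Fintype.card V + j) (hψ : PsiSt src tgt k) :
    Nonempty (Test D.toComb (UConf k (GraphSpace src tgt))) := by
  obtain ⟨ψ, ν, h1, h2, h3⟩ := hψ
  have E : Fin k ≃ (V × Bool) ⊕ Fin j := Fintype.equivOfCardEq (by simp only [hk, mul_comm, Fintype.card_fin, Fintype.card_sum, Fintype.card_prod, Fintype.card_bool, Nat.add_left_cancel_iff])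
  choose h s hP hB hI c1 c2 c3 using fun (q : {q // D.Good q}) i => geo_main v₀ q.2 i
  obtain ⟨x, hx⟩ : ∃ x : {q // D.Good q} → Fin r → bdF k (GraphSpace src tgt), ∀ q i,
      (x q i).1 = geoPos D v₀ q.1 i ∘ E := ⟨fun q i => ⟨_, (hI q i).comp E.injective⟩, fun _ _ => rfl⟩
  have cx : ∀ i, Continuous fun q => x q i := fun i =>
    continuous_induced_rng.2 (continuous_pi fun a => by
      simpa only [comp_def, hx] using geoPos_cont v₀ i (E a))
  have H := fun q i => h3 (x q i) (h q i ∘ E) (s q i ∘ E) (fun a => by rw [hx]; exact hP q i (E a))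
    fun a b ne => hB q i _ _ (E.injective.ne ne)
  have H1 : ∀ q i g, ψ g (bdMk (x q i)) =
      ((∑ p, if h q i p = g then m8 (s q i p) else 0 : ℝ) : Cir) := fun q i g => by
    rw [(H q i).1 g, ← E.sum_comp]; rfl
  refine ⟨⟨⟨fun q i => bdMk (x q i), continuous_pi fun i => bdMk_oq.continuous.comp (cx i)⟩,
    fun φ v => if φ then (if D.tri v then 0 else ψ (D.l4 v)) else ψ (D.l v 0),
    fun v => ψ (D.l v 1), fun v => ν (D.l v 0).1, fun φ v y => ?_, fun q i v φ => ?_,
    fun q i v => ?_, fun v y hv => ?_, fun q i v hv => ?_⟩⟩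
  · split_ifs with a b
    · exact .inl rfl
    · exact h1 _ _ y (D.l4_ne v 1 b) (by rw [D.l4_vx v b, D.l_vx])
    · exact h1 _ _ y ((D.l_inj v).ne zero_ne_one) (by rw [D.l_vx, D.l_vx])
  · simp only [ContinuousMap.coe_mk]
    by_cases a : φ <;> by_cases b : D.fl i v
    · rw [if_pos a, if_neg b.1, if_pos (iff_of_true a b), H1, ← c1]
      simp only [Fintype.sum_sum_type, QuotientAddGroup.mk_add, QuotientAddGroup.mk_sum, geoLg, b, ↓ reduceIte, Fin.isValue, update_self]
    · rw [if_pos a, if_neg fun c : φ ↔ _ => b (c.1 a)]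
      split_ifs with c
      · rfl
      · rw [H1]
        refine c2 q i v _ (D.l4_vx v c) fun α => ?_
        rw [geoLg, if_neg b]
        exact (D.l4_ne v α c).symm
    · rw [if_neg a, if_neg fun c : φ ↔ _ => a (c.2 b), H1]
      refine c2 q i v _ (D.l_vx v 0) fun α => ?_
      rw [geoLg, if_pos b]
      by_cases c : α = 0
      · rw [c, update_self]
        exact D.l4_ne v 0 b.1
      · rw [update_of_ne c]
        exact (D.l_inj v).ne c
    · rw [if_neg a, if_pos (iff_of_false a b), H1, ← c1]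
      simp only [Fin.isValue, Fintype.sum_sum_type, QuotientAddGroup.mk_add, QuotientAddGroup.mk_sum, geoLg, b, ↓ reduceIte]
  · simp only [ContinuousMap.coe_mk]
    rw [H1, ← c1, geoLg_one]
  · obtain ⟨e, he, ⟨a, b⟩ | ⟨a, b⟩⟩ := geo_half D hv <;> simp only [if_false] <;> rw [a, b, h2 e y he]
    exact add_comm _ _
  · simp only [ContinuousMap.coe_mk]
    obtain ⟨e, he, a⟩ := geo_half D hv
    have b : (D.l v 0).1 = e := by rcases a with ⟨a, -⟩ | ⟨a, -⟩ <;> rw [a]
    rw [(H q i).2 _ (b ▸ he), ← c3 q i v hv, ← E.sum_comp]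
    rfl

end Pool.Agent.MP_10b04c_gt.SR

end
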