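import Pool.Agent.MP_10b04c_gt.Mg.H96_Geo

-- part MP_10b04c_gt.H96.Cmb
section

set_option autoImplicit false

namespace Pool.Agent.MP_10b04c_gt.SR

open unitInterval Set Function Classical

theorem cmb_card {n m : ℕ} (src tgt : Fin m → Fin n) (v : Fin n) :
    (Finset.univ.filter fun h : Half m => vx src tgt h = v).card = valence src tgt v := by
  rw [valence, Finset.card_filter, Finset.card_filter, Finset.card_filter, Fintype.sum_prod_type]
  simp only [Fintype.sum_bool, vx, if_true, Bool.false_eq_true, if_false, Finset.sum_add_distrib]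
  omega

theorem cmb_three {α : Type} (s : Finset α) (a : α) (ha : a ∈ s) (h3 : 3 ≤ s.card) :
    ∃ (l : Fin 3 → α) (d : α), l 0 = a ∧ Injective l ∧ (∀ i, l i ∈ s) ∧
      (s.card ≠ 3 → d ∈ s ∧ ∀ i, d ≠ l i) := by
  have h1 : 1 < (s.erase a).card := by rw [Finset.card_erase_of_mem ha]; omega
  obtain ⟨b, c, hb, hc, hbc⟩ := Finset.one_lt_card_iff.mp h1
  obtain ⟨hba, hb⟩ := Finset.mem_erase.mp hb
  obtain ⟨hca, hc⟩ := Finset.mem_erase.mp hc
  have hd : ∃ d, s.card ≠ 3 → d ∈ s ∧ d ≠ a ∧ d ≠ b ∧ d ≠ c := by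
    by_cases h : s.card = 3
    · exact ⟨a, fun h' => (h' h).elim⟩
    · have h4 : ({a, b, c} : Finset α).card < s.card :=
        lt_of_le_of_lt Finset.card_le_three (by omega)
      obtain ⟨d, hd, hd'⟩ := Finset.exists_mem_notMem_of_card_lt_card h4
      simp only [Finset.mem_insert, Finset.mem_singleton, not_or] at hd'
      exact ⟨d, fun _ => ⟨hd, hd'⟩⟩
  obtain ⟨d, hd⟩ := hd
  refine ⟨![a, b, c], d, rfl, ?_, ?_, fun h => ⟨(hd h).1, ?_⟩⟩
  · intro i k e
    fin_cases i <;> fin_cases k
    · rfl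
    · exact (hba (Eq.symm e)).elim
    · exact (hca (Eq.symm e)).elim
    · exact (hba e).elim
    · rfl
    · exact (hbc e).elim
    · exact (hca e).elim
    · exact (hbc (Eq.symm e)).elim
    · rfl
  · intro i
    fin_cases i
    · exact ha
    · exact hb
    · exact hc
  · intro i
    fin_cases i
    · exact (hd h).2.1
    · exact (hd h).2.2.1
    · exact (hd h).2.2.2

theorem legs_exists {n m : ℕ} (src tgt : Fin m → Fin n) (M : Finset (Fin m))
    (hM : ∀ e ∈ M, src e ≠ tgt e ∧ valence src tgt (src e) = 3 ∧ valence src tgt (tgt e) = 3)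
    (hM' : ∀ e ∈ M, ∀ e' ∈ M, e ≠ e' →
      src e ≠ src e' ∧ src e ≠ tgt e' ∧ tgt e ≠ src e' ∧ tgt e ≠ tgt e')
    (r j : ℕ) (hr : 1 ≤ r)
    (h3 : (Finset.univ.filter fun v => valence src tgt v = 3).card ≤ r * j + M.card) :
    Nonempty (Legs src tgt r j {v // 3 ≤ valence src tgt v}) := by
  have hss : ∀ e ∈ M, ∀ e' ∈ M, src e = src e' → e = e' := fun e he e' he' h => by
    by_contra hne
    exact (hM' e he e' he' hne).1 h
  have htt : ∀ e ∈ M, ∀ e' ∈ M, tgt e = tgt e' → e = e' := fun e he e' he' h => by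
    by_contra hne
    exact (hM' e he e' he' hne).2.2.2 h
  have hst : ∀ e ∈ M, ∀ e' ∈ M, src e ≠ tgt e' := fun e he e' he' => by
    by_cases hne : e = e'
    · subst hne
      exact (hM e he).1
    · exact (hM' e he e' he' hne).2.1
  have tri3 : ∀ v, (∃ e ∈ M, src e = v) ∨ (∃ e ∈ M, tgt e = v) ∨
      ∀ e ∈ M, src e ≠ v ∧ tgt e ≠ v := fun v => by
    by_cases h1 : ∃ e ∈ M, src e = v
    · exact .inl h1
    by_cases h2 : ∃ e ∈ M, tgt e = v
    · exact .inr (.inl h2)
    exact .inr (.inr fun e he => ⟨fun h => h1 ⟨e, he, h⟩, fun h => h2 ⟨e, he, h⟩⟩)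
  have hp : ∀ v, ∃ a b : Fin n, (∀ e ∈ M, src e = v → a = tgt e ∧ b = src e) ∧
      (∀ e ∈ M, tgt e = v → a = src e ∧ b = src e) ∧
      ((∀ e ∈ M, src e ≠ v ∧ tgt e ≠ v) → a = v ∧ b = v) := fun v => by
    rcases tri3 v with ⟨e, he, rfl⟩ | ⟨e, he, rfl⟩ | h
    · refine ⟨tgt e, src e, fun e' he' h => ?_, fun e' he' h => (hst e he e' he' h.symm).elim,
        fun h => ((h e he).1 rfl).elim⟩
      rw [hss e' he' e he h]
      exact ⟨rfl, rfl⟩
    · refine ⟨src e, src e, fun e' he' h => (hst e' he' e he h).elim, fun e' he' h => ?_,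
        fun h => ((h e he).2 rfl).elim⟩
      rw [htt e' he' e he h]
      exact ⟨rfl, rfl⟩
    · exact ⟨v, v, fun e he h' => ((h e he).1 h').elim, fun e he h' => ((h e he).2 h').elim,
        fun _ => ⟨rfl, rfl⟩⟩
  choose mt rp hS hT hN using hp
  have mS : ∀ e ∈ M, mt (src e) = tgt e := fun e he => (hS _ e he rfl).1
  have mT : ∀ e ∈ M, mt (tgt e) = src e := fun e he => (hT _ e he rfl).1
  have rS : ∀ e ∈ M, rp (src e) = src e := fun e he => (hS _ e he rfl).2
  have rT : ∀ e ∈ M, rp (tgt e) = src e := fun e he => (hT _ e he rfl).2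
  have hval : ∀ v, 3 ≤ valence src tgt v → 3 ≤ valence src tgt (mt v) := fun v hv => by
    rcases tri3 v with ⟨e, he, rfl⟩ | ⟨e, he, rfl⟩ | h
    · rw [mS e he]
      exact (hM e he).2.2.ge
    · rw [mT e he]
      exact (hM e he).2.1.ge
    · rwa [(hN v h).1]
  have hinv : ∀ v, mt (mt v) = v := fun v => by
    rcases tri3 v with ⟨e, he, rfl⟩ | ⟨e, he, rfl⟩ | h
    · rw [mS e he, mT e he]
    · rw [mT e he, mS e he]
    · rw [(hN v h).1, (hN v h).1]
  have hrm : ∀ v, rp (mt v) = rp v := fun v => by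
    rcases tri3 v with ⟨e, he, rfl⟩ | ⟨e, he, rfl⟩ | h
    · rw [mS e he, rT e he, rS e he]
    · rw [mT e he, rT e he, rS e he]
    · rw [(hN v h).1]
  have hrv : ∀ v, rp v = v ∨ rp v = mt v := fun v => by
    rcases tri3 v with ⟨e, he, rfl⟩ | ⟨e, he, rfl⟩ | h
    · exact .inl (rS e he)
    · exact .inr ((rT e he).trans (mT e he).symm)
    · exact .inl (hN v h).2
  -- the legs
  have hl : ∀ v : {v // 3 ≤ valence src tgt v}, ∃ (l : Fin 3 → Half m) (d : Half m),
      (∀ e ∈ M, src e = v.1 ∨ tgt e = v.1 → (l 0).1 = e) ∧ Injective l ∧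
      (∀ i, vx src tgt (l i) = v.1) ∧
      (valence src tgt v.1 ≠ 3 → vx src tgt d = v.1 ∧ ∀ i, d ≠ l i) := fun v => by
    have h0 : ∃ h : Half m, vx src tgt h = v.1 ∧
        ∀ e ∈ M, src e = v.1 ∨ tgt e = v.1 → h.1 = e := by
      rcases tri3 v.1 with ⟨e, he, h⟩ | ⟨e, he, h⟩ | h
      · refine ⟨(e, false), h, fun e' he' h' => ?_⟩
        rcases h' with h' | h'
        · exact hss e he e' he' (h.trans h'.symm)
        · exact (hst e he e' he' (h.trans h'.symm)).elim
      · refine ⟨(e, true), h, fun e' he' h' => ?_⟩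
        rcases h' with h' | h'
        · exact (hst e' he' e he (h'.trans h.symm)).elim
        · exact htt e he e' he' (h.trans h'.symm)
      · have h1 : 0 < (Finset.univ.filter fun h : Half m => vx src tgt h = v.1).card := by
          rw [cmb_card]
          have := v.2
          omega
        obtain ⟨g, hg⟩ := Finset.card_pos.mp h1
        exact ⟨g, (Finset.mem_filter.mp hg).2, fun e he h' =>
          h'.elim (fun h' => ((h e he).1 h').elim) fun h' => ((h e he).2 h').elim⟩
    obtain ⟨g, hg, hg'⟩ := h0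
    obtain ⟨l, d, l0, li, lm, ld⟩ := cmb_three
      (Finset.univ.filter fun h : Half m => vx src tgt h = v.1) g
      (Finset.mem_filter.mpr ⟨Finset.mem_univ _, hg⟩) (by rw [cmb_card]; exact v.2)
    rw [cmb_card] at ld
    exact ⟨l, d, by rw [l0]; exact hg', li, fun i => (Finset.mem_filter.mp (lm i)).2,
      fun h => ⟨(Finset.mem_filter.mp (ld h).1).2, (ld h).2⟩⟩
  choose l l4 hl0 hli hlv hl4 using hl
  -- the units
  obtain ⟨U, hU⟩ : ∃ U : Finset (Fin n),
      U = (Finset.univ.filter fun v => valence src tgt v = 3) \ M.image tgt := ⟨_, rfl⟩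
  have mU : ∀ v, v ∈ U ↔ valence src tgt v = 3 ∧ ∀ e ∈ M, tgt e ≠ v := fun v => by
    simp only [hU, Finset.mem_sdiff, Finset.mem_filter, Finset.mem_univ, true_and, Finset.mem_image, not_exists, not_and, ne_eq]
  have cU : Fintype.card U ≤ Fintype.card (Fin r × Fin j) := by
    have h1 : M.image tgt ⊆ Finset.univ.filter fun v => valence src tgt v = 3 := fun v hv => by
      obtain ⟨e, he, rfl⟩ := Finset.mem_image.mp hv
      exact Finset.mem_filter.mpr ⟨Finset.mem_univ _, (hM e he).2.2⟩
    have h2 : (M.image tgt).card = M.card := Finset.card_image_of_injOn fun e he e' he' h =>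
      htt e he e' he' h
    rw [Fintype.card_coe, Fintype.card_prod, Fintype.card_fin, Fintype.card_fin, hU,
      Finset.card_sdiff_of_subset h1, h2]
    omega
  obtain ⟨f⟩ := Function.Embedding.nonempty_of_card_le cU
  have rU : ∀ v ∈ U, rp v = v := fun v hv => by
    rcases tri3 v with ⟨e, he, rfl⟩ | ⟨e, he, rfl⟩ | h
    · exact rS e he
    · exact (((mU _).1 hv).2 e he rfl).elim
    · exact (hN v h).2
  have rU' : ∀ v, valence src tgt v = 3 → rp v ∈ U := fun v hv => by
    rcases tri3 v with ⟨e, he, rfl⟩ | ⟨e, he, rfl⟩ | h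
    · rw [rS e he]
      exact (mU _).2 ⟨hv, fun e' he' h => hst e he e' he' h.symm⟩
    · rw [rT e he]
      exact (mU _).2 ⟨(hM e he).2.1, fun e' he' h => hst e he e' he' h.symm⟩
    · rw [(hN v h).2]
      exact (mU _).2 ⟨hv, fun e he => (h e he).2⟩
  have hi : ∀ w : Fin n, ∃ i : Fin r, ∀ h : w ∈ U, i = (f ⟨w, h⟩).1 := fun w => by
    by_cases h : w ∈ U
    · exact ⟨(f ⟨w, h⟩).1, fun _ => rfl⟩
    · exact ⟨⟨0, hr⟩, fun h' => (h h').elim⟩
  choose ix hix using hi
  have ho : ∀ (i : Fin r) (s : Fin j), ∃ o : Option {v // 3 ≤ valence src tgt v},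
      ∀ u, o = some u ↔ ∃ h : u.1 ∈ U, f ⟨u.1, h⟩ = (i, s) := fun i s => by
    by_cases h : ∃ w : U, f w = (i, s)
    · obtain ⟨w, hw⟩ := h
      refine ⟨some ⟨w.1, ((mU _).1 w.2).1.ge⟩, fun u => ⟨fun e => ?_, fun ⟨h, e⟩ => ?_⟩⟩
      · obtain rfl := Option.some.inj e
        exact ⟨w.2, hw⟩
      · obtain rfl := f.injective (hw.trans e.symm)
        rfl
    · exact ⟨none, fun u => ⟨fun e => (by cases e), fun ⟨h', e⟩ => (h ⟨_, e⟩).elim⟩⟩
  choose own hown using ho
  refine ⟨{
    tri := fun v => valence src tgt v.1 = 3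
    mate := fun v => ⟨mt v.1, hval _ v.2⟩
    i0 := fun v => ix (rp v.1)
    inv := fun v => Subtype.ext (hinv v.1)
    tri_of := fun v hv => ?_
    i0_mate := fun v => congrArg ix (hrm v.1)
    vt := Subtype.val
    vt_inj := Subtype.val_injective
    l := l
    l4 := l4
    l_vx := hlv
    l_inj := hli
    l4_vx := fun v h => (hl4 v h).1
    l4_ne := fun v a h => (hl4 v h).2 a
    mate_leg := fun v hv => ?_
    own := own
    own_tri := fun i s u h => ?_
    own_ex := fun v hv => ?_
    own_uq := fun i s s' u u' h h' e => ?_ }⟩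
  · rcases tri3 v.1 with ⟨e, he, h⟩ | ⟨e, he, h⟩ | h
    · exact h ▸ (hM e he).2.1
    · exact h ▸ (hM e he).2.2
    · exact (hv (Subtype.ext (hN _ h).1)).elim
  · rcases tri3 v.1 with ⟨e, he, h⟩ | ⟨e, he, h⟩ | h
    · rw [hl0 v e he (.inl h), hl0 _ e he (.inr (hS _ e he h).1.symm)]
    · rw [hl0 v e he (.inr h), hl0 _ e he (.inl (hT _ e he h).1.symm)]
    · exact (hv (Subtype.ext (hN _ h).1)).elim
  · obtain ⟨hu, e⟩ := (hown i s u).1 h
    refine ⟨((mU _).1 hu).1, ?_⟩
    show ix (rp u.1) = i
    rw [rU _ hu, hix _ hu, e]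
  · have h1 := rU' v.1 hv
    refine ⟨(f ⟨_, h1⟩).2, ⟨rp v.1, ((mU _).1 h1).1.ge⟩, (hown _ _ _).2 ⟨h1, ?_⟩, ?_⟩
    · exact Prod.ext (hix _ h1).symm rfl
    · exact (hrv v.1).imp Subtype.ext Subtype.ext
  · obtain ⟨hu, e1⟩ := (hown i s u).1 h
    obtain ⟨hu', e2⟩ := (hown i s' u').1 h'
    have h1 : u'.1 = u.1 := by
      rcases e with rfl | rfl
      · rfl
      · exact (rU _ hu').symm.trans ((hrm u.1).trans (rU _ hu))
    have h2 : f ⟨u'.1, hu'⟩ = f ⟨u.1, hu⟩ := congrArg f (Subtype.ext h1)
    exact (congrArg Prod.snd (e1.symm.trans (h2.symm.trans e2)) :)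

end Pool.Agent.MP_10b04c_gt.SR

end

-- part MP_10b04c_gt.H96.Up
section

set_option autoImplicit false

namespace Pool.Agent.MP_10b04c_gt.SR

open unitInterval Set Function Classical Topology Filter

section

variable {n m k : ℕ} {src tgt : Fin m → Fin n}

theorem up_cont {Y P : Type} [TopologicalSpace Y] [TopologicalSpace P] [LocallyCompactSpace P]
    (F : P → GraphSpace src tgt → Y) (hf : ∀ v, Continuous fun p => F p (bdV src tgt v))
    (hg : ∀ e, Continuous fun z : I × P => F z.2 (bdE src tgt e z.1)) :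
    Continuous fun z : GraphSpace src tgt × P => F z.2 z.1 := by
  refine isQuotientMap_quot_mk.continuous_lift_prod_left ?_
  rw [← (Homeomorph.sumProdDistrib (X := Fin n) (Y := Fin m × I) (Z := P)).symm.comp_continuous_iff',
    continuous_sum_dom]
  constructor
  · exact continuous_prod_of_discrete_left.2 hf
  · rw [← (Homeomorph.prodAssoc (Fin m) I P).symm.comp_continuous_iff']
    exact continuous_prod_of_discrete_left.2 hg

theorem up_val (v : Fin n) : valence src tgt v =
    (Finset.univ.filter fun h : Half m => vx src tgt h = v).card := by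
  rw [valence, Finset.card_filter, Finset.card_filter, Finset.card_filter, Fintype.sum_prod_type]
  simp only [Fintype.sum_bool, vx, if_true, Bool.false_eq_true, if_false, Finset.sum_add_distrib]
  omega

theorem up_leaf {v : Fin n} (hv : valence src tgt v = 1) : ∃! h : Half m, vx src tgt h = v := by
  rw [up_val, Finset.card_eq_one] at hv
  obtain ⟨h, hh⟩ := hv
  have : ∀ g : Half m, vx src tgt g = v ↔ g = h := fun g => by
    rw [← Finset.mem_singleton (a := h), ← hh]; simp only [Finset.mem_filter, Finset.mem_univ, true_and]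
  exact ⟨h, (this h).2 rfl, fun g => (this g).1⟩

variable (src tgt) in
noncomputable def upA (v : Fin n) : ℝ := if valence src tgt v = 1 then 1 / 4 else 0

theorem upA_le (v : Fin n) : 0 ≤ upA src tgt v ∧ upA src tgt v ≤ 1 / 4 := by
  unfold upA; split_ifs <;> norm_num

variable (src tgt) in
noncomputable def upT (τ : I) (e : Fin m) (s : ℝ) : ℝ :=
  upA src tgt (src e) * τ * (1 - s) + (1 - upA src tgt (tgt e) * τ) * s

variable (src tgt) in
/-- pull the leaves in -/
noncomputable def upPhi (τ : I) : GraphSpace src tgt → GraphSpace src tgt :=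
  bdLift (fun v => if h : valence src tgt v = 1 then leg src tgt (up_leaf h).choose (τ / 4)
      else bdV src tgt v)
    (fun e s => bdE src tgt e (projIcc 0 1 zero_le_one (upT src tgt τ e s)))
    (fun e => by
      split_ifs with h
      · rw [← (up_leaf h).choose_spec.2 (e, false) rfl, leg]
        congr 2
        simp only [upT, upA, h, ↓ reduceIte, one_div, Icc.coe_zero, sub_zero, mul_one, ite_mul, zero_mul, mul_zero, add_zero, gco, Bool.false_eq_true]; ring
      · rw [← bdE_zero]
        congr 1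
        exact projIcc_of_le_left _ (by simp only [upT, upA, h, ↓ reduceIte, zero_mul, Icc.coe_zero, sub_zero, mul_one, one_div, ite_mul, mul_zero, add_zero, Std.le_refl]))
    fun e => by
      split_ifs with h
      · rw [← (up_leaf h).choose_spec.2 (e, true) rfl, leg]
        congr 2
        simp only [upT, upA, one_div, ite_mul, zero_mul, Icc.coe_one, sub_self, mul_zero, h, ↓ reduceIte, mul_one, zero_add, gco, sub_right_inj]; ring
      · rw [← bdE_one]
        congr 1
        exact projIcc_of_right_le _ (by simp only [upT, upA, one_div, ite_mul, zero_mul, Icc.coe_one, sub_self, mul_zero, h, ↓ reduceIte, sub_zero, mul_one, zero_add, Std.le_refl])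

theorem upPhi_E (τ : I) (e : Fin m) (s : I) : upPhi src tgt τ (bdE src tgt e s) =
    bdE src tgt e (projIcc 0 1 zero_le_one (upT src tgt τ e s)) := rfl

theorem upPhi_V (τ : I) {v : Fin n} (h : valence src tgt v ≠ 1) :
    upPhi src tgt τ (bdV src tgt v) = bdV src tgt v := dif_neg h

theorem upPhi_L (τ : I) {v : Fin n} (h : valence src tgt v = 1) :
    upPhi src tgt τ (bdV src tgt v) = leg src tgt (up_leaf h).choose (τ / 4) := dif_pos h

theorem upPhi_cont : Continuous fun z : GraphSpace src tgt × I => upPhi src tgt z.2 z.1 := by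
  refine up_cont (upPhi src tgt) (fun v => ?_) fun e => ?_
  · by_cases h : valence src tgt v = 1
    · exact ((leg_cont src tgt (up_leaf h).choose).comp (f := fun τ : I => (τ : ℝ) / 4)
        (by fun_prop)).congr fun τ => (upPhi_L τ h).symm
    · exact continuous_const.congr fun τ => (upPhi_V τ h).symm
  · exact (bdE_cont e).comp (continuous_projIcc.comp
      (f := fun z : I × I => upT src tgt z.2 e z.1) (by unfold upT; fun_prop))

theorem up_nf (p : GraphSpace src tgt) : (∃ v, valence src tgt v ≠ 1 ∧ p = bdV src tgt v) ∨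
    ∃ e, ∃ s : I, (0 < (s : ℝ) ∨ valence src tgt (src e) = 1) ∧
      ((s : ℝ) < 1 ∨ valence src tgt (tgt e) = 1) ∧ p = bdE src tgt e s := by
  rcases bd_nf p with ⟨v, rfl⟩ | ⟨e, t, h0, h1, rfl⟩
  · by_cases h : valence src tgt v = 1
    · obtain ⟨⟨e, _ | _⟩, rfl, -⟩ := up_leaf h
      · exact .inr ⟨e, 0, .inr h, .inl zero_lt_one, (bdE_zero e).symm⟩
      · exact .inr ⟨e, 1, .inl zero_lt_one, .inr h, (bdE_one e).symm⟩
    · exact .inl ⟨v, h, rfl⟩
  · exact .inr ⟨e, t, .inl h0, .inl h1, rfl⟩

theorem upPhi_zero (p : GraphSpace src tgt) : upPhi src tgt 0 p = p := by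
  rcases up_nf p with ⟨v, h, rfl⟩ | ⟨e, s, -, -, rfl⟩
  · exact upPhi_V 0 h
  · rw [upPhi_E]
    simp only [upT, Icc.coe_zero, mul_zero, zero_mul, sub_zero, one_mul, zero_add, projIcc_val]

theorem upT_mem {τ : I} (hτ : 0 < (τ : ℝ)) {e : Fin m} {s : I}
    (h0 : 0 < (s : ℝ) ∨ valence src tgt (src e) = 1)
    (h1 : (s : ℝ) < 1 ∨ valence src tgt (tgt e) = 1) :
    0 < upT src tgt τ e s ∧ upT src tgt τ e s < 1 := by
  obtain ⟨a0, a1⟩ := upA_le (src := src) (tgt := tgt) (src e)
  obtain ⟨b0, b1⟩ := upA_le (src := src) (tgt := tgt) (tgt e)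
  have t1 := τ.2.2
  have s0 := s.2.1
  have s1 := sub_nonneg.2 s.2.2
  have a2 : upA src tgt (src e) * τ ≤ 1 / 4 := by nlinarith only [hτ, a1, t1]
  have b2 : upA src tgt (tgt e) * τ ≤ 1 / 4 := by nlinarith only [hτ, b1, t1]
  have a3 := mul_nonneg a0 hτ.le
  have b3 := mul_nonneg b0 hτ.le
  unfold upT
  constructor
  · rcases h0 with h | h
    · nlinarith only [mul_nonneg a3 s1, b2, h]
    · have : 0 < upA src tgt (src e) * τ := by rw [upA, if_pos h]; positivity
      nlinarith only [s0, a2, b2, this]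
  · rcases h1 with h | h
    · nlinarith only [mul_nonneg b3 s0, a2, h]
    · have : 0 < upA src tgt (tgt e) * τ := by rw [upA, if_pos h]; positivity
      nlinarith only [s1, a2, b2, this]

theorem up_EV {e : Fin m} {t : ℝ} (h : 0 < t ∧ t < 1) (v : Fin n) :
    bdE src tgt e (projIcc 0 1 zero_le_one t) ≠ bdV src tgt v := fun e' => by
  have := congrArg bdC e'
  rw [bdC_E, projIcc_of_mem _ ⟨h.1.le, h.2.le⟩] at this
  exact (mul_pos h.1 (sub_pos.2 h.2)).ne' this

theorem upPhi_inj (τ : I) : Injective (upPhi src tgt τ) := fun p q h => by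
  rcases τ.2.1.eq_or_lt with hτ | hτ
  · obtain rfl : τ = 0 := Subtype.ext hτ.symm
    rwa [upPhi_zero, upPhi_zero] at h
  rcases up_nf p with ⟨v, hv, rfl⟩ | ⟨e, s, a, b, rfl⟩ <;>
    rcases up_nf q with ⟨w, hw, rfl⟩ | ⟨e', s', a', b', rfl⟩
  · rwa [upPhi_V τ hv, upPhi_V τ hw] at h
  · exact absurd (h.symm.trans (upPhi_V τ hv)) (up_EV (upT_mem hτ a' b') v)
  · exact absurd (h.trans (upPhi_V τ hw)) (up_EV (upT_mem hτ a b) w)
  · obtain ⟨c, d⟩ := upT_mem hτ a b
    obtain ⟨c', d'⟩ := upT_mem hτ a' b'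
    have := congrArg bdVal h
    rw [upPhi_E, upPhi_E, projIcc_of_mem _ ⟨c.le, d.le⟩, projIcc_of_mem _ ⟨c'.le, d'.le⟩,
      bdVal_E _ c d, bdVal_E _ c' d'] at this
    obtain ⟨rfl, h1⟩ := bd_et c d c' d' this
    obtain ⟨a0, a1⟩ := upA_le (src := src) (tgt := tgt) (src e)
    obtain ⟨b0, b1⟩ := upA_le (src := src) (tgt := tgt) (tgt e)
    have t1 := τ.2.2
    have h2 : (1 - upA src tgt (src e) * τ - upA src tgt (tgt e) * τ) * (s - s') = 0 := by
      unfold upT at h1; linarith only [h1]
    rw [Subtype.ext (sub_eq_zero.1 ((mul_eq_zero.1 h2).resolve_left (by nlinarith only [hτ, a1, b1, t1])))]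

theorem up_zero [ConnectedSpace (GraphSpace src tgt)] {v₀ : Fin n} (hv : 3 ≤ valence src tgt v₀)
    (v : Fin n) : valence src tgt v ≠ 0 := fun h => by
  have h1 : ∀ g : Half m, vx src tgt g ≠ v := fun g e => by
    rw [up_val, Finset.card_eq_zero] at h
    exact Finset.notMem_empty g (h ▸ Finset.mem_filter.2 ⟨Finset.mem_univ _, e⟩)
  obtain ⟨p, hp⟩ := intermediate_value_univ (bdV src tgt v) (bdV src tgt v₀) (bdR_cont v)
    (show (1 / 2 : ℝ) ∈ Icc _ _ by
      rw [bdR_V, bdR_V, if_pos rfl, if_neg (by rintro rfl; omega)]; norm_num)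
  rcases bd_nf p with ⟨w, rfl⟩ | ⟨e, t, -, -, rfl⟩
  · rw [bdR_V] at hp
    split_ifs at hp <;> norm_num at hp
  · rw [bdR_E, if_neg (show src e ≠ v from h1 (e, false)),
      if_neg (show tgt e ≠ v from h1 (e, true))] at hp
    norm_num at hp

theorem up_nonneg (w : Fin n) (p : GraphSpace src tgt) : 0 ≤ bdR w p := by
  by_cases h : p = bdV src tgt w
  · rw [h, bdR_V, if_pos rfl]
  · exact (bdR_pos h).le

noncomputable def upS (w : Fin n) (x : bdF k (GraphSpace src tgt)) : ℝ :=
  ∑ a, ∏ b, max 0 ((if b = a then 1 / 3 else bdR w (x.1 b)) - bdR w (x.1 a))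

noncomputable def upP (w : Fin n) (x : bdF k (GraphSpace src tgt)) : ℝ := ∏ a, bdR w (x.1 a)

variable {w : Fin n} {x : bdF k (GraphSpace src tgt)}

theorem upS_cont : Continuous (upS w : bdF k (GraphSpace src tgt) → ℝ) := by
  have c := fun i => (bdR_cont w).comp (bd_ev (X := GraphSpace src tgt) (k := k) i)
  refine continuous_finsetSum _ fun a _ => continuous_finsetProd _ fun b _ =>
    continuous_const.max (Continuous.sub ?_ (c a))
  split_ifs
  exacts [continuous_const, c b]

theorem upP_cont : Continuous (upP w : bdF k (GraphSpace src tgt) → ℝ) :=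
  continuous_finsetProd _ fun a _ => (bdR_cont w).comp (bd_ev a)

theorem upS_act (g : Equiv.Perm (Fin k)) : upS w (bdAct g x) = upS w x := by
  rw [upS, upS, ← Equiv.sum_comp g (fun a => ∏ b, max 0 ((if b = a then 1 / 3
    else bdR w (x.1 b)) - bdR w (x.1 a)))]
  refine Finset.sum_congr rfl fun a _ => ?_
  rw [← Equiv.prod_comp g (fun b => max 0 ((if b = g a then 1 / 3
    else bdR w (x.1 b)) - bdR w (x.1 (g a))))]
  simp only [g.apply_eq_iff_eq]
  rfl

theorem upP_act (g : Equiv.Perm (Fin k)) : upP w (bdAct g x) = upP w x :=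
  Equiv.prod_comp g fun a => bdR w (x.1 a)

theorem upP_nonneg : 0 ≤ upP w x := Finset.prod_nonneg fun _ _ => up_nonneg _ _

theorem upS_nonneg : 0 ≤ upS w x :=
  Finset.sum_nonneg fun _ _ => Finset.prod_nonneg fun _ _ => le_max_left _ _

theorem upS_pos : 0 < upS w x ↔ ∃ i, bdSp1 w x i := by
  rw [upS, Finset.sum_pos_iff_of_nonneg fun _ _ => Finset.prod_nonneg fun _ _ => le_max_left _ _]
  refine exists_congr fun a => ⟨fun ⟨_, h⟩ => ?_, fun h => ⟨Finset.mem_univ _,
    Finset.prod_pos fun b _ => lt_max_of_lt_right (sub_pos.2 ?_)⟩⟩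
  · have := fun b => sub_pos.1 ((lt_max_iff.1 ((le_max_left _ _).lt_of_ne'
      (Finset.prod_ne_zero_iff.1 h.ne' b (Finset.mem_univ _)))).resolve_left (lt_irrefl _))
    exact ⟨by simpa using this a, fun b hb => by simpa [hb] using this b⟩
  · split_ifs with e
    exacts [h.1, h.2 b e]

theorem up_SP (h : upP w x = 0) : 0 < upS w x := by
  obtain ⟨a, -, ha⟩ := Finset.prod_eq_zero_iff.1 h
  exact upS_pos.2 ⟨a, bdSp1_V (by_contra fun e => (bdR_pos e).ne' ha)⟩

variable (src tgt k) in
def upO (c : ℝ) : Set (bdF k (GraphSpace src tgt)) :=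
  {x | ∀ w, if 3 ≤ valence src tgt w then upP w x ≠ c * upS w x else 0 < upP w x}

noncomputable def upW (c : ℝ) (x : bdF k (GraphSpace src tgt)) : Finset (Fin n) :=
  Finset.univ.filter fun w => 3 ≤ valence src tgt w ∧ upP w x < c * upS w x

variable {c : ℝ}

theorem upO_open : IsOpen (upO k src tgt c) := by
  rw [upO, ofPred_forall]
  refine isOpen_iInter_of_finite fun w => ?_
  by_cases h : 3 ≤ valence src tgt w
  · simp only [h, if_true]
    exact isOpen_ne_fun upP_cont (continuous_const.mul upS_cont)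
  · simp only [h, if_false]
    exact isOpen_lt continuous_const upP_cont

theorem upO_mem (hc : 0 ≤ c) (hx : x ∈ upO k src tgt c) : x ∈ bdO (upW c x) := by
  refine ⟨fun w hw i => ?_, fun w hw => upS_pos.1 ?_⟩
  · suffices h : 0 < upP w x from
      (up_nonneg _ _).lt_of_ne' (Finset.prod_ne_zero_iff.1 h.ne' i (Finset.mem_univ _))
    have := hx w
    split_ifs at this with h
    · exact (mul_nonneg hc upS_nonneg).trans_lt ((not_lt.1 fun h' =>
        hw (Finset.mem_filter.2 ⟨Finset.mem_univ _, h, h'⟩)).lt_of_ne' this)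
    · exact this
  · exact pos_of_mul_pos_right (upP_nonneg.trans_lt (Finset.mem_filter.1 hw).2.2) hc

theorem upW_ev (hx : x ∈ upO k src tgt c) : ∀ᶠ y in 𝓝 x, upW c y = upW c x := by
  have : ∀ w, ∀ᶠ y in 𝓝 x, (3 ≤ valence src tgt w ∧ upP w y < c * upS w y ↔
      3 ≤ valence src tgt w ∧ upP w x < c * upS w x) := fun w => by
    by_cases h : 3 ≤ valence src tgt w
    · have h1 := hx w
      rw [if_pos h] at h1
      have c1 := (upP_cont (w := w)).continuousAt (x := x)
      have c2 := ((continuous_const (y := c)).mul (upS_cont (w := w))).continuousAt (x := x)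
      rcases h1.lt_or_gt with l | l
      · exact (c1.eventually_lt c2 l).mono fun y hy => iff_of_true ⟨h, hy⟩ ⟨h, l⟩
      · exact (c2.eventually_lt c1 l).mono fun y hy =>
          iff_of_false (fun a => lt_asymm a.2 hy) fun a => lt_asymm a.2 l
    · exact .of_forall fun _ => iff_of_false (fun a => h a.1) fun a => h a.1
  exact (eventually_all.2 this).mono fun y hy => Finset.filter_congr fun w _ => hy w

theorem upH_cont (i : Fin k) (hc : 0 ≤ c) :
    Continuous fun z : I × upO k src tgt c => bdH (upW c z.2.1) z.1 z.2.1 i := by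
  refine continuous_iff_continuousAt.2 fun z => ?_
  have c1 : Continuous fun z : I × upO k src tgt c => z.2.1 := by fun_prop
  have c2 : ContinuousOn (fun y : I × bdF k (GraphSpace src tgt) => bdH (upW c z.2.1) y.1 y.2 i)
      (Prod.snd ⁻¹' bdO (upW c z.2.1)) := by
    rw [continuousOn_iff_continuous_domRestrict]
    exact (bdH_cont i).comp (f := fun y : (Prod.snd ⁻¹' bdO (upW c z.2.1) :
      Set (I × bdF k (GraphSpace src tgt))) => (y.1.1, (⟨y.1.2, y.2⟩ : bdO (upW c z.2.1))))
      (by fun_prop)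
  refine ((c2.continuousAt (x := (z.1, z.2.1)) ((bdO_open.preimage continuous_snd).mem_nhds
    (upO_mem hc z.2.2))).comp (f := fun z : I × upO k src tgt c => (z.1, z.2.1))
      (continuous_fst.prodMk c1).continuousAt).congr ?_
  filter_upwards [c1.continuousAt.eventually (upW_ev z.2.2)] with y hy
  rw [hy]
  rfl

theorem up_null [PathConnectedSpace (UConf k (GraphSpace src tgt))] (hc : 0 ≤ c) :
    ((ContinuousMap.id _).restrict (bdMk '' upO k src tgt c)).Nullhomotopic := by
  have := bdc_t2 (src := src) (tgt := tgt)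
  refine bd_null upO_open (fun z => ⟨bdH (upW c z.2.1) z.1 z.2.1, bdH_inj (upO_mem hc z.2.2) _⟩)
    ((continuous_pi fun i => upH_cont i hc).subtype_mk _)
    (fun x => Subtype.ext (funext fun i => ?_))
    (fun x => ?_) fun τ g x y h => Subtype.ext (funext fun i => ?_)
  · by_cases h : bdSp (upW c x.1) x.1 i
    · exact (if_pos h).trans (bdS_zero _)
    · obtain ⟨a, t, s, -, -, he, g, -, -, -, hs, -, -, hH⟩ := bdH_N (upO_mem hc x.2) h 0
      exact hH.trans (he.trans (congrArg _ (Subtype.ext (by simpa only [Icc.coe_zero, sub_zero, one_mul, zero_mul, add_zero] using hs.symm)))).symm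
  · refine (eventually_all.2 fun i => ?_).mono fun y hy => Subtype.ext (funext hy)
    have f := ((finite_range _).union (finite_range _)).subset
      (range_subset_iff.2 fun y : upO k src tgt c => bdH_one (upO_mem hc y.2) i)
    have c' := ((upH_cont i hc).comp (Continuous.prodMk_right 1)).continuousAt (x := x)
    filter_upwards [c'.eventually ((f.sdiff
      (t := {bdH (upW c x.1) 1 x.1 i})).isClosed.isOpen_compl.mem_nhds fun h => h.2 rfl)] with y hy
    exact by_contra fun e => hy ⟨⟨y, rfl⟩, e⟩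
  · have e : upW c (bdAct g x.1) = upW c x.1 := by simp only [upW, upS_act, upP_act]
    exact (congrArg (fun y => bdH (upW c y) τ y i) h).trans
      ((bdH_act τ g i).trans (congrArg (bdH · τ x.1 (g i)) e))

end

theorem up_sets {n m : ℕ} (src tgt : Fin m → Fin n) (k : ℕ)
    [ConnectedSpace (GraphSpace src tgt)] [PathConnectedSpace (UConf k (GraphSpace src tgt))]
    (v₀ : Fin n) (hv : 3 ≤ valence src tgt v₀) (h2 : ∀ v, valence src tgt v ≠ 2) :
    ∃ O : ℕ → Set (UConf k (GraphSpace src tgt)), (∀ c, IsOpen (O c)) ∧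
      (∀ c, ((ContinuousMap.id _).restrict (O c)).Nullhomotopic) ∧
      ∀ (r : ℕ) (y : Fin r → UConf k (GraphSpace src tgt)),
        ∃ c : Fin (r * (Finset.univ.filter fun v => 3 ≤ valence src tgt v).card + 1),
          ∀ j, y j ∈ O c := by
  let φ : I → bdF k (GraphSpace src tgt) → bdF k (GraphSpace src tgt) := fun τ x =>
    ⟨upPhi src tgt τ ∘ x.1, (upPhi_inj τ).comp x.2⟩
  obtain ⟨G, hG⟩ := bd_desc ((IsOpenQuotientMap.id (X := I)).prodMap bdMk_oq)
    (g := fun z => bdMk (φ z.1 z.2)) (bdMk_oq.continuous.comp ((continuous_pi fun i =>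
      upPhi_cont.comp (((bd_ev i).comp continuous_snd).prodMk continuous_fst)).subtype_mk _)) (by
      rintro ⟨τ, x⟩ ⟨τ', y⟩ h
      obtain ⟨rfl, h'⟩ : τ = τ' ∧ bdMk x = bdMk y := Prod.ext_iff.1 h
      obtain ⟨g, rfl⟩ := bdMk_eq.1 h'
      exact bdMk_eq.2 ⟨g, rfl⟩)
  let Φ : C(UConf k (GraphSpace src tgt), UConf k (GraphSpace src tgt)) :=
    G.comp ⟨fun u => (1, u), by fun_prop⟩
  have hΦ : (ContinuousMap.id _).Homotopic Φ := ⟨⟨G, fun u => by
    obtain ⟨x, rfl⟩ := bdMk_oq.surjective u
    exact (hG (0, x)).trans (congrArg bdMk (Subtype.ext (funext fun i => upPhi_zero _))),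
    fun _ => rfl⟩⟩
  refine ⟨fun c => Φ ⁻¹' (bdMk '' upO k src tgt c),
    fun c => (bdMk_oq.isOpenMap _ upO_open).preimage Φ.continuous, fun c => ?_, fun r y => ?_⟩
  · obtain ⟨b, hb⟩ := up_null (src := src) (tgt := tgt) (k := k) (c := c) (Nat.cast_nonneg _)
    exact ⟨b, (hΦ.comp (ContinuousMap.Homotopic.refl ((ContinuousMap.id _).restrict
      (Φ ⁻¹' (bdMk '' upO k src tgt c))))).trans (hb.comp
        (ContinuousMap.Homotopic.refl (⟨fun x : Φ ⁻¹' (bdMk '' upO k src tgt c) =>
            (⟨Φ x.1, x.2⟩ : bdMk '' upO k src tgt c),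
          (Φ.continuous.comp continuous_subtype_val).subtype_mk _⟩ :
            C(_, bdMk '' upO k src tgt c))))⟩
  · choose x hx using fun j => bdMk_oq.surjective (y j)
    by_contra hcon
    have h3 : ∀ c : Fin (r * (Finset.univ.filter fun v => 3 ≤ valence src tgt v).card + 1),
        ∃ z : Fin r × (Finset.univ.filter fun v => 3 ≤ valence src tgt v),
          upP z.2.1 (φ 1 (x z.1)) = (c : ℕ) * upS z.2.1 (φ 1 (x z.1)) := by
      intro c
      by_contra h4
      refine hcon ⟨c, fun j => ⟨φ 1 (x j), fun w => ?_, hx j ▸ (hG (1, x j)).symm⟩⟩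
      split_ifs with h
      · exact fun e => h4 ⟨(j, ⟨w, Finset.mem_filter.2 ⟨Finset.mem_univ _, h⟩⟩), e⟩
      · refine Finset.prod_pos fun a _ => bdR_pos fun e => ?_
        rcases up_nf ((x j).1 a) with ⟨v, h5, e'⟩ | ⟨e', s, a', b', e''⟩
        · have e1 : upPhi src tgt 1 ((x j).1 a) = bdV src tgt w := e
          rw [e', upPhi_V 1 h5] at e1
          obtain rfl := bdV_inj src tgt e1
          have := h2 v
          have := up_zero hv v
          omega
        · have e1 : upPhi src tgt 1 ((x j).1 a) = bdV src tgt w := e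
          rw [e''] at e1
          exact up_EV (upT_mem zero_lt_one a' b') w e1
    choose z hz using h3
    have h4 : Injective z := fun c c' e => by
      have a := hz c
      have b := hz c'
      rw [← e] at b
      have : upS (z c).2.1 (φ 1 (x (z c).1)) ≠ 0 := fun h =>
        (up_SP (by rw [a, h, mul_zero])).ne' h
      exact Fin.ext (Nat.cast_injective (mul_right_cancel₀ this (a.symm.trans b)))
    have := Fintype.card_le_of_injective z h4
    simp only [Fintype.card_fin, Fintype.card_prod, Fintype.card_coe] at this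
    omega

theorem upper {n m : ℕ} (src tgt : Fin m → Fin n) (k r : ℕ) (hr : 1 ≤ r)
    [ConnectedSpace (GraphSpace src tgt)] [PathConnectedSpace (UConf k (GraphSpace src tgt))]
    (v₀ : Fin n) (hv : 3 ≤ valence src tgt v₀) (h2 : ∀ v, valence src tgt v ≠ 2) :
    TC r (UConf k (GraphSpace src tgt)) ≤
      (r * (Finset.univ.filter fun v => 3 ≤ valence src tgt v).card : ℕ) := by
  obtain ⟨O, hO, hn, hc⟩ := up_sets src tgt k v₀ hv h2
  by_cases h1 : r = 1
  · subst h1
    rw [TC, if_pos rfl]
    refine iInf₂_le _ ⟨fun c => O c, fun c => hO c, eq_univ_of_forall fun y => ?_, fun c => hn c⟩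
    obtain ⟨c, h⟩ := hc 1 fun _ => y
    exact mem_iUnion.2 ⟨c, h 0⟩
  rw [TC, if_neg h1]
  refine iInf₂_le _ ⟨fun c => Set.pi univ fun _ => O c,
    fun c => isOpen_set_pi finite_univ fun _ _ => hO c, eq_univ_of_forall fun y => ?_,
    fun c => (section_iff hr h1 _).2 ?_⟩
  · obtain ⟨c, h⟩ := hc r y
    exact mem_iUnion.2 ⟨c, fun j _ => h j⟩
  · obtain ⟨b, hb⟩ := hn c
    have key : ∀ a, (pr (Set.pi univ fun _ : Fin r => O c) a).Homotopic
        (ContinuousMap.const _ b) := fun a =>
      hb.comp (ContinuousMap.Homotopic.refl (⟨fun x : Set.pi univ fun _ : Fin r => O c =>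
        (⟨x.1 a, x.2 a trivial⟩ : O c),
          ((continuous_apply a).comp continuous_subtype_val).subtype_mk _⟩ : C(_, O c)))
    exact fun a a' => (key a).trans (key a').symm

end Pool.Agent.MP_10b04c_gt.SR

end

-- part MP_10b04c_gt.H96.Smooth
section

set_option autoImplicit false

namespace Pool.Agent.MP_10b04c_gt.SR

open unitInterval Set Function Classical

def smoothFl (b : Bool) (t : I) : I := if b then t else symm t

noncomputable def smoothHf (t : I) : I :=
  ⟨t / 2, by have := t.2.1; have := t.2.2; constructor <;> linarith⟩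

noncomputable def smoothDb (t : I) : I := projIcc 0 1 zero_le_one (2 * t)

theorem smooth_ff (b : Bool) (t : I) : smoothFl b (smoothFl b t) = t := by
  cases b <;> simp [smoothFl]

theorem smooth_fn (b : Bool) : smoothFl b (smoothFl (!b) 1) = 0 := by
  cases b <;> simp [smoothFl]

theorem smooth_cf (b : Bool) : Continuous (smoothFl b) := by
  cases b
  exacts [continuous_symm, continuous_id]

theorem smooth_ch : Continuous smoothHf := Continuous.subtype_mk (by fun_prop) _

theorem smooth_cd : Continuous smoothDb := continuous_projIcc.comp (by fun_prop)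

theorem smooth_dh (t : I) : smoothDb (smoothHf t) = t := by
  rw [smoothDb, show 2 * (smoothHf t : ℝ) = t by simp only [smoothHf]; ring, projIcc_val]

theorem smooth_hd {t : I} (h : (t : ℝ) ≤ 1 / 2) : smoothHf (smoothDb t) = t := by
  have := t.2.1
  rw [smoothDb, projIcc_of_mem _ ⟨by linarith only [this], by linarith⟩]
  exact Subtype.ext (by simp [smoothHf])

theorem smooth_h0 : smoothHf 0 = 0 := Subtype.ext (by simp only [smoothHf, Icc.coe_zero, zero_div, Icc.mk_zero])

theorem smooth_h1 : symm (smoothHf 1) = smoothHf 1 := Subtype.ext (by norm_num only [smoothHf, Icc.coe_one, one_div, coe_symm_eq])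

theorem smooth_one {n m : ℕ} (src tgt : Fin m → Fin n) (e : Fin m) (b : Bool) :
    bdE src tgt e (smoothFl b 1) = bdV src tgt (vx src tgt (e, b)) := by
  cases b
  exacts [(congrArg _ symm_one).trans (bdE_zero e), bdE_one e]

theorem smooth_zero {n m : ℕ} (src tgt : Fin m → Fin n) (e : Fin m) (b : Bool) :
    bdE src tgt e (smoothFl b 0) = bdV src tgt (vx src tgt (e, !b)) := by
  cases b
  exacts [(congrArg _ symm_zero).trans (bdE_one e), bdE_zero e]

theorem smooth_val {n m : ℕ} (src tgt : Fin m → Fin n) (w : Fin n) (b : Fin m → Bool) :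
    valence src tgt w = ∑ e, ((if vx src tgt (e, b e) = w then 1 else 0) +
      if vx src tgt (e, !b e) = w then 1 else 0) := by
  rw [valence, Finset.card_filter, Finset.card_filter, ← Finset.sum_add_distrib]
  refine Finset.sum_congr rfl fun e _ => ?_
  cases b e
  exacts [rfl, add_comm _ _]

theorem smooth_step {n m : ℕ} (src tgt : Fin (m + 1) → Fin (n + 1)) (s t : Fin m → Fin n)
    (v : Fin (n + 1)) (c : Fin (m + 1)) (d : Fin m) (b b' : Bool)
    (ho : ∀ e, e ≠ d → src (c.succAbove e) = v.succAbove (s e) ∧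
      tgt (c.succAbove e) = v.succAbove (t e))
    (h1 : vx src tgt (c.succAbove d, b) = v) (h2 : vx src tgt (c, b') = v)
    (h3 : vx src tgt (c.succAbove d, !b) = v.succAbove (s d))
    (h4 : vx src tgt (c, !b') = v.succAbove (t d)) :
    Nonempty (GraphSpace src tgt ≃ₜ GraphSpace s t) ∧
      ∀ w, valence s t w = valence src tgt (v.succAbove w) := by
  constructor
  · let fv : Fin (n + 1) → GraphSpace s t :=
      Fin.insertNth (α := fun _ => GraphSpace s t) v (bdE s t d (smoothHf 1)) (bdV s t)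
    let fe : Fin (m + 1) → I → GraphSpace s t := Fin.insertNth (α := fun _ => I → GraphSpace s t) c
      (fun x => bdE s t d (symm (smoothHf (smoothFl b' x))))
      fun e x => if e = d then bdE s t d (smoothHf (smoothFl b x)) else bdE s t e x
    have v1 : fv v = bdE s t d (smoothHf 1) := Fin.insertNth_apply_same ..
    have v2 : ∀ w, fv (v.succAbove w) = bdV s t w := fun w => Fin.insertNth_apply_succAbove ..
    have e1 : ∀ x, fe c x = bdE s t d (symm (smoothHf (smoothFl b' x))) := fun x => by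
      simp only [fe, Fin.insertNth_apply_same]
    have e2 : ∀ x, fe (c.succAbove d) x = bdE s t d (smoothHf (smoothFl b x)) := fun x => by
      simp only [fe, Fin.insertNth_apply_succAbove, if_true]
    have e3 : ∀ e, e ≠ d → ∀ x, fe (c.succAbove e) x = bdE s t e x := fun e he x => by
      simp only [fe, Fin.insertNth_apply_succAbove, if_neg he]
    have hf : ∀ e a, fe e (smoothFl a 1) = fv (vx src tgt (e, a)) := by
      intro e a
      obtain rfl | ⟨e, rfl⟩ := Fin.eq_self_or_eq_succAbove c e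
      · obtain rfl | rfl := Bool.eq_or_eq_not a b'
        · rw [e1, smooth_ff, h2, v1, smooth_h1]
        · rw [e1, smooth_fn, h4, v2, smooth_h0, symm_zero, bdE_one]
      by_cases he : e = d
      · subst he
        obtain rfl | rfl := Bool.eq_or_eq_not a b
        · rw [e2, smooth_ff, h1, v1]
        · rw [e2, smooth_fn, h3, v2, smooth_h0, bdE_zero]
      · rw [e3 e he, smooth_one, ← v2]
        cases a
        exacts [congrArg fv (ho e he).1.symm, congrArg fv (ho e he).2.symm]
    have f0 : ∀ e, fe e 0 = fv (src e) := fun e => (congrArg _ symm_one.symm).trans (hf e false)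
    have f1 : ∀ e, fe e 1 = fv (tgt e) := fun e => hf e true
    let F : GraphSpace src tgt → GraphSpace s t := bdLift fv fe f0 f1
    let ge : Fin m → I → GraphSpace src tgt := fun e x =>
      if e = d then (if (x : ℝ) ≤ 1 / 2 then bdE src tgt (c.succAbove d) (smoothFl b (smoothDb x))
        else bdE src tgt c (smoothFl b' (smoothDb (symm x)))) else bdE src tgt (c.succAbove e) x
    have d0 : smoothDb 0 = 0 := by rw [← smooth_h0, smooth_dh, smooth_h0]
    have mid : ∀ x : I, (x : ℝ) = 1 / 2 → bdE src tgt (c.succAbove d) (smoothFl b (smoothDb x)) =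
        bdE src tgt c (smoothFl b' (smoothDb (symm x))) := fun x hx => by
      obtain rfl : x = smoothHf 1 := Subtype.ext hx
      rw [smooth_h1, smooth_dh, smooth_one, smooth_one, h1, h2]
    have g1 : ∀ x : I, (x : ℝ) ≤ 1 / 2 →
        ge d x = bdE src tgt (c.succAbove d) (smoothFl b (smoothDb x)) := fun x hx => by
      simp only [ge, if_true, if_pos hx]
    have g2 : ∀ x : I, 1 / 2 ≤ (x : ℝ) →
        ge d x = bdE src tgt c (smoothFl b' (smoothDb (symm x))) := fun x hx => by
      rcases hx.eq_or_lt with h | h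
      · rw [g1 x h.ge, mid x h.symm]
      · simp only [ge, if_true, if_neg h.not_ge]
    have g3 : ∀ e, e ≠ d → ∀ x, ge e x = bdE src tgt (c.succAbove e) x := fun e he x => if_neg he
    have k0 : ∀ e, ge e 0 = bdV src tgt (v.succAbove (s e)) := fun e => by
      by_cases he : e = d
      · rw [he, g1 _ (by norm_num only [Icc.coe_zero]), d0, smooth_zero, h3]
      · rw [g3 e he, bdE_zero, (ho e he).1]
    have k1 : ∀ e, ge e 1 = bdV src tgt (v.succAbove (t e)) := fun e => by
      by_cases he : e = d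
      · rw [he, g2 _ (by norm_num only [Icc.coe_one, half_le_self_iff]), symm_one, d0, smooth_zero, h4]
      · rw [g3 e he, bdE_one, (ho e he).2]
    let G : GraphSpace s t → GraphSpace src tgt :=
      bdLift (fun w => bdV src tgt (v.succAbove w)) ge k0 k1
    have FE : ∀ e x, F (bdE src tgt e x) = fe e x := fun _ _ => rfl
    have GE : ∀ e x, G (bdE s t e x) = ge e x := fun _ _ => rfl
    have hh : ∀ x : I, (smoothHf x : ℝ) ≤ 1 / 2 := fun x =>
      div_le_div_of_nonneg_right x.2.2 zero_le_two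
    refine ⟨⟨⟨F, G, ?_, ?_⟩, bdLift_cont (h0 := f0) (h1 := f1) fun e => ?_,
      bdLift_cont (f := fun w => bdV src tgt (v.succAbove w)) (h0 := k0) (h1 := k1) fun e => ?_⟩⟩
    · rintro ⟨w | ⟨e, x⟩⟩
      · show G (fv w) = bdV src tgt w
        obtain rfl | ⟨w, rfl⟩ := Fin.eq_self_or_eq_succAbove v w
        · rw [v1, GE, g1 _ (hh _), smooth_dh, smooth_one, h1]
        · rw [v2]; rfl
      show G (fe e x) = bdE src tgt e x
      obtain rfl | ⟨e, rfl⟩ := Fin.eq_self_or_eq_succAbove c e
      · rw [e1, GE, g2 _ (by rw [coe_symm_eq]; linarith only [hh (smoothFl b' x)]), symm_symm,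
          smooth_dh, smooth_ff]
      by_cases he : e = d
      · rw [he, e2, GE, g1 _ (hh _), smooth_dh, smooth_ff]
      · rw [e3 e he, GE, g3 e he]
    · rintro ⟨w | ⟨e, x⟩⟩
      · exact v2 w
      show F (ge e x) = bdE s t e x
      by_cases he : e = d
      · subst he
        rcases le_total (x : ℝ) (1 / 2) with h | h
        · rw [g1 x h, FE, e2, smooth_ff, smooth_hd h]
        · rw [g2 x h, FE, e1, smooth_ff, smooth_hd (by rw [coe_symm_eq]; linarith only [h]), symm_symm]
      · rw [g3 e he, FE, e3 e he]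
    · obtain rfl | ⟨e, rfl⟩ := Fin.eq_self_or_eq_succAbove c e
      · rw [funext e1]
        exact (bdE_cont d).comp (continuous_symm.comp (smooth_ch.comp (smooth_cf _)))
      by_cases he : e = d
      · rw [he, funext e2]
        exact (bdE_cont d).comp (smooth_ch.comp (smooth_cf _))
      · rw [funext (e3 e he)]
        exact bdE_cont e
    · by_cases he : e = d
      · simp only [ge, if_pos he]
        exact Continuous.if_le ((bdE_cont _).comp ((smooth_cf _).comp smooth_cd))
          ((bdE_cont _).comp ((smooth_cf _).comp (smooth_cd.comp continuous_symm)))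
          continuous_subtype_val continuous_const mid
      · rw [funext (g3 e he)]
        exact bdE_cont _
  · intro w
    rw [smooth_val s t w fun _ => false, smooth_val src tgt _
      (Fin.insertNth (α := fun _ => Bool) c b' fun e => if e = d then b else false),
      Fin.sum_univ_succAbove _ c, ← Finset.add_sum_erase _ _ (Finset.mem_univ d),
      ← Finset.add_sum_erase _ _ (Finset.mem_univ d), ← add_assoc]
    simp only [Fin.insertNth_apply_same, Fin.insertNth_apply_succAbove, if_true, h1, h2, h3, h4,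
      if_neg (Fin.succAbove_ne v w).symm, Fin.succAbove_right_inj, zero_add]
    congr 1
    · exact add_comm _ _
    refine Finset.sum_congr rfl fun e he => ?_
    have he := ho e (Finset.ne_of_mem_erase he)
    simp only [if_neg (Finset.ne_of_mem_erase ‹_›), vx, Bool.not_false, if_true, he.1, he.2,
      Bool.false_eq_true, if_false, Fin.succAbove_right_inj]

theorem smooth {n m : ℕ} (src tgt : Fin m → Fin n) [ConnectedSpace (GraphSpace src tgt)]
    (v₀ : Fin n) (hv : 3 ≤ valence src tgt v₀) :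
    ∃ (n' m' : ℕ) (src' tgt' : Fin m' → Fin n'),
      Nonempty (GraphSpace src tgt ≃ₜ GraphSpace src' tgt') ∧ (∀ v, valence src' tgt' v ≠ 2) ∧
      (Finset.univ.filter fun v => 3 ≤ valence src' tgt' v).card =
        (Finset.univ.filter fun v => 3 ≤ valence src tgt v).card := by
  induction n generalizing m with
  | zero => exact v₀.elim0
  | succ n ih =>
  by_cases h : ∀ v, valence src tgt v ≠ 2
  · exact ⟨_, _, src, tgt, ⟨Homeomorph.refl _⟩, h, rfl⟩
  obtain ⟨v, h⟩ := not_forall.1 h
  rw [not_not] at h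
  have hne : v₀ ≠ v := fun e => by rw [e, h] at hv; omega
  have hc : (Finset.univ.filter fun g : Half m => vx src tgt g = v).card = 2 := by
    rw [← h, smooth_val src tgt v fun _ => true, Finset.card_filter, Fintype.sum_prod_type]
    simp only [Fintype.sum_bool, Bool.not_true]
  obtain ⟨⟨d, b⟩, ⟨c, b'⟩, hdc, hs⟩ := Finset.card_eq_two.1 hc
  have hs : ∀ g, vx src tgt g = v ↔ g = (d, b) ∨ g = (c, b') := fun g => by
    simpa only [Finset.mem_filter, Finset.mem_univ, true_and, Finset.mem_insert, Finset.mem_singleton] using Finset.ext_iff.1 hs g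
  by_cases e : d = c
  · subst e
    have k : ∀ e a, decide (e = d) = decide (vx src tgt (e, a) = v) := fun e a => by
      rw [decide_eq_decide, hs, Prod.mk.injEq, Prod.mk.injEq, ← and_or_left]
      refine (and_iff_left ?_).symm
      have : b ≠ b' := fun h => hdc (by rw [h])
      revert this
      cases a <;> cases b <;> cases b' <;> decide
    have := PreconnectedSpace.constant inferInstance (bdLift_cont (src := src) (tgt := tgt)
      (f := fun w => decide (w = v)) (g := fun e _ => decide (e = d)) (h0 := fun e => k e false)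
      (h1 := fun e => k e true) fun _ => continuous_const) (x := bdV src tgt v₀)
      (y := bdV src tgt v)
    exact (hne (decide_eq_decide.1 (show decide (v₀ = v) = decide (v = v) from this) |>.2 rfl)).elim
  obtain _ | m := m
  · exact c.elim0
  obtain ⟨d, rfl⟩ := Fin.exists_succAbove_eq e
  have k : ∀ e a, (e = d → a = !b) → vx src tgt (c.succAbove e, a) ≠ v := fun e a he => by
    rw [Ne, hs]
    rintro (h | h)
    · obtain ⟨h1, rfl⟩ := Prod.ext_iff.1 h
      simpa using he (Fin.succAbove_right_injective h1)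
    · exact Fin.succAbove_ne c e (Prod.ext_iff.1 h).1
  have k' : vx src tgt (c, !b') ≠ v := by
    rw [Ne, hs]
    rintro (h | h)
    · exact e (Prod.ext_iff.1 h).1.symm
    · simp at h
  have ks : ∀ e, ∃ w, v.succAbove w = vx src tgt (c.succAbove e, if e = d then !b else false) :=
    fun e => Fin.exists_succAbove_eq (k _ _ fun he => if_pos he)
  have kt : ∀ e, ∃ w, v.succAbove w =
      vx src tgt (if e = d then (c, !b') else (c.succAbove e, true)) := fun e =>
    Fin.exists_succAbove_eq (by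
      split_ifs with he
      exacts [k', k _ _ fun h => (he h).elim])
  choose s hs' using ks
  choose t ht' using kt
  obtain ⟨⟨E⟩, hval⟩ := smooth_step src tgt s t v c d b b'
    (fun e he => ⟨by rw [hs', if_neg he]; rfl, by rw [ht', if_neg he]; rfl⟩)
    ((hs _).2 (.inl rfl)) ((hs _).2 (.inr rfl)) (by rw [hs', if_pos rfl]) (by rw [ht', if_pos rfl])
  obtain ⟨w, rfl⟩ := Fin.exists_succAbove_eq hne
  have := E.surjective.connectedSpace E.continuous
  obtain ⟨n', m', s', t', ⟨E'⟩, h2, h3⟩ := ih s t w (hval w ▸ hv)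
  refine ⟨n', m', s', t', ⟨E.trans E'⟩, h2, ?_⟩
  rw [h3, Finset.card_filter, Finset.card_filter, Fin.sum_univ_succAbove _ v, h,
    if_neg (by norm_num), zero_add]
  simp only [hval]

theorem smooth_le {X Y : Type} [TopologicalSpace X] [TopologicalSpace Y] (e : X ≃ₜ Y) (r : ℕ) :
    TC r X ≤ TC r Y := by
  unfold TC LSCat
  split_ifs
  · refine iInf_mono fun n => iInf_const_mono ?_
    rintro ⟨U, h1, h2, h3⟩
    refine ⟨fun i => e ⁻¹' U i, fun i => (h1 i).preimage e.continuous,
      by rw [← preimage_iUnion, h2, preimage_univ], fun i => ?_⟩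
    convert ((h3 i).comp_right (e.symm : C(Y, X))).comp_left
      (⟨fun x : e ⁻¹' U i => ⟨e x, x.2⟩, by fun_prop⟩ : C(e ⁻¹' U i, U i)) using 1
    ext x
    simp
  · refine iInf_mono fun n => iInf_const_mono ?_
    rintro ⟨U, h1, h2, h3⟩
    refine ⟨fun i => (fun x j => e (x j)) ⁻¹' U i, fun i => (h1 i).preimage (by fun_prop),
      by rw [← preimage_iUnion, h2, preimage_univ], fun i => ?_⟩
    obtain ⟨s, hs⟩ := h3 i
    refine ⟨⟨fun x => (e.symm : C(Y, X)).comp (s ⟨fun j => e (x.1 j), x.2⟩),
      (ContinuousMap.continuous_postcomp _).comp (s.continuous.comp (Continuous.subtype_mk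
        (continuous_pi fun j => e.continuous.comp ((continuous_apply j).comp
          continuous_subtype_val)) _))⟩,
      fun x j t ht => ?_⟩
    show e.symm (s _ t) = _
    rw [hs _ j t ht, e.symm_apply_apply]

def smoothMap {X Y : Type} [TopologicalSpace X] [TopologicalSpace Y] (e : X ≃ₜ Y) (k : ℕ) :
    UConf k X → UConf k Y :=
  Quot.lift (fun x => Quot.mk _ ⟨e ∘ x.1, e.injective.comp x.2⟩) fun _ _ ⟨g, h⟩ =>
    Quot.sound ⟨g, congrArg (e ∘ ·) h⟩

theorem smooth_map {X Y : Type} [TopologicalSpace X] [TopologicalSpace Y] (e : X ≃ₜ Y) (k : ℕ) :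
    Continuous (smoothMap e k) ∧ LeftInverse (smoothMap e.symm k) (smoothMap e k) := by
  refine ⟨continuous_quot_lift _ (continuous_quot_mk.comp (Continuous.subtype_mk
    (continuous_pi fun i => e.continuous.comp (bd_ev i)) _)), ?_⟩
  rintro ⟨x⟩
  exact congrArg (Quot.mk _) (Subtype.ext (funext fun i => e.symm_apply_apply _))

theorem TC_homeo {X Y : Type} [TopologicalSpace X] [TopologicalSpace Y] (e : X ≃ₜ Y) (k r : ℕ) :
    Nonempty (UConf k X ≃ₜ UConf k Y) ∧ TC r (UConf k X) = TC r (UConf k Y) := by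
  let E : UConf k X ≃ₜ UConf k Y := ⟨⟨smoothMap e k, smoothMap e.symm k, (smooth_map e k).2,
    (smooth_map e.symm k).2⟩, (smooth_map e k).1, (smooth_map e.symm k).1⟩
  exact ⟨⟨E⟩, (smooth_le E r).antisymm (smooth_le E.symm r)⟩

end Pool.Agent.MP_10b04c_gt.SR

end
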